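import Pool.Agent.W634.LP.Burke
import Pool.Agent.W692.LP.A
import Pool.Agent.W990.LP.Mom
import Pool.Agent.W179.LP.VarId
import Pool.Agent.W589.LP.D1
import Pool.Agent.W589.LP.D2
import Pool.Agent.W576.LP.VarCmp
import Pool.Agent.W335.LP.Cpl
import Pool.Agent.W925.LP.T1
import Pool.Agent.W85.LP.VB
import Pool.Agent.W346.LP.SW
import Pool.Agent.W654.LP.Exit
import Pool.Agent.W166.LP.Kol
import Pool.Agent.W56.LP.GT
import Pool.Agent.W370.LP.Paths

/-!
# Law of large numbers for geometric last passage percolation (point to point, diagonal)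
-/

set_option autoImplicit false

namespace Pool.Agent.R962.FN

open MeasureTheory ProbabilityTheory Filter Topology
open Pool.Agent Pool.Agent.W533.LP

theorem pieces : PGT ∧ PVB ∧ PVarId := by
  have burke : PBurke := W634.LP.pBurke W692.LP.pBlock
  have mom : PMom := W990.LP.Mom.pMom
  have varId : PVarId := W179.LP.pVarId W692.LP.aMeas W692.LP.aOps W589.LP.dTransp W589.LP.dSlope mom burke
  have varCmp : PVarCmp := W576.LP.pVarCmp varId W335.LP.pCouple W692.LP.aLaw W589.LP.dSlopeMono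
    W589.LP.dTransp W692.LP.aMeas mom
  have t1 : PT1 := W925.LP.pT1 varId varCmp W335.LP.pCouple W692.LP.aLaw mom W589.LP.dIncl W692.LP.aMeas
  have vb : PVB := W85.LP.VB.pVB t1 varId mom
  have sw : PSW := W346.LP.pSW vb varId W335.LP.pCouple W692.LP.aLaw W589.LP.dMax W589.LP.dMono
    W589.LP.dTransp W692.LP.aMeas W692.LP.aOps
  have ext : PExit := W654.LP.pExit t1 vb W589.LP.dTransp W692.LP.aOps
  have kol : PKol := W166.LP.Kol.pKol mom
  have gt : PGT := W56.LP.GT.pGT ext sw burke kol mom W692.LP.pTransfer W692.LP.aSys W692.LP.aOps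
    W692.LP.aMeas W589.LP.dCut W589.LP.dSlope W370.LP.dExit W370.LP.dRot W589.LP.dSand
    W589.LP.dTransp
  exact ⟨gt, vb, varId⟩

theorem T_le_G (I J : ℕ → ℕ) (W : ℕ → ℕ → ℕ) (m n : ℕ) : T W m n ≤ G I J W m n := by
  apply W589.LP.dMono
  · intro k
    unfold ps zero
    simp
  · intro k
    unfold ps zero
    simp
  · intro i j
    exact le_rfl

theorem tend_neg (c : ℝ) (a : ℝ) (ha : 0 < a) :
    Tendsto (fun N : ℕ => c * (N : ℝ) ^ (-a)) atTop (𝓝 0) := by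
  have h : Tendsto (fun N : ℕ => (N : ℝ) ^ (-a)) atTop (𝓝 0) :=
    (tendsto_rpow_neg_atTop ha).comp tendsto_natCast_atTop_atTop
  simpa using h.const_mul c

theorem lln (q : ℝ) (h0 : 0 < q) (h1 : q < 1) :
    ∃ (Ω : Type) (_ : MeasurableSpace Ω) (μ : Measure Ω) (W : ℕ → ℕ → Ω → ℕ), Bulk μ q W ∧
      ∀ ε : ℝ, 0 < ε → Tendsto (fun N : ℕ =>
        μ.real {ω | ε * N ≤ |(Tr W N N ω : ℝ) - 2 * mean (Real.sqrt q) * N|}) atTop (𝓝 0) := by
  obtain ⟨gt, vb, varId⟩ := pieces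
  have hs : q < Real.sqrt q := by
    rw [Real.lt_sqrt h0.le]
    nlinarith
  have hs1 : Real.sqrt q < 1 := by
    rw [Real.sqrt_lt' (by norm_num)]
    simpa using h1
  have hs0 : 0 < Real.sqrt q := Real.sqrt_pos.2 h0
  have hqs : q / Real.sqrt q = Real.sqrt q := Real.div_sqrt
  obtain ⟨Ω, mΩ, μ, I, J, W, X, hsys⟩ := W692.LP.aSys (κ := Empty) q (Real.sqrt q) (fun _ => 0) h0 hs hs1
    (by intro k; exact k.elim)
  obtain ⟨hS0, hB⟩ := (W692.LP.aOps μ q).1 _ _ _ _ _ _ hsys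
  refine ⟨Ω, mΩ, μ, W, hB, ?_⟩
  have hprob : IsProbabilityMeasure μ := hB.prob
  obtain ⟨C, hC1, hgt⟩ := gt q h0 h1
  obtain ⟨D, hD1, hvb⟩ := vb q h0 h1
  have hdd : |Real.sqrt q - Real.sqrt q| ≤ 2 * dd q := by
    rw [sub_self, abs_zero]
    unfold dd
    have : 0 ≤ min (Real.sqrt q - q) (1 - Real.sqrt q) := le_min (by linarith) (by linarith)
    linarith
  intro ε hε
  -- the bound
  set M : ℝ := 2 * mean (Real.sqrt q) with hM
  have key : ∀ᶠ N : ℕ in atTop,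
      μ.real {ω | ε * N ≤ |(Tr W N N ω : ℝ) - M * N|} ≤
        C * (N : ℝ) ^ (-(1/4 : ℝ)) + (16 * D / ε ^ 2) * (N : ℝ) ^ (-(4/3 : ℝ)) := by
    -- eventual facts
    have e1 : ∀ᶠ N : ℕ in atTop, C * (N : ℝ) ^ (1/12 : ℝ) ≤ (N : ℝ) ^ (1/3 : ℝ) := by
      have h := (tendsto_rpow_atTop (by norm_num : (0:ℝ) < 1/4)).comp
        (tendsto_natCast_atTop_atTop (R := ℝ))
      filter_upwards [h.eventually_ge_atTop C, eventually_ge_atTop 1] with N hN hN1
      have hN0 : (0:ℝ) < N := by exact_mod_cast hN1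
      calc C * (N : ℝ) ^ (1/12 : ℝ) ≤ (N : ℝ) ^ (1/4 : ℝ) * (N : ℝ) ^ (1/12 : ℝ) := by
            apply mul_le_mul_of_nonneg_right hN (by positivity)
        _ = (N : ℝ) ^ (1/3 : ℝ) := by rw [← Real.rpow_add hN0]; norm_num
    have e2 : ∀ᶠ N : ℕ in atTop, C * (N : ℝ) ^ (1/2 : ℝ) < ε / 2 * N := by
      have h := (tendsto_rpow_atTop (by norm_num : (0:ℝ) < 1/2)).comp
        (tendsto_natCast_atTop_atTop (R := ℝ))
      filter_upwards [h.eventually_gt_atTop (2 * C / ε), eventually_ge_atTop 1] with N hN hN1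
      have hN0 : (0:ℝ) < N := by exact_mod_cast hN1
      have h3 : (N : ℝ) = (N : ℝ) ^ (1/2 : ℝ) * (N : ℝ) ^ (1/2 : ℝ) := by
        rw [← Real.rpow_add hN0]; norm_num
      have h4 : C < ε / 2 * (N : ℝ) ^ (1/2 : ℝ) := by
        have : 2 * C / ε < (N : ℝ) ^ (1/2 : ℝ) := hN
        rw [div_lt_iff₀ hε] at this
        linarith
      calc C * (N : ℝ) ^ (1/2 : ℝ) < ε / 2 * (N : ℝ) ^ (1/2 : ℝ) * (N : ℝ) ^ (1/2 : ℝ) := by
            apply mul_lt_mul_of_pos_right h4 (by positivity)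
        _ = ε / 2 * N := by rw [mul_assoc, ← h3]
    filter_upwards [e1, e2, eventually_ge_atTop 1] with N hN1 hN2 hN
    have hN0 : (0:ℝ) < N := by exact_mod_cast hN
    have hN1' : (1:ℝ) ≤ N := by exact_mod_cast hN
    have hb1 : 1 ≤ (N : ℝ) ^ (1/12 : ℝ) := Real.one_le_rpow hN1' (by norm_num)
    have hg := hgt μ (Real.sqrt q) ((N : ℝ) ^ (1/12 : ℝ)) I J W N N hb1 hN1 hN (by omega) (by omega)
      (by rw [sub_self, abs_zero, zero_mul]; positivity) (by rw [sub_self, abs_zero]; positivity) hS0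
    have hb2 : ((N : ℝ) ^ (1/12 : ℝ)) ^ 2 * (N : ℝ) ^ (1/3 : ℝ) = (N : ℝ) ^ (1/2 : ℝ) := by
      rw [← Real.rpow_natCast, ← Real.rpow_mul hN0.le, ← Real.rpow_add hN0]; norm_num
    have hb3 : C / ((N : ℝ) ^ (1/12 : ℝ)) ^ 3 = C * (N : ℝ) ^ (-(1/4 : ℝ)) := by
      rw [← Real.rpow_natCast, ← Real.rpow_mul hN0.le, Real.rpow_neg hN0.le, div_eq_mul_inv]
      norm_num
    rw [mul_assoc, hb2, hb3] at hg
    -- variance
    obtain ⟨hmem, hmean, -, -⟩ := varId μ q (Real.sqrt q) I J W h0 hs hs1 hS0 N N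
    rw [hqs] at hmean
    have hv := hvb μ (Real.sqrt q) I J W hdd hS0 N N hN (by omega) (by omega)
    rw [sub_self, abs_zero, sub_self, abs_zero, mul_zero, add_zero, add_zero] at hv
    have hmem2 : MemLp (fun ω => (Gr I J W N N ω : ℝ)) 2 μ := hmem.mono_exponent (by norm_num)
    have hcheb : μ.real {ω | ε / 2 * N ≤ |(Gr I J W N N ω : ℝ) - M * N|} ≤
        (4 * D / ε ^ 2) * (N : ℝ) ^ (-(4/3 : ℝ)) := by
      have hc := meas_ge_le_variance_div_sq hmem2 (c := ε / 2 * N) (by positivity)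
      have hmean' : ∫ ω, (Gr I J W N N ω : ℝ) ∂μ = M * N := by
        rw [hmean, hM]; ring
      rw [hmean'] at hc
      have hc' : μ.real {ω | ε / 2 * N ≤ |(Gr I J W N N ω : ℝ) - M * N|} ≤
          variance (fun ω => (Gr I J W N N ω : ℝ)) μ / (ε / 2 * N) ^ 2 := by
        unfold Measure.real
        apply ENNReal.toReal_le_of_le_ofReal
        · apply div_nonneg (variance_nonneg _ _) (by positivity)
        · exact hc
      refine hc'.trans ?_
      rw [div_le_iff₀ (by positivity)]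
      refine hv.trans ?_
      have h5 : (N : ℝ) ^ (-(4/3 : ℝ)) * (N : ℝ) ^ 2 = (N : ℝ) ^ (2/3 : ℝ) := by
        rw [← Real.rpow_natCast, ← Real.rpow_add hN0]; norm_num
      have h6 : 4 * D / ε ^ 2 * (N : ℝ) ^ (-(4/3 : ℝ)) * (ε / 2 * N) ^ 2 =
          D * ((N : ℝ) ^ (-(4/3 : ℝ)) * (N : ℝ) ^ 2) := by
        field_simp
        ring
      rw [h6, h5]
    -- inclusion
    have hincl : {ω | ε * N ≤ |(Tr W N N ω : ℝ) - M * N|} ⊆
        {ω | (Tr W N N ω : ℝ) + C * (N : ℝ) ^ (1/2 : ℝ) ≤ Gr I J W N N ω} ∪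
        {ω | ε / 2 * N ≤ |(Gr I J W N N ω : ℝ) - M * N|} := by
      intro ω hω
      by_contra hcon
      rw [Set.mem_union, not_or] at hcon
      obtain ⟨hc1, hc2⟩ := hcon
      simp only [Set.mem_ofPred_eq, not_le] at hc1 hc2 hω
      have hTG : (Tr W N N ω : ℝ) ≤ Gr I J W N N ω := by
        exact_mod_cast T_le_G _ _ _ N N
      rw [abs_lt] at hc2
      have : |(Tr W N N ω : ℝ) - M * N| < ε * N := by
        rw [abs_lt]
        constructor <;> linarith [hc2.1, hc2.2]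
      linarith
    have hD0 : 0 ≤ D := by linarith
    calc μ.real {ω | ε * N ≤ |(Tr W N N ω : ℝ) - M * N|}
        ≤ μ.real ({ω | (Tr W N N ω : ℝ) + C * (N : ℝ) ^ (1/2 : ℝ) ≤ Gr I J W N N ω} ∪
          {ω | ε / 2 * N ≤ |(Gr I J W N N ω : ℝ) - M * N|}) := measureReal_mono hincl
      _ ≤ _ := measureReal_union_le _ _
      _ ≤ C * (N : ℝ) ^ (-(1/4 : ℝ)) + (4 * D / ε ^ 2) * (N : ℝ) ^ (-(4/3 : ℝ)) :=
          add_le_add hg hcheb
      _ ≤ C * (N : ℝ) ^ (-(1/4 : ℝ)) + (16 * D / ε ^ 2) * (N : ℝ) ^ (-(4/3 : ℝ)) := by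
          gcongr
          norm_num
  have hlim : Tendsto (fun N : ℕ => C * (N : ℝ) ^ (-(1/4 : ℝ)) +
      (16 * D / ε ^ 2) * (N : ℝ) ^ (-(4/3 : ℝ))) atTop (𝓝 0) := by
    have := (tend_neg C (1/4) (by norm_num)).add (tend_neg (16 * D / ε ^ 2) (4/3) (by norm_num))
    simpa using this
  exact squeeze_zero' (Eventually.of_forall fun _ => measureReal_nonneg) key hlim

end Pool.Agent.R962.FN
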