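import Pool.Agent.R962.FN.Prob
import Pool.Agent.R962.FN.Lln

/-!
# Asymptotics of the longest strict chain and of the maximal gain for small density
-/

set_option autoImplicit false

namespace Pool.Agent.R962.FN

open Finset MeasureTheory ProbabilityTheory Filter Topology
open Pool.Agent.W533.LP

theorem W_tail {Ω : Type} [MeasurableSpace Ω] {μ : Measure Ω} {W : ℕ → ℕ → Ω → ℕ} {q : ℝ}
    (hB : Bulk μ q W) (v : ℕ × ℕ) (k : ℕ) :
    μ {ω | k ≤ W v.1 v.2 ω} = ENNReal.ofReal (q ^ k) := by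
  have hP : IsProbabilityMeasure μ := hB.prob
  obtain ⟨h0, h1⟩ := hB.pos v
  have hreal : μ.real {ω | k ≤ W v.1 v.2 ω} = q ^ k := by
    induction k with
    | zero => simp
    | succ k ih =>
      have hdis : {ω | k ≤ W v.1 v.2 ω} = {ω | W v.1 v.2 ω = k} ∪ {ω | k + 1 ≤ W v.1 v.2 ω} := by
        ext ω
        simp only [Set.mem_ofPred_eq, Set.mem_union]
        omega
      have hd : Disjoint {ω | W v.1 v.2 ω = k} {ω | k + 1 ≤ W v.1 v.2 ω} := by
        rw [Set.disjoint_left]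
        intro ω h2 h3
        simp only [Set.mem_ofPred_eq] at h2 h3
        omega
      have hm : MeasurableSet {ω | k + 1 ≤ W v.1 v.2 ω} := by
        have : {ω | k + 1 ≤ W v.1 v.2 ω} = (W v.1 v.2) ⁻¹' {x | k + 1 ≤ x} := rfl
        rw [this]
        exact hB.meas v MeasurableSet.of_discrete
      rw [hdis, measureReal_union hd hm] at ih
      have h4 := hB.law v k
      rw [h4] at ih
      have : q ^ (k + 1) = q ^ k - (1 - q) * q ^ k := by ring
      rw [this]
      linarith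
  rw [← hreal]
  exact (ENNReal.ofReal_toReal (measure_ne_top μ _)).symm

theorem Ev_bound {Ω : Type} [MeasurableSpace Ω] {μ : Measure Ω} {W : ℕ → ℕ → Ω → ℕ} {q : ℝ}
    (hB : Bulk μ q W) (n : ℕ) (L : List (Fin n × Fin n)) :
    μ {ω | ∀ v : Fin n × Fin n, L.count v ≤ W v.1 v.2 ω} ≤ ENNReal.ofReal (q ^ L.length) := by
  classical
  have hP : IsProbabilityMeasure μ := hB.prob
  let g2 : Fin n × Fin n → ℕ × ℕ := fun v => (v.1, v.2)
  have hg2 : Function.Injective g2 := by
    intro v w h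
    simp only [g2, Prod.mk.injEq] at h
    exact Prod.ext (Fin.ext h.1) (Fin.ext h.2)
  have h1 : iIndepFun (fun v : Fin n × Fin n => fun ω => W (g2 v).1 (g2 v).2 ω) μ :=
    hB.indep.precomp hg2
  have h2 := h1.measure_inter_preimage_eq_mul Finset.univ
    (sets := fun v => {x : ℕ | L.count v ≤ x}) (fun _ _ => MeasurableSet.of_discrete)
  have e1 : {ω | ∀ v : Fin n × Fin n, L.count v ≤ W v.1 v.2 ω} =
      ⋂ v ∈ (Finset.univ : Finset (Fin n × Fin n)),
        (fun ω => W (g2 v).1 (g2 v).2 ω) ⁻¹' {x : ℕ | L.count v ≤ x} := by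
    ext ω
    simp [g2]
  rw [e1, h2]
  have e2 : ∀ v : Fin n × Fin n, μ ((fun ω => W (g2 v).1 (g2 v).2 ω) ⁻¹' {x : ℕ | L.count v ≤ x}) =
      ENNReal.ofReal (q ^ L.count v) := fun v => W_tail hB (g2 v) (L.count v)
  rw [Finset.prod_congr rfl (fun v _ => e2 v)]
  have hq0 : 0 ≤ q := (hB.pos (0, 0)).1
  rw [← ENNReal.ofReal_prod_of_nonneg (fun v _ => by positivity), Finset.prod_pow_eq_pow_sum]
  have e3 : ∀ L : List (Fin n × Fin n), ∑ v : Fin n × Fin n, L.count v = L.length := by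
    intro L
    induction L with
    | nil => simp
    | cons a L ih =>
      simp only [List.count_cons, Finset.sum_add_distrib, ih, List.length_cons]
      simp
  rw [e3]

theorem exp_tend (s : ℝ) (hs : 0 < s) (a b : ℝ) :
    Tendsto (fun n : ℕ => (a * ((n : ℝ) + b) ^ 2) * Real.exp (-(s * n))) atTop (𝓝 0) := by
  have h : ∀ k : ℕ, Tendsto (fun n : ℕ => ((n : ℝ)) ^ k * Real.exp (-(s * n))) atTop (𝓝 0) := by
    intro k
    have h1 := Real.tendsto_pow_mul_exp_neg_atTop_nhds_zero k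
    have h2 : Tendsto (fun n : ℕ => s * (n : ℝ)) atTop atTop :=
      (tendsto_natCast_atTop_atTop (R := ℝ)).const_mul_atTop hs
    have h3 := (h1.comp h2).const_mul ((s ^ k)⁻¹)
    rw [mul_zero] at h3
    refine h3.congr (fun n => ?_)
    simp only [Function.comp]
    rw [mul_pow]
    field_simp
  have h0 := ((h 2).const_mul a).add (((h 1).const_mul (2 * a * b)).add ((h 0).const_mul (a * b ^ 2)))
  simp only [mul_zero, add_zero] at h0
  refine h0.congr (fun n => ?_)
  ring

/-- Law of large numbers for the longest strict chain, up to a small multiple of `s`. -/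
theorem LS_lln (δ : ℝ) (hδ : 0 < δ) : ∃ s0 : ℝ, 0 < s0 ∧ s0 ≤ 1 / 64 ∧ ∀ s : ℝ, 0 < s → s ≤ s0 →
    ∃ (Ω : Type) (_ : MeasurableSpace Ω) (μ : Measure Ω) (W : ℕ → ℕ → Ω → ℕ), Bulk μ (s ^ 2) W ∧
      Tendsto (fun n : ℕ => μ.real {ω | 2 * δ * s * n ≤
        |(LS n (fun a b => decide (1 ≤ W a b ω)) : ℝ) - 2 * mean s * n|}) atTop (𝓝 0) := by
  obtain ⟨s0, h0, h1, hft⟩ := few_thin δ hδ
  refine ⟨s0, h0, h1, fun s hs hs0 => ?_⟩
  obtain ⟨Ω, mΩ, μ, W, hB, hlln⟩ := lln (s ^ 2) (by positivity) (by nlinarith)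
  refine ⟨Ω, mΩ, μ, W, hB, ?_⟩
  have hP : IsProbabilityMeasure μ := hB.prob
  have hsq : Real.sqrt (s ^ 2) = s := Real.sqrt_sq hs.le
  rw [hsq] at hlln
  have h2 := hlln (δ * s / 2) (by positivity)
  have h3 : Tendsto (fun n : ℕ => μ.real {ω | δ * s / 2 * n ≤ |(Tr W n n ω : ℝ) - 2 * mean s * n|} +
      (1 * ((n : ℝ) + 0) ^ 2) * Real.exp (-(s * n))) atTop (𝓝 0) := by
    have := h2.add (exp_tend s hs 1 0)
    rwa [add_zero] at this
  have hlarge : ∀ᶠ n : ℕ in atTop, 2 / (δ * s) ≤ (n : ℝ) :=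
    tendsto_natCast_atTop_atTop.eventually_ge_atTop _
  refine squeeze_zero' (Eventually.of_forall fun _ => measureReal_nonneg) ?_ h3
  filter_upwards [hlarge] with n hn
  have hn' : 1 ≤ δ * s / 2 * n := by
    rw [div_le_iff₀ (by positivity)] at hn
    linarith
  set j : ℕ := ⌈δ * s * n⌉₊ with hj
  have hj1 : δ * s * n ≤ j := Nat.le_ceil _
  have hj2 : (j : ℝ) < δ * s * n + 1 := Nat.ceil_lt_add_one (by positivity)
  have hb := hft s hs hs0 μ (E := Fin n × Fin n) (emb n) (by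
      intro c
      have : (univ.filter (fun e : Fin n × Fin n => emb n e = c)).card ≤ 1 := by
        rw [Finset.card_le_one]
        intro a ha b hb
        rw [Finset.mem_filter] at ha hb
        have h5 := ha.2.trans hb.2.symm
        simp only [emb, Prod.mk.injEq, Nat.cast_inj] at h5
        exact Prod.ext (Fin.ext h5.1) (Fin.ext h5.2)
      omega) (m := n) (x0 := 0) (y0 := 0) (by
      intro e
      simp only [emb]
      have := e.1.2
      have := e.2.2
      omega) j hj1 (fun _ => True)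
      (fun L => {ω | ∀ v : Fin n × Fin n, L.count v ≤ W v.1 v.2 ω})
      (fun L _ => Ev_bound hB n L)
  have hb' : μ.real {ω | ∃ (e : Fin n × Fin n) (L : List (Fin n × Fin n)), True ∧
      ω ∈ {ω | ∀ v : Fin n × Fin n, (e :: L).count v ≤ W v.1 v.2 ω} ∧
      j ≤ th (emb n e) (L.map (emb n)) ∧
      bk (emb n e) (L.map (emb n)) ≤ (e :: L).length} ≤ (1 * ((n : ℝ) + 0) ^ 2) *
        Real.exp (-(s * n)) := by
    refine (ENNReal.toReal_mono ENNReal.ofReal_ne_top hb).trans ?_
    rw [ENNReal.toReal_ofReal (by positivity)]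
    simp only [Fintype.card_prod, Fintype.card_fin]
    push_cast
    ring_nf
    rfl
  have hincl : {ω | 2 * δ * s * n ≤ |(LS n (fun a b => decide (1 ≤ W a b ω)) : ℝ) -
      2 * mean s * n|} ⊆ {ω | δ * s / 2 * n ≤ |(Tr W n n ω : ℝ) - 2 * mean s * n|} ∪
      {ω | ∃ (e : Fin n × Fin n) (L : List (Fin n × Fin n)), True ∧
      ω ∈ {ω | ∀ v : Fin n × Fin n, (e :: L).count v ≤ W v.1 v.2 ω} ∧
      j ≤ th (emb n e) (L.map (emb n)) ∧
      bk (emb n e) (L.map (emb n)) ≤ (e :: L).length} := by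
    intro ω hω
    by_contra hcon
    rw [Set.mem_union, not_or] at hcon
    obtain ⟨hc1, hc2⟩ := hcon
    simp only [Set.mem_ofPred_eq, not_le] at hc1 hω
    have hle : LS n (fun a b => decide (1 ≤ W a b ω)) ≤ Tr W n n ω :=
      LS_le_T (fun i j h => by simpa using h)
    have hge : Tr W n n ω ≤ LS n (fun a b => decide (1 ≤ W a b ω)) + j := by
      rcases T_le (fun a b => W a b ω) n j (fun a b => decide (1 ≤ W a b ω))
        (fun a b h => by simpa using h) with h | ⟨e, L, g1, g2, g3⟩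
      · exact h
      · exfalso
        exact hc2 ⟨e, L, trivial, g1, g2, g3⟩
    have hle' : (LS n (fun a b => decide (1 ≤ W a b ω)) : ℝ) ≤ Tr W n n ω := by exact_mod_cast hle
    have hge' : (Tr W n n ω : ℝ) ≤ LS n (fun a b => decide (1 ≤ W a b ω)) + j := by
      exact_mod_cast hge
    rw [abs_lt] at hc1
    have : |(LS n (fun a b => decide (1 ≤ W a b ω)) : ℝ) - 2 * mean s * n| < 2 * δ * s * n := by
      rw [abs_lt]
      constructor <;> linarith [hc1.1, hc1.2]
    linarith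
  calc μ.real {ω | 2 * δ * s * n ≤ |(LS n (fun a b => decide (1 ≤ W a b ω)) : ℝ) -
      2 * mean s * n|} ≤ _ := measureReal_mono hincl
    _ ≤ _ := measureReal_union_le _ _
    _ ≤ _ := add_le_add le_rfl hb'

end Pool.Agent.R962.FN
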