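import Mathlib

/-!
# Oriented bond percolation flow: definitions
-/

set_option autoImplicit false

namespace Pool.Agent.R962.FN

/-- Oriented edges of the quadrant `ℕ × ℕ`: `(v, false)` is the edge from `v` to `v + (1, 0)` (to the
right) and `(v, true)` is the edge from `v` to `v + (0, 1)` (upwards). -/
abbrev Edge : Type := (ℕ × ℕ) × Bool

/-- The end point of an edge (its starting point is `e.1`). -/
def tip (e : Edge) : ℕ × ℕ := if e.2 = true then (e.1.1, e.1.2 + 1) else (e.1.1 + 1, e.1.2)

/-- A configuration says which edges are open (`true`) and which are closed (`false`). -/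
abbrev Conf : Type := Edge → Bool

/-- The edge has both end points in the square `{0, …, n-1}²`. -/
def InBox (n : ℕ) (e : Edge) : Prop :=
  (e.1.1 < n ∧ e.1.2 < n) ∧ ((tip e).1 < n ∧ (tip e).2 < n)

/-- The set `S = {(0,0), (0,1), …, (0,n-2)} ∪ {(1,0), …, (n-2,0)}`. -/
def SS (n : ℕ) : Set (ℕ × ℕ) := {v | (v.1 = 0 ∧ v.2 + 2 ≤ n) ∨ (v.2 = 0 ∧ v.1 + 2 ≤ n)}

/-- The set `T = {(0,n-1), …, (n-1,n-1)} ∪ {(n-1,n-2), …, (n-1,0)}`. -/
def TT (n : ℕ) : Set (ℕ × ℕ) :=
  {v | (v.2 + 1 = n ∧ v.1 + 1 ≤ n) ∨ (v.1 + 1 = n ∧ v.2 + 1 ≤ n)}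

/-- The list `P` of edges is an open oriented path of the square `{0, …, n-1}²` which begins at a
vertex of `S` and ends at a vertex of `T`. -/
def IsPath (n : ℕ) (ω : Conf) (P : List Edge) : Prop :=
  ∃ h : P ≠ [], (∀ e ∈ P, InBox n e ∧ ω e = true) ∧ P.IsChain (fun e f => tip e = f.1) ∧
    (P.head h).1 ∈ SS n ∧ tip (P.getLast h) ∈ TT n

/-- There are `k` pairwise edge-disjoint open oriented paths from `S` to `T`. -/
def HasFlow (n : ℕ) (ω : Conf) (k : ℕ) : Prop :=
  ∃ P : Fin k → List Edge, (∀ i, IsPath n ω (P i)) ∧ ∀ i j, i ≠ j → ∀ e ∈ P i, e ∉ P j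

/-- `V(n)`: the largest number of pairwise edge-disjoint open oriented paths from `S` to `T`. -/
noncomputable def V (n : ℕ) (ω : Conf) : ℕ := sSup {k | HasFlow n ω k}

/-- The law of the configuration: the edges are independent, each one is open with probability `p`
and closed with probability `1 - p`. -/
noncomputable def law (p : unitInterval) : MeasureTheory.Measure Conf :=
  MeasureTheory.Measure.infinitePi
    (fun _ : Edge => (ProbabilityTheory.bernoulliMeasure true false p : MeasureTheory.Measure Bool))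

end Pool.Agent.R962.FN
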