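import Pool.Agent.R962.FN.Prob

/-!
# Superadditivity of the gain and convergence in mean of `KK m / m`
-/

set_option autoImplicit false

namespace Pool.Agent.R962.FN

open Finset MeasureTheory ProbabilityTheory Filter Topology

/-- Translated edge. -/
def shE (x y : ℕ) (e : Edge) : Edge := ((e.1.1 + x, e.1.2 + y), e.2)

/-- Translated configuration. -/
def sh (x y : ℕ) (ω : Conf) : Conf := fun e => ω (shE x y e)

theorem sh_sh (x y x' y' : ℕ) (ω : Conf) : sh x y (sh x' y' ω) = sh (x + x') (y + y') ω := by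
  funext e
  unfold sh shE
  simp only
  rw [add_assoc, add_assoc]

theorem shE_inj (x y : ℕ) : Function.Injective (shE x y) := by
  rintro ⟨⟨a, b⟩, t⟩ ⟨⟨c, d⟩, u⟩ h
  simp only [shE, Prod.mk.injEq] at h
  obtain ⟨⟨h1, h2⟩, h3⟩ := h
  have : a = c := by omega
  have : b = d := by omega
  subst h3
  simp_all

theorem sh_law (p : unitInterval) (x y : ℕ) : MeasurePreserving (sh x y) (law p) (law p) := by
  refine ⟨measurable_pi_lambda _ (fun e => measurable_pi_apply _), ?_⟩
  exact Measure.map_infinitePi_infinitePi_of_inj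
    (P := fun _ : Edge => (bernoulliMeasure true false p : Measure Bool)) (shE_inj x y)

theorem cost_shift (x y : ℕ) (Z : ℤ × ℤ) (L : List Edge) : ∀ c : ℤ × ℤ,
    cost (Z.1 + x, Z.2 - y) (c.1 + x, c.2 - y) (L.map (shE x y)) = cost Z c L := by
  induction L with
  | nil =>
    intro c
    simp only [List.map_nil, cost, back]
    omega
  | cons e L ih =>
    intro c
    simp only [List.map_cons, cost]
    have e1 : tc (shE x y e) = ((tc e).1 + x, (tc e).2 - y) := by
      unfold tc shE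
      simp only
      split_ifs
      · simp only [Prod.mk.injEq]; push_cast; constructor <;> ring
      · simp only [Prod.mk.injEq]; push_cast; constructor <;> ring
    have e2 : sc (shE x y e) = ((sc e).1 + x, (sc e).2 - y) := by
      unfold sc shE
      simp only
      split_ifs
      · simp only [Prod.mk.injEq]; push_cast; constructor <;> ring
      · simp only [Prod.mk.injEq]; push_cast; constructor <;> ring
    rw [e1, ih (tc e), e2]
    congr 1
    unfold back
    simp only
    omega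

theorem cost_app (Z Z1 : ℤ × ℤ) (L2 L1 : List Edge) : ∀ c : ℤ × ℤ,
    cost Z c (L1 ++ L2) ≤ cost Z1 c L1 + cost Z Z1 L2 := by
  induction L1 with
  | nil =>
    intro c
    simp only [List.nil_append]
    exact cost_tri Z c Z1 L2
  | cons e L1 ih =>
    intro c
    simp only [List.cons_append, cost]
    have := ih (tc e)
    omega

theorem KK_add (m1 m2 : ℕ) (ω : Conf) :
    KK m1 (sh 0 m2 ω) + KK m2 (sh m1 0 ω) ≤ KK (m1 + m2) ω := by
  obtain ⟨L1, _, h1, g1⟩ := KK_list m1 (sh 0 m2 ω)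
  obtain ⟨L2, _, h2, g2⟩ := KK_list m2 (sh m1 0 ω)
  have h3 : ∀ e ∈ L1.map (shE 0 m2) ++ L2.map (shE m1 0), Inner (m1 + m2) e ∧ ω e = false := by
    intro e he
    rw [List.mem_append, List.mem_map, List.mem_map] at he
    rcases he with ⟨f, hf, rfl⟩ | ⟨f, hf, rfl⟩
    · obtain ⟨hi, hc⟩ := h1 f hf
      refine ⟨?_, hc⟩
      rcases hi with ⟨a, b, c, d⟩ | ⟨a, b, c, d⟩
      · left
        refine ⟨a, ?_, ?_, ?_⟩ <;> simp only [shE] <;> omega
      · right
        refine ⟨a, ?_, ?_, ?_⟩ <;> simp only [shE] <;> omega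
    · obtain ⟨hi, hc⟩ := h2 f hf
      refine ⟨?_, hc⟩
      rcases hi with ⟨a, b, c, d⟩ | ⟨a, b, c, d⟩
      · left
        refine ⟨a, ?_, ?_, ?_⟩ <;> simp only [shE] <;> omega
      · right
        refine ⟨a, ?_, ?_, ?_⟩ <;> simp only [shE] <;> omega
  have h4 := hh_ge (c := (0, -((m1 + m2 : ℕ) : ℤ))) h3
  have h5 := cost_app (((m1 + m2 : ℕ) : ℤ), 0) ((m1 : ℤ), -(m2 : ℤ)) (L2.map (shE m1 0))
    (L1.map (shE 0 m2)) (0, -((m1 + m2 : ℕ) : ℤ))
  have h6 := cost_shift 0 m2 ((m1 : ℤ), 0) L1 (0, -(m1 : ℤ))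
  have h7 := cost_shift m1 0 ((m2 : ℤ), 0) L2 (0, -(m2 : ℤ))
  have e6 : (((m1 : ℤ), (0 : ℤ)).1 + ((0 : ℕ) : ℤ), ((m1 : ℤ), (0 : ℤ)).2 - (m2 : ℤ)) =
      ((m1 : ℤ), -(m2 : ℤ)) := by simp
  have e6' : (((0 : ℤ), -(m1 : ℤ)).1 + ((0 : ℕ) : ℤ), ((0 : ℤ), -(m1 : ℤ)).2 - (m2 : ℤ)) =
      (0, -((m1 + m2 : ℕ) : ℤ)) := Prod.ext (by simp) (by simp only; push_cast; ring)
  have e7 : (((m2 : ℤ), (0 : ℤ)).1 + (m1 : ℤ), ((m2 : ℤ), (0 : ℤ)).2 - ((0 : ℕ) : ℤ)) =
      (((m1 + m2 : ℕ) : ℤ), 0) := Prod.ext (by simp only; push_cast; ring) (by simp)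
  have e7' : (((0 : ℤ), -(m2 : ℤ)).1 + (m1 : ℤ), ((0 : ℤ), -(m2 : ℤ)).2 - ((0 : ℕ) : ℤ)) =
      ((m1 : ℤ), -(m2 : ℤ)) := by simp
  rw [e6, e6'] at h6
  rw [e7, e7'] at h7
  rw [h6, h7] at h5
  rw [g1, g2]
  unfold KK
  refine le_trans ?_ h4
  simp only [List.length_append, List.length_map]
  push_cast at h5 ⊢
  have h5' : (cost ((m1 : ℤ) + (m2 : ℤ), 0) (0, -((m1 : ℤ) + (m2 : ℤ)))
    (L1.map (shE 0 m2) ++ L2.map (shE m1 0)) : ℤ) ≤ cost ((m1 : ℤ), 0) (0, -(m1 : ℤ)) L1 +
      cost ((m2 : ℤ), 0) (0, -(m2 : ℤ)) L2 := by exact_mod_cast h5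
  linarith

theorem KK_super (m r k : ℕ) : ∀ ω : Conf,
    ∑ i ∈ Finset.range k, KK m (sh (i * m) ((k - 1 - i) * m + r) ω) ≤ KK (k * m + r) ω := by
  induction k with
  | zero =>
    intro ω
    simp only [Finset.range_zero, Finset.sum_empty]
    exact KK_nonneg _ ω
  | succ k ih =>
    intro ω
    rw [Finset.sum_range_succ']
    have h1 := KK_add m (k * m + r) ω
    have h2 := ih (sh m 0 ω)
    have e1 : m + (k * m + r) = (k + 1) * m + r := by ring
    rw [e1] at h1
    have e2 : ∑ i ∈ Finset.range k, KK m (sh (i * m) ((k - 1 - i) * m + r) (sh m 0 ω)) =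
        ∑ i ∈ Finset.range k, KK m (sh ((i + 1) * m) ((k + 1 - 1 - (i + 1)) * m + r) ω) := by
      apply Finset.sum_congr rfl
      intro i _
      have e4 : k + 1 - 1 - (i + 1) = k - 1 - i := by omega
      have e5 : i * m + m = (i + 1) * m := by ring
      rw [sh_sh, e4, e5, add_zero]
    rw [e2] at h2
    have e3 : sh (0 * m) ((k + 1 - 1 - 0) * m + r) ω = sh 0 (k * m + r) ω := by
      congr 1
      ring
    rw [e3]
    linarith

/-- Functions of disjoint finite sets of coordinates are independent. -/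
theorem indep_fin (p : unitInterval) (f g : Conf → ℝ) (S T : Finset Edge) (hST : Disjoint S T)
    (hf : ∀ ω ω' : Conf, (∀ e ∈ S, ω e = ω' e) → f ω = f ω')
    (hg : ∀ ω ω' : Conf, (∀ e ∈ T, ω e = ω' e) → g ω = g ω') : IndepFun f g (law p) := by
  classical
  have h1 : iIndepFun (fun (e : Edge) (ω : Conf) => ω e) (law p) :=
    iIndepFun_infinitePi (P := fun _ : Edge => (bernoulliMeasure true false p : Measure Bool))
      (X := fun _ b => b) (fun _ => measurable_id)
  have h2 := h1.indepFun_finset S T hST (fun e => measurable_pi_apply e)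
  let extS : (S → Bool) → Conf := fun x e => if he : e ∈ S then x ⟨e, he⟩ else false
  let extT : (T → Bool) → Conf := fun x e => if he : e ∈ T then x ⟨e, he⟩ else false
  have h3 := h2.comp (φ := fun x => f (extS x)) (ψ := fun x => g (extT x))
    (measurable_of_countable _) (measurable_of_countable _)
  have e1 : (fun x => f (extS x)) ∘ (fun (ω : Conf) (i : S) => ω i) = f := by
    funext ω
    simp only [Function.comp]
    apply hf
    intro e he
    simp only [extS, he, dif_pos]
  have e2 : (fun x => g (extT x)) ∘ (fun (ω : Conf) (i : T) => ω i) = g := by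
    funext ω
    simp only [Function.comp]
    apply hg
    intro e he
    simp only [extT, he, dif_pos]
  rw [e1, e2] at h3
  exact h3

open Classical in
/-- Inner edges as a finite set. -/
noncomputable def inF (m : ℕ) : Finset Edge := (boxF (m + 1)).filter (fun e => Inner m e)

theorem mem_inF {m : ℕ} {e : Edge} : e ∈ inF m ↔ Inner m e := by
  classical
  unfold inF
  rw [Finset.mem_filter]
  exact ⟨fun h => h.2, fun h => ⟨Inner_mem h, h⟩⟩

/-- The gains of the blocks are independent. -/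
theorem blocks_indep (p : unitInterval) (m r k : ℕ) {i j : ℕ} (hi : i < k) (hj : j < k)
    (hij : i < j) :
    IndepFun (fun ω => (KK m (sh (i * m) ((k - 1 - i) * m + r) ω) : ℝ))
      (fun ω => (KK m (sh (j * m) ((k - 1 - j) * m + r) ω) : ℝ)) (law p) := by
  classical
  apply indep_fin p _ _ ((inF m).image (shE (i * m) ((k - 1 - i) * m + r)))
    ((inF m).image (shE (j * m) ((k - 1 - j) * m + r)))
  · rw [Finset.disjoint_left]
    intro e h1 h2
    rw [Finset.mem_image] at h1 h2
    obtain ⟨f, hf, rfl⟩ := h1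
    obtain ⟨g, hg, hfg⟩ := h2
    rw [mem_inF] at hf hg
    simp only [shE, Prod.mk.injEq] at hfg
    obtain ⟨⟨e1, e2⟩, e3⟩ := hfg
    have hx : i * m + m ≤ j * m := by
      have : (i + 1) * m ≤ j * m := Nat.mul_le_mul_right m hij
      linarith
    have hy : (k - 1 - j) * m + m ≤ (k - 1 - i) * m := by
      have : (k - 1 - j + 1) * m ≤ (k - 1 - i) * m := Nat.mul_le_mul_right m (by omega)
      linarith
    rcases hf with ⟨a1, a2, a3, a4⟩ | ⟨a1, a2, a3, a4⟩
    · rcases hg with ⟨b1, b2, b3, b4⟩ | ⟨b1, b2, b3, b4⟩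
      · omega
      · rw [a1, b1] at e3; cases e3
    · rcases hg with ⟨b1, b2, b3, b4⟩ | ⟨b1, b2, b3, b4⟩
      · rw [a1, b1] at e3; cases e3
      · omega
  · intro ω ω' h
    congr 1
    apply KK_congr
    intro e he
    exact h _ (Finset.mem_image_of_mem _ (mem_inF.2 he))
  · intro ω ω' h
    congr 1
    apply KK_congr
    intro e he
    exact h _ (Finset.mem_image_of_mem _ (mem_inF.2 he))

/-- Mean gain. -/
noncomputable def mg (p : unitInterval) (m : ℕ) : ℝ := ∫ ω, (KK m ω : ℝ) ∂(law p)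

theorem KKr_nonneg (m : ℕ) (ω : Conf) : (0 : ℝ) ≤ KK m ω := by exact_mod_cast KK_nonneg m ω

theorem KKr_le (m : ℕ) (ω : Conf) : (KK m ω : ℝ) ≤ 2 * m := by exact_mod_cast KK_le m ω

theorem KKr_meas (m : ℕ) : Measurable (fun ω => (KK m ω : ℝ)) :=
  (measurable_of_countable (fun k : ℤ => (k : ℝ))).comp (KK_meas m)

theorem KK_int (p : unitInterval) (m : ℕ) : Integrable (fun ω => (KK m ω : ℝ)) (law p) := by
  refine Integrable.of_bound (KKr_meas m).aestronglyMeasurable (2 * m)
    (Eventually.of_forall fun ω => ?_)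
  rw [Real.norm_of_nonneg (KKr_nonneg m ω)]
  exact KKr_le m ω

theorem mg_nonneg (p : unitInterval) (m : ℕ) : 0 ≤ mg p m :=
  integral_nonneg (fun ω => KKr_nonneg m ω)

theorem mg_le (p : unitInterval) (m : ℕ) : mg p m ≤ 2 * m := by
  unfold mg
  calc ∫ ω, (KK m ω : ℝ) ∂(law p) ≤ ∫ _, (2 * m : ℝ) ∂(law p) :=
        integral_mono (KK_int p m) (integrable_const _) (fun ω => KKr_le m ω)
    _ = 2 * m := by simp

/-- Chebyshev for the blocks. -/
theorem blocks_cheb (p : unitInterval) (m r k : ℕ) (t : ℝ) (ht : 0 < t) :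
    (law p).real {ω | t ≤ |∑ i ∈ Finset.range k,
      (KK m (sh (i * m) ((k - 1 - i) * m + r) ω) : ℝ) - k * mg p m|} ≤
      k * (2 * m) ^ 2 / t ^ 2 := by
  classical
  set Y : ℕ → Conf → ℝ := fun i ω => (KK m (sh (i * m) ((k - 1 - i) * m + r) ω) : ℝ) with hY
  have hmeas : ∀ i, Measurable (Y i) := fun i => (KKr_meas m).comp (sh_law p _ _).measurable
  have hmem : ∀ i, MemLp (Y i) 2 (law p) := by
    intro i
    refine MemLp.of_bound (hmeas i).aestronglyMeasurable (2 * m) (Eventually.of_forall fun ω => ?_)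
    rw [Real.norm_of_nonneg (KKr_nonneg m _)]
    exact KKr_le m _
  have hmean : ∀ i, ∫ ω, Y i ω ∂(law p) = mg p m := by
    intro i
    unfold mg
    rw [← (sh_law p (i * m) ((k - 1 - i) * m + r)).map_eq]
    rw [integral_map (sh_law p _ _).measurable.aemeasurable
      ((KKr_meas m).aestronglyMeasurable)]
    rw [(sh_law p (i * m) ((k - 1 - i) * m + r)).map_eq]
  have hvar : ∀ i, variance (Y i) (law p) ≤ (2 * m) ^ 2 := by
    intro i
    refine (variance_le_expectation_sq (hmeas i).aestronglyMeasurable).trans ?_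
    calc ∫ ω, (Y i ^ 2) ω ∂(law p) ≤ ∫ _, ((2 * m) ^ 2 : ℝ) ∂(law p) := by
          apply integral_mono (hmem i).integrable_sq (integrable_const _)
          intro ω
          simp only
          exact pow_le_pow_left₀ (KKr_nonneg m _) (KKr_le m _) 2
      _ = (2 * m) ^ 2 := by simp
  have hpair : Set.Pairwise (↑(Finset.range k) : Set ℕ) fun i j => IndepFun (Y i) (Y j) (law p) := by
    intro i hi j hj hij
    rw [Finset.mem_coe, Finset.mem_range] at hi hj
    rcases lt_or_gt_of_ne hij with h | h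
    · exact blocks_indep p m r k hi hj h
    · exact (blocks_indep p m r k hj hi h).symm
  have hsumvar := IndepFun.variance_sum (fun i _ => hmem i) hpair
  have hsmem : MemLp (∑ i ∈ Finset.range k, Y i) 2 (law p) :=
    memLp_finsetSum' _ (fun i _ => hmem i)
  have hsmean : ∫ ω, (∑ i ∈ Finset.range k, Y i) ω ∂(law p) = k * mg p m := by
    simp only [Finset.sum_apply]
    rw [integral_finsetSum _ (fun i _ => (hmem i).integrable (by norm_num))]
    simp only [hmean, Finset.sum_const, Finset.card_range, nsmul_eq_mul]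
  have hc := meas_ge_le_variance_div_sq hsmem ht
  rw [hsmean, hsumvar] at hc
  have hv : ∑ i ∈ Finset.range k, variance (Y i) (law p) ≤ k * (2 * m) ^ 2 := by
    calc ∑ i ∈ Finset.range k, variance (Y i) (law p) ≤ ∑ i ∈ Finset.range k, ((2 * m) ^ 2 : ℝ) :=
          Finset.sum_le_sum (fun i _ => hvar i)
      _ = k * (2 * m) ^ 2 := by simp
  have hset : {ω | t ≤ |∑ i ∈ Finset.range k, Y i ω - k * mg p m|} =
      {ω | t ≤ |(∑ i ∈ Finset.range k, Y i) ω - k * mg p m|} := by
    ext ω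
    simp only [Finset.sum_apply]
  show (law p).real {ω | t ≤ |∑ i ∈ Finset.range k, Y i ω - k * mg p m|} ≤ _
  rw [hset]
  unfold Measure.real
  apply ENNReal.toReal_le_of_le_ofReal (by positivity)
  refine hc.trans (ENNReal.ofReal_le_ofReal ?_)
  gcongr

theorem prob_lower (p : unitInterval) (m : ℕ) (hm : 1 ≤ m) (ε : ℝ) (hε : 0 < ε) :
    Tendsto (fun n : ℕ => (law p).real {ω | (KK n ω : ℝ) < (mg p m / m - ε) * n}) atTop (𝓝 0) := by
  have hlarge : ∀ᶠ n : ℕ in atTop, 2 * mg p m / ε ≤ (n : ℝ) :=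
    tendsto_natCast_atTop_atTop.eventually_ge_atTop _
  have hlim : Tendsto (fun n : ℕ => (16 * m / ε ^ 2) / (n : ℝ)) atTop (𝓝 0) :=
    tendsto_const_div_atTop_nhds_zero_nat _
  refine squeeze_zero' (Eventually.of_forall fun _ => measureReal_nonneg) ?_ hlim
  filter_upwards [hlarge, eventually_ge_atTop 1] with n hn hn1
  have hm0 : (0 : ℝ) < m := by exact_mod_cast hm
  have hn0 : (0 : ℝ) < n := by exact_mod_cast hn1
  set k := n / m with hk
  set r := n % m with hr
  have hnk : k * m + r = n := Nat.div_add_mod' n m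
  have hrm : r < m := Nat.mod_lt _ hm
  have hnk' : (k : ℝ) * m + r = n := by exact_mod_cast hnk
  have hr0 : (0 : ℝ) ≤ r := Nat.cast_nonneg _
  have hrm' : (r : ℝ) < m := by exact_mod_cast hrm
  have hg0 := mg_nonneg p m
  have hc := blocks_cheb p m r k (ε / 2 * n) (by positivity)
  have hincl : {ω | (KK n ω : ℝ) < (mg p m / m - ε) * n} ⊆
      {ω | ε / 2 * n ≤ |∑ i ∈ Finset.range k,
      (KK m (sh (i * m) ((k - 1 - i) * m + r) ω) : ℝ) - k * mg p m|} := by
    intro ω hω
    simp only [Set.mem_ofPred_eq] at hω ⊢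
    have h1 := KK_super m r k ω
    rw [hnk] at h1
    have h2 : ∑ i ∈ Finset.range k, (KK m (sh (i * m) ((k - 1 - i) * m + r) ω) : ℝ) ≤
        (KK n ω : ℝ) := by exact_mod_cast h1
    rw [div_le_iff₀ hε] at hn
    have h3 : (mg p m / m) * n ≤ k * mg p m + mg p m := by
      rw [div_mul_eq_mul_div, div_le_iff₀ hm0]
      have : mg p m * n = mg p m * (k * m) + mg p m * r := by rw [← hnk']; ring
      rw [this]
      have : mg p m * r ≤ mg p m * m := mul_le_mul_of_nonneg_left hrm'.le hg0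
      nlinarith
    rw [le_abs]
    right
    nlinarith
  refine (measureReal_mono hincl (measure_ne_top _ _)).trans (hc.trans ?_)
  rw [div_le_div_iff₀ (by positivity) hn0]
  have hkm : (k : ℝ) * m ≤ n := by linarith
  have e1 : 16 * (m : ℝ) / ε ^ 2 * (ε / 2 * n) ^ 2 = 4 * m * n ^ 2 := by
    field_simp
    ring
  rw [e1]
  have h5 : (k : ℝ) * m * (4 * m * n) ≤ n * (4 * m * n) :=
    mul_le_mul_of_nonneg_right hkm (by positivity)
  nlinarith

/-- The limit of `KK m / m`. -/
noncomputable def kap (p : unitInterval) : ℝ := ⨆ m : ℕ, mg p (m + 1) / ((m + 1 : ℕ) : ℝ)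

theorem kap_bdd (p : unitInterval) :
    BddAbove (Set.range fun m : ℕ => mg p (m + 1) / ((m + 1 : ℕ) : ℝ)) := by
  refine ⟨2, ?_⟩
  rintro x ⟨m, rfl⟩
  simp only
  rw [div_le_iff₀ (by positivity)]
  exact mg_le p (m + 1)

theorem le_kap (p : unitInterval) {n : ℕ} (hn : 1 ≤ n) : mg p n / n ≤ kap p := by
  obtain ⟨m, rfl⟩ : ∃ m, n = m + 1 := ⟨n - 1, by omega⟩
  exact le_ciSup (kap_bdd p) m

theorem kap_le (p : unitInterval) : kap p ≤ 2 := by
  apply ciSup_le
  intro m
  rw [div_le_iff₀ (by positivity)]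
  exact mg_le p (m + 1)

theorem kap_nonneg (p : unitInterval) : 0 ≤ kap p :=
  (div_nonneg (mg_nonneg p 1) (Nat.cast_nonneg 1)).trans (le_kap p le_rfl)

/-- Convergence in mean of the gain. -/
theorem KK_L1 (p : unitInterval) :
    Tendsto (fun n : ℕ => ∫ ω, |(KK n ω : ℝ) / n - kap p| ∂(law p)) atTop (𝓝 0) := by
  rw [Metric.tendsto_atTop]
  intro η hη
  have hlt : kap p - η / 16 < kap p := by linarith
  obtain ⟨m, hm⟩ := exists_lt_of_lt_ciSup hlt
  have hp := prob_lower p (m + 1) (by omega) (η / 16) (by positivity)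
  have hp2 := (Metric.tendsto_atTop.1 hp) (η / 16) (by positivity)
  obtain ⟨N, hN⟩ := hp2
  refine ⟨max N 1, fun n hn => ?_⟩
  have hn1 : 1 ≤ n := (le_max_right _ _).trans hn
  have hn0 : (0 : ℝ) < n := by exact_mod_cast hn1
  have h1 := hN n ((le_max_left _ _).trans hn)
  rw [Real.dist_eq, sub_zero, abs_of_nonneg measureReal_nonneg] at h1
  rw [Real.dist_eq, sub_zero, abs_of_nonneg (integral_nonneg fun _ => abs_nonneg _)]
  set B : Set Conf := {ω | (KK n ω : ℝ) < (mg p (m + 1) / ((m + 1 : ℕ) : ℝ) - η / 16) * n} with hB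
  have hBm : MeasurableSet B := measurableSet_lt (KKr_meas n) measurable_const
  have hpt : ∀ ω, |(KK n ω : ℝ) / n - kap p| ≤
      ((KK n ω : ℝ) / n - kap p) + (η / 4 + B.indicator (fun _ => (4 : ℝ)) ω) := by
    intro ω
    have hx0 : 0 ≤ (KK n ω : ℝ) / n := div_nonneg (KKr_nonneg n ω) hn0.le
    have hk2 := kap_le p
    by_cases hω : ω ∈ B
    · rw [Set.indicator_of_mem hω]
      rw [abs_le]
      constructor <;> linarith
    · rw [Set.indicator_of_notMem hω]
      rw [hB, Set.mem_ofPred_eq, not_lt] at hω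
      have h2 : mg p (m + 1) / ((m + 1 : ℕ) : ℝ) - η / 16 ≤ (KK n ω : ℝ) / n := by
        rw [le_div_iff₀ hn0]; exact hω
      have h3 : kap p - η / 8 ≤ (KK n ω : ℝ) / n := by linarith
      rw [abs_le]
      constructor <;> linarith
  have hint1 : Integrable (fun ω => (KK n ω : ℝ) / n - kap p) (law p) :=
    ((KK_int p n).div_const _).sub (integrable_const _)
  have hint2 : Integrable (fun ω => η / 4 + B.indicator (fun _ => (4 : ℝ)) ω) (law p) :=
    (integrable_const _).add ((integrable_const _).indicator hBm)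
  calc ∫ ω, |(KK n ω : ℝ) / n - kap p| ∂(law p)
      ≤ ∫ ω, (((KK n ω : ℝ) / n - kap p) + (η / 4 + B.indicator (fun _ => (4 : ℝ)) ω)) ∂(law p) :=
        integral_mono hint1.abs (hint1.add hint2) hpt
    _ = (mg p n / n - kap p) + (η / 4 + 4 * (law p).real B) := by
        rw [integral_add hint1 hint2, integral_sub ((KK_int p n).div_const _) (integrable_const _),
          integral_add (integrable_const _) ((integrable_const _).indicator hBm),
          integral_indicator hBm, integral_div]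
        simp only [integral_const, probReal_univ, smul_eq_mul, MeasurableSet.univ,
          measureReal_restrict_apply, Set.univ_inter]
        unfold mg
        ring
    _ ≤ 0 + (η / 4 + 4 * (η / 16)) := by
        have := le_kap p hn1
        linarith
    _ < η := by linarith

end Pool.Agent.R962.FN
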