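import Pool.Agent.R962.FN.Gain
import Pool.Agent.R962.FN.Exist

/-!
# The asymptotics of `v p` near `p = 1`
-/

set_option autoImplicit false

namespace Pool.Agent.R962.FN

open MeasureTheory ProbabilityTheory Filter Topology
open Pool.Agent.W533.LP

theorem V_greatest {n : ℕ} (hn : 2 ≤ n) (ω : Conf) : IsGreatest {k | HasFlow n ω k} (V n ω) := by
  obtain ⟨m, rfl⟩ : ∃ m, n = m + 2 := ⟨n - 2, by omega⟩
  have hbdd : BddAbove {k | HasFlow (m + 2) ω k} := by
    refine ⟨2 * m + 2, ?_⟩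
    intro k hk
    have h := weak hk [] (by simp)
    have e1 : cost ((m : ℤ), 0) (0, -(m : ℤ)) [] = 0 := by
      unfold cost back; simp
    rw [e1] at h
    simp only [List.length_nil] at h
    push_cast at h
    omega
  obtain ⟨k, L, h1, _⟩ := strong m ω
  exact ⟨Nat.sSup_mem ⟨k, h1⟩ hbdd, fun k hk => le_csSup hbdd hk⟩

theorem V_dist (p : unitInterval) {m : ℕ} (hm : 1 ≤ m) (ω : Conf) :
    |(V (m + 2) ω : ℝ) / (2 * ((m + 2 : ℕ) : ℝ)) - (1 - kap p / 2)| ≤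
      3 / (m : ℝ) + |(KK m ω : ℝ) / m - kap p| := by
  obtain ⟨h1, h2⟩ := V_KK m ω
  have h1' : 2 * (m : ℝ) - KK m ω ≤ V (m + 2) ω := by exact_mod_cast h1
  have h2' : (V (m + 2) ω : ℝ) ≤ 2 * m + 2 - KK m ω := by exact_mod_cast h2
  have hm0 : (0 : ℝ) < m := by exact_mod_cast hm
  have hk0 := kap_nonneg p
  have hk2 := kap_le p
  set n : ℝ := ((m + 2 : ℕ) : ℝ) with hn
  have hn' : n = m + 2 := by rw [hn]; push_cast; ring
  have hn0 : 0 < n := by rw [hn']; positivity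
  have e1 : (V (m + 2) ω : ℝ) / (2 * n) - (1 - kap p / 2) =
      ((V (m + 2) ω : ℝ) - 2 * n + kap p * n) / (2 * n) := by
    field_simp
    ring
  have e2 : (KK m ω : ℝ) = m * ((KK m ω : ℝ) / m - kap p) + kap p * m := by
    field_simp
    ring
  set D : ℝ := (KK m ω : ℝ) / m - kap p with hD
  rw [e1, abs_div, abs_of_pos (by positivity : 0 < 2 * n), div_le_iff₀ (by positivity)]
  have h3 : |(V (m + 2) ω : ℝ) - 2 * n + kap p * n| ≤ 6 + m * |D| := by
    have hD1 : m * D ≤ m * |D| := mul_le_mul_of_nonneg_left (le_abs_self D) hm0.le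
    have hD2 : -(m * |D|) ≤ m * D := by
      rw [← mul_neg]
      exact mul_le_mul_of_nonneg_left (neg_abs_le D) hm0.le
    rw [abs_le, hn']
    rw [e2] at h1' h2'
    constructor <;> nlinarith
  have h4 : 6 ≤ 3 / (m : ℝ) * (2 * n) := by
    rw [hn', div_mul_eq_mul_div, le_div_iff₀ hm0]
    nlinarith
  have h5 : m * |D| ≤ |D| * (2 * n) := by
    rw [hn']
    nlinarith [abs_nonneg D]
  rw [add_mul]
  linarith

theorem Vr_meas (n : ℕ) : Measurable (fun ω => (V n ω : ℝ)) :=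
  (measurable_of_countable (fun k : ℕ => (k : ℝ))).comp (V_meas n)

theorem V_bdd {n : ℕ} (ω : Conf) : (V n ω : ℝ) ≤ 2 * n + (V 0 ω + V 1 ω : ℕ) := by
  rcases Nat.lt_or_ge n 2 with h | h
  · have : n = 0 ∨ n = 1 := by omega
    rcases this with rfl | rfl
    · push_cast
      have : (0 : ℝ) ≤ V 1 ω := Nat.cast_nonneg _
      linarith
    · push_cast
      have : (0 : ℝ) ≤ V 0 ω := Nat.cast_nonneg _
      linarith
  · obtain ⟨m, rfl⟩ : ∃ m, n = m + 2 := ⟨n - 2, by omega⟩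
    obtain ⟨h1, h2⟩ := V_KK m ω
    have h3 := KK_nonneg m ω
    have h2' : (V (m + 2) ω : ℝ) ≤ 2 * m + 2 - KK m ω := by exact_mod_cast h2
    have h3' : (0 : ℝ) ≤ KK m ω := by exact_mod_cast h3
    have : (0 : ℝ) ≤ ((V 0 ω + V 1 ω : ℕ) : ℝ) := Nat.cast_nonneg _
    push_cast at this ⊢
    linarith

theorem V_int (p : unitInterval) (m : ℕ) : Integrable (fun ω => (V (m + 2) ω : ℝ)) (law p) := by
  refine Integrable.of_bound (Vr_meas (m + 2)).aestronglyMeasurable (2 * m + 2)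
    (Eventually.of_forall fun ω => ?_)
  rw [Real.norm_of_nonneg (Nat.cast_nonneg _)]
  obtain ⟨h1, h2⟩ := V_KK m ω
  have h3 := KK_nonneg m ω
  have h2' : (V (m + 2) ω : ℝ) ≤ 2 * m + 2 - KK m ω := by exact_mod_cast h2
  have h3' : (0 : ℝ) ≤ KK m ω := by exact_mod_cast h3
  linarith

/-- Existence of the limit in mean. -/
theorem V_L1 (p : unitInterval) : Tendsto (fun n : ℕ =>
    ∫ ω, |(V n ω : ℝ) / (2 * (n : ℝ)) - (1 - kap p / 2)| ∂(law p)) atTop (𝓝 0) := by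
  rw [← tendsto_add_atTop_iff_nat 2]
  have h1 : Tendsto (fun m : ℕ => 3 / (m : ℝ) + ∫ ω, |(KK m ω : ℝ) / m - kap p| ∂(law p)) atTop
      (𝓝 0) := by
    have := (tendsto_const_div_atTop_nhds_zero_nat (3 : ℝ)).add (KK_L1 p)
    rwa [add_zero] at this
  refine squeeze_zero' (Eventually.of_forall fun _ => integral_nonneg fun _ => abs_nonneg _) ?_ h1
  filter_upwards [eventually_ge_atTop 1] with m hm
  have hint1 : Integrable (fun ω => |(V (m + 2) ω : ℝ) / (2 * ((m + 2 : ℕ) : ℝ)) -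
      (1 - kap p / 2)|) (law p) :=
    (((V_int p m).div_const _).sub (integrable_const _)).abs
  have hint2 : Integrable (fun ω => |(KK m ω : ℝ) / m - kap p|) (law p) :=
    (((KK_int p m).div_const _).sub (integrable_const _)).abs
  calc ∫ ω, |(V (m + 2) ω : ℝ) / (2 * ((m + 2 : ℕ) : ℝ)) - (1 - kap p / 2)| ∂(law p)
      ≤ ∫ ω, (3 / (m : ℝ) + |(KK m ω : ℝ) / m - kap p|) ∂(law p) :=
        integral_mono hint1 ((integrable_const _).add hint2) (fun ω => V_dist p hm ω)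
    _ = 3 / (m : ℝ) + ∫ ω, |(KK m ω : ℝ) / m - kap p| ∂(law p) := by
        rw [integral_add (integrable_const _) hint2]
        simp

/-- The limit in mean is unique. -/
theorem V_L1_unique (p : unitInterval) (x : ℝ) (h : Tendsto (fun n : ℕ =>
    ∫ ω, |(V n ω : ℝ) / (2 * (n : ℝ)) - x| ∂(law p)) atTop (𝓝 0)) : x = 1 - kap p / 2 := by
  have h2 := h.add (V_L1 p)
  rw [add_zero] at h2
  have h3 : ∀ m : ℕ, |x - (1 - kap p / 2)| ≤
      ∫ ω, |(V (m + 2) ω : ℝ) / (2 * ((m + 2 : ℕ) : ℝ)) - x| ∂(law p) +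
      ∫ ω, |(V (m + 2) ω : ℝ) / (2 * ((m + 2 : ℕ) : ℝ)) - (1 - kap p / 2)| ∂(law p) := by
    intro m
    have i1 : Integrable (fun ω => |(V (m + 2) ω : ℝ) / (2 * ((m + 2 : ℕ) : ℝ)) - x|) (law p) :=
      (((V_int p m).div_const _).sub (integrable_const _)).abs
    have i2 : Integrable (fun ω => |(V (m + 2) ω : ℝ) / (2 * ((m + 2 : ℕ) : ℝ)) -
        (1 - kap p / 2)|) (law p) :=
      (((V_int p m).div_const _).sub (integrable_const _)).abs
    rw [← integral_add i1 i2]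
    calc |x - (1 - kap p / 2)| = ∫ _, |x - (1 - kap p / 2)| ∂(law p) := by simp
      _ ≤ _ := by
        apply integral_mono (integrable_const _) (i1.add i2)
        intro ω
        simp only [Pi.add_apply]
        have := abs_sub_le x ((V (m + 2) ω : ℝ) / (2 * ((m + 2 : ℕ) : ℝ))) (1 - kap p / 2)
        rw [abs_sub_comm x ((V (m + 2) ω : ℝ) / (2 * ((m + 2 : ℕ) : ℝ)))] at this
        exact this
  have h4 : Tendsto (fun _ : ℕ => |x - (1 - kap p / 2)|) atTop (𝓝 0) :=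
    squeeze_zero (fun _ => abs_nonneg _) h3 ((tendsto_add_atTop_iff_nat 2).2 h2)
  have h5 := tendsto_nhds_unique h4 tendsto_const_nhds
  have h6 : |x - (1 - kap p / 2)| = 0 := h5.symm
  have := abs_eq_zero.1 h6
  linarith

/-- The constant `kap p` is close to `2 mean s`. -/
theorem kap_near (p : unitInterval) (a b : ℝ)
    (h : Tendsto (fun m : ℕ => (law p).real {ω | b * m ≤ |(KK m ω : ℝ) - a * m|}) atTop (𝓝 0)) :
    |kap p - a| ≤ b := by
  apply le_of_forall_pos_le_add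
  intro ε hε
  have h1 := (KK_L1 p).div_const ε
  rw [zero_div] at h1
  have h2 := h1.add h
  rw [add_zero] at h2
  have h3 : ∀ᶠ m : ℕ in atTop, ((∫ ω, |(KK m ω : ℝ) / m - kap p| ∂(law p)) / ε +
      (law p).real {ω | b * m ≤ |(KK m ω : ℝ) - a * m|}) < 1 :=
    h2.eventually_lt_const one_pos
  obtain ⟨m, hm1, hm2⟩ := (h3.and (eventually_ge_atTop 1)).exists
  have hm0 : (0 : ℝ) < m := by exact_mod_cast hm2
  have hint2 : Integrable (fun ω => |(KK m ω : ℝ) / m - kap p|) (law p) :=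
    (((KK_int p m).div_const _).sub (integrable_const _)).abs
  have hmk : (law p).real {ω | ε ≤ |(KK m ω : ℝ) / m - kap p|} ≤
      (∫ ω, |(KK m ω : ℝ) / m - kap p| ∂(law p)) / ε := by
    rw [le_div_iff₀ hε, mul_comm]
    exact mul_meas_ge_le_integral_of_nonneg (Eventually.of_forall fun _ => abs_nonneg _) hint2 ε
  have hex : ∃ ω, ω ∉ {ω | ε ≤ |(KK m ω : ℝ) / m - kap p|} ∪
      {ω | b * m ≤ |(KK m ω : ℝ) - a * m|} := by
    by_contra hcon
    push Not at hcon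
    have huniv : {ω | ε ≤ |(KK m ω : ℝ) / m - kap p|} ∪
      {ω | b * m ≤ |(KK m ω : ℝ) - a * m|} = Set.univ := Set.eq_univ_of_forall hcon
    have h5 := measureReal_union_le (μ := law p) {ω | ε ≤ |(KK m ω : ℝ) / m - kap p|}
      {ω | b * m ≤ |(KK m ω : ℝ) - a * m|}
    rw [huniv, probReal_univ] at h5
    linarith
  obtain ⟨ω, hω⟩ := hex
  rw [Set.mem_union, not_or] at hω
  obtain ⟨g1, g2⟩ := hω
  simp only [Set.mem_ofPred_eq, not_le] at g1 g2
  have g3 : |(KK m ω : ℝ) / m - a| < b := by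
    have : (KK m ω : ℝ) / m - a = ((KK m ω : ℝ) - a * m) / m := by field_simp
    rw [this, abs_div, abs_of_pos hm0, div_lt_iff₀ hm0]
    exact g2
  have g4 := abs_sub_le (kap p) ((KK m ω : ℝ) / m) a
  rw [abs_sub_comm (kap p) ((KK m ω : ℝ) / m)] at g4
  linarith

theorem mean_near {t s : ℝ} (ht : 0 < t) (ht1 : t ≤ 1 / 128) (hs : 0 < s)
    (hst : s ^ 2 = t ^ 2 * (2 - t ^ 2)) :
    |2 * mean s / (2 * (Real.sqrt 2 * t)) - 1| ≤ 4 * t := by
  have h2 : Real.sqrt 2 ^ 2 = 2 := Real.sq_sqrt (by norm_num)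
  have h20 : 0 < Real.sqrt 2 := Real.sqrt_pos.2 (by norm_num)
  set u := Real.sqrt 2 * t with hu
  have hu0 : 0 < u := by positivity
  have hu2 : u ^ 2 = 2 * t ^ 2 := by rw [hu, mul_pow, h2]
  have hsu : s ≤ u := by
    refine (abs_le_of_sq_le_sq' ?_ hu0.le).2
    rw [hst, hu2]
    nlinarith [sq_nonneg (t ^ 2)]
  have hut : u ≤ 3 / 2 * t := by
    refine (abs_le_of_sq_le_sq' ?_ (by positivity)).2
    rw [hu2]
    nlinarith [sq_nonneg t]
  have hsl : (1 - t) * u ≤ s := by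
    refine (abs_le_of_sq_le_sq' ?_ hs.le).2
    rw [mul_pow, hu2, hst]
    have : (1 - t) ^ 2 * 2 ≤ 2 - t ^ 2 := by nlinarith
    nlinarith [sq_nonneg t]
  have hs1 : s ≤ 1 / 64 := by linarith
  have hs1' : 0 < 1 - s := by linarith
  have e1 : 2 * mean s / (2 * u) = s / (u * (1 - s)) := by
    unfold mean
    field_simp
  rw [e1, abs_le]
  constructor
  · have : 1 - t ≤ s / (u * (1 - s)) := by
      rw [le_div_iff₀ (by positivity)]
      calc (1 - t) * (u * (1 - s)) = (1 - t) * u * (1 - s) := by ring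
        _ ≤ s * (1 - s) := mul_le_mul_of_nonneg_right hsl hs1'.le
        _ ≤ s := by nlinarith
    linarith
  · have : s / (u * (1 - s)) ≤ 1 + 2 * s := by
      rw [div_le_iff₀ (by positivity)]
      have h3 : 1 ≤ (1 + 2 * s) * (1 - s) := by nlinarith
      calc s ≤ u := hsu
        _ = u * 1 := (mul_one u).symm
        _ ≤ u * ((1 + 2 * s) * (1 - s)) := mul_le_mul_of_nonneg_left h3 hu0.le
        _ = (1 + 2 * s) * (u * (1 - s)) := by ring
    linarith

/-- The asymptotics of `kap`. -/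
theorem kap_asymp (ε : ℝ) (hε : 0 < ε) : ∃ t0 : ℝ, 0 < t0 ∧ ∀ p : unitInterval, (p : ℝ) < 1 →
    Real.sqrt (1 - (p : ℝ)) < t0 → |kap p / (2 * Real.sqrt (2 * (1 - (p : ℝ)))) - 1| < ε := by
  obtain ⟨t0, h0, h1, hK⟩ := KK_lln (ε / 6) (by positivity)
  refine ⟨min t0 (ε / 16), by positivity, fun p hp1 hpt => ?_⟩
  have hp0 := p.2.1
  set t := Real.sqrt (1 - (p : ℝ)) with ht
  have ht0 : 0 < t := Real.sqrt_pos.2 (by linarith)
  have htt : t ≤ t0 := (hpt.le).trans (min_le_left _ _)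
  have hte : t < ε / 16 := lt_of_lt_of_le hpt (min_le_right _ _)
  have ht2 : t ^ 2 = 1 - (p : ℝ) := Real.sq_sqrt (by linarith)
  set s := Real.sqrt (1 - (p : ℝ) ^ 2) with hs
  have hpp : (p : ℝ) ^ 2 < 1 := by nlinarith
  have hs0 : 0 < s := Real.sqrt_pos.2 (by linarith)
  have hs2 : s ^ 2 = 1 - (p : ℝ) ^ 2 := Real.sq_sqrt (by linarith)
  have hlim := hK p t s ht0 htt ht2 hs0 hs2
  have hn := kap_near p (2 * mean s) (7 * (ε / 6) * t) hlim
  have hm := mean_near ht0 (by linarith) hs0 (by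
    have : (p : ℝ) = 1 - t ^ 2 := by linarith
    rw [hs2, this]; ring)
  have e0 : Real.sqrt (2 * (1 - (p : ℝ))) = Real.sqrt 2 * t := by
    rw [ht, Real.sqrt_mul (by norm_num)]
  rw [e0]
  have h20 : 0 < Real.sqrt 2 := Real.sqrt_pos.2 (by norm_num)
  have h21 : 7 / 5 ≤ Real.sqrt 2 := by
    rw [Real.le_sqrt' (by norm_num)]; norm_num
  set u := Real.sqrt 2 * t with hu
  have hu0 : 0 < u := by positivity
  have e1 : kap p / (2 * u) - 1 = (kap p - 2 * mean s) / (2 * u) + (2 * mean s / (2 * u) - 1) := by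
    ring
  have e2 : |(kap p - 2 * mean s) / (2 * u)| ≤ 5 / 12 * ε := by
    rw [abs_div, abs_of_pos (by positivity : 0 < 2 * u), div_le_iff₀ (by positivity)]
    refine hn.trans ?_
    have : 7 / 5 * t ≤ u := mul_le_mul_of_nonneg_right h21 ht0.le
    nlinarith
  rw [e1]
  calc |(kap p - 2 * mean s) / (2 * u) + (2 * mean s / (2 * u) - 1)| ≤
      |(kap p - 2 * mean s) / (2 * u)| + |2 * mean s / (2 * u) - 1| := abs_add_le _ _
    _ ≤ 5 / 12 * ε + 4 * t := add_le_add e2 hm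
    _ < ε := by linarith

/-- The asymptotics of the limit. -/
theorem v_asymp (v : ℝ → ℝ) (hv : ∀ p : unitInterval, 0 < (p : ℝ) → (p : ℝ) < 1 →
    Tendsto (fun n : ℕ => ∫ ω, |(V n ω : ℝ) / (2 * (n : ℝ)) - v p| ∂(law p)) atTop (𝓝 0)) :
    Tendsto (fun p : ℝ => (1 - v p) / Real.sqrt (2 * (1 - p))) (𝓝[<] 1) (𝓝 1) := by
  rw [Metric.tendsto_nhdsWithin_nhds]
  intro ε hε
  obtain ⟨t0, h0, hK⟩ := kap_asymp ε hε
  refine ⟨min 1 (t0 ^ 2), by positivity, ?_⟩
  intro p hp hpd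
  rw [Set.mem_Iio] at hp
  rw [Real.dist_eq, abs_sub_comm, abs_of_pos (by linarith)] at hpd
  have hd1 : 1 - p < 1 := lt_of_lt_of_le hpd (min_le_left _ _)
  have hd2 : 1 - p < t0 ^ 2 := lt_of_lt_of_le hpd (min_le_right _ _)
  have hp0 : 0 < p := by linarith
  have hpI : p ∈ unitInterval := ⟨hp0.le, hp.le⟩
  have hvp := V_L1_unique ⟨p, hpI⟩ (v p) (hv ⟨p, hpI⟩ hp0 hp)
  have hk := hK ⟨p, hpI⟩ hp (by
    show Real.sqrt (1 - p) < t0
    rw [Real.sqrt_lt' h0]
    exact hd2)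
  rw [Real.dist_eq, hvp]
  have e1 : (1 - (1 - kap ⟨p, hpI⟩ / 2)) / Real.sqrt (2 * (1 - p)) - 1 =
      kap ⟨p, hpI⟩ / (2 * Real.sqrt (2 * (1 - p))) - 1 := by
    rw [sub_sub_cancel, div_div]
  rw [e1]
  exact hk

end Pool.Agent.R962.FN
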