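import Pool.Agent.R962.FN.Lists

/-!
# First moment bound for lists with many thin steps
-/

set_option autoImplicit false

namespace Pool.Agent.R962.FN

open Finset MeasureTheory

theorem first_moment {Ω : Type} [MeasurableSpace Ω] (μ : Measure Ω) {E : Type} [Fintype E]
    (pos : E → ℤ × ℤ) (hfib : ∀ c, (univ.filter (fun e => pos e = c)).card ≤ 2)
    {m : ℕ} {x0 y0 : ℤ}
    (hbox : ∀ e, x0 ≤ (pos e).1 ∧ (pos e).1 ≤ x0 + m ∧ y0 ≤ (pos e).2 ∧ (pos e).2 ≤ y0 + m)
    (r θ lam : ℝ) (hr : 0 ≤ r) (hθ : 1 ≤ θ) (hlam : 0 < lam)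
    (hQ : r * Real.exp (1 + lam) * (2 * AA θ lam ^ 2) ≤ 1 / 2) (j : ℕ)
    (C : List E → Prop) (Ev : List E → Set Ω)
    (hEv : ∀ L, C L → μ (Ev L) ≤ ENNReal.ofReal (r ^ L.length)) :
    μ {ω | ∃ (e : E) (L : List E), C (e :: L) ∧ ω ∈ Ev (e :: L) ∧ j ≤ th (pos e) (L.map pos) ∧
      bk (pos e) (L.map pos) ≤ (e :: L).length} ≤
    ENNReal.ofReal (Real.exp (2 * lam * m) * (θ ^ j)⁻¹ * Fintype.card E *
      (r * Real.exp (1 + lam)) * 2) := by
  classical
  set cond : E → List E → Prop := fun e L => C (e :: L) ∧ j ≤ th (pos e) (L.map pos) ∧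
      bk (pos e) (L.map pos) ≤ (e :: L).length with hcond
  set D : ℝ := Real.exp (2 * lam * m) * (θ ^ j)⁻¹ with hD
  have hD0 : 0 ≤ D := by positivity
  set R : ℝ := r * Real.exp (1 + lam) with hR
  have hR0 : 0 ≤ R := by positivity
  set Q : ℝ := 2 * AA θ lam ^ 2 with hQd
  have hA : 0 ≤ AA θ lam := by unfold AA; positivity
  have hQ0 : 0 ≤ Q := by positivity
  have hsub : {ω | ∃ (e : E) (L : List E), C (e :: L) ∧ ω ∈ Ev (e :: L) ∧
      j ≤ th (pos e) (L.map pos) ∧ bk (pos e) (L.map pos) ≤ (e :: L).length} ⊆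
      ⋃ k : ℕ, ⋃ eg : E × (Fin k → E), (if cond eg.1 (List.ofFn eg.2) then
        Ev (eg.1 :: List.ofFn eg.2) else ∅) := by
    rintro ω ⟨e, L, h1, h2, h3, h4⟩
    rw [Set.mem_iUnion]
    refine ⟨L.length, ?_⟩
    rw [Set.mem_iUnion]
    refine ⟨(e, L.get), ?_⟩
    have e1 : List.ofFn L.get = L := List.ofFn_get L
    simp only [e1]
    rw [if_pos ⟨h1, h3, h4⟩]
    exact h2
  refine (measure_mono hsub).trans ?_
  refine (measure_iUnion_le _).trans ?_
  have hterm : ∀ k : ℕ, μ (⋃ eg : E × (Fin k → E), (if cond eg.1 (List.ofFn eg.2) then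
        Ev (eg.1 :: List.ofFn eg.2) else ∅)) ≤
        ENNReal.ofReal (D * Fintype.card E * R) * ENNReal.ofReal (1/2) ^ k := by
    intro k
    refine (measure_iUnion_fintype_le _ _).trans ?_
    have h1 : ∀ eg : E × (Fin k → E), μ (if cond eg.1 (List.ofFn eg.2) then
        Ev (eg.1 :: List.ofFn eg.2) else ∅) ≤
        ENNReal.ofReal (D * R ^ (k+1) * wt θ lam (pos eg.1) ((List.ofFn eg.2).map pos)) := by
      rintro ⟨e, g⟩
      simp only
      split_ifs with hc
      · obtain ⟨hc1, hc2, hc3⟩ := hc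
        refine (hEv _ hc1).trans ?_
        apply ENNReal.ofReal_le_ofReal
        have hlen : (e :: List.ofFn g).length = k + 1 := by simp
        rw [hlen] at hc3 ⊢
        have hw := wt_ge (θ := θ) (lam := lam) hθ hlam.le (m := m) (x0 := x0) (y0 := y0) (pos e)
          ((List.ofFn g).map pos) (by
            intro d hd
            rw [List.mem_cons, List.mem_map] at hd
            rcases hd with rfl | ⟨a, _, rfl⟩
            · exact hbox e
            · exact hbox a) hc2 hc3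
        have hexp : Real.exp ((1 + lam) * ((k + 1 : ℕ) : ℝ)) = Real.exp (1 + lam) ^ (k + 1) := by
          rw [← Real.exp_nat_mul]; congr 1; ring
        rw [hexp] at hw
        calc r ^ (k+1) = r ^ (k+1) * 1 := by ring
          _ ≤ r ^ (k+1) * (Real.exp (2 * lam * m) * Real.exp (1 + lam) ^ (k + 1) * (θ ^ j)⁻¹ *
              wt θ lam (pos e) ((List.ofFn g).map pos)) :=
              mul_le_mul_of_nonneg_left hw (by positivity)
          _ = _ := by rw [hD, hR]; ring
      · simp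
    calc ∑ eg : E × (Fin k → E), μ (if cond eg.1 (List.ofFn eg.2) then
        Ev (eg.1 :: List.ofFn eg.2) else ∅)
        ≤ ∑ eg : E × (Fin k → E),
          ENNReal.ofReal (D * R ^ (k+1) * wt θ lam (pos eg.1) ((List.ofFn eg.2).map pos)) :=
          Finset.sum_le_sum fun eg _ => h1 eg
      _ = ENNReal.ofReal (∑ eg : E × (Fin k → E),
          D * R ^ (k+1) * wt θ lam (pos eg.1) ((List.ofFn eg.2).map pos)) := by
          rw [ENNReal.ofReal_sum_of_nonneg]
          intro eg _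
          exact mul_nonneg (by positivity) (wt_nonneg (by linarith) _ _)
      _ ≤ ENNReal.ofReal (D * Fintype.card E * R * (1/2) ^ k) := by
          apply ENNReal.ofReal_le_ofReal
          rw [← Finset.mul_sum, Fintype.sum_prod_type]
          have h2 : ∑ e : E, ∑ g : Fin k → E, wt θ lam (pos e) ((List.ofFn g).map pos) ≤
              Fintype.card E * Q ^ k := by
            calc ∑ e : E, ∑ g : Fin k → E, wt θ lam (pos e) ((List.ofFn g).map pos)
                ≤ ∑ e : E, Q ^ k :=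
                  Finset.sum_le_sum fun e _ => sum_wt (by linarith) hlam pos hfib k (pos e)
              _ = Fintype.card E * Q ^ k := by rw [Finset.sum_const, nsmul_eq_mul]; rfl
          have h3 : (R * Q) ^ k ≤ (1/2) ^ k := pow_le_pow_left₀ (by positivity) hQ k
          calc D * R ^ (k+1) * ∑ e : E, ∑ g : Fin k → E, wt θ lam (pos e) ((List.ofFn g).map pos)
              ≤ D * R ^ (k+1) * (Fintype.card E * Q ^ k) :=
                mul_le_mul_of_nonneg_left h2 (by positivity)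
            _ = D * Fintype.card E * R * (R * Q) ^ k := by rw [mul_pow, pow_succ]; ring
            _ ≤ D * Fintype.card E * R * (1/2) ^ k := mul_le_mul_of_nonneg_left h3 (by positivity)
      _ = ENNReal.ofReal (D * Fintype.card E * R) * ENNReal.ofReal (1/2) ^ k := by
          rw [ENNReal.ofReal_mul (by positivity), ENNReal.ofReal_pow (by norm_num)]
  refine (ENNReal.tsum_le_tsum hterm).trans ?_
  rw [ENNReal.tsum_mul_left, ENNReal.tsum_geometric]
  have h5 : (1 - ENNReal.ofReal (1/2))⁻¹ = ENNReal.ofReal 2 := by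
    have : (1 : ENNReal) - ENNReal.ofReal (1/2) = ENNReal.ofReal (1/2) := by
      rw [← ENNReal.ofReal_one, ← ENNReal.ofReal_sub _ (by norm_num)]; norm_num
    rw [this, ← ENNReal.ofReal_inv_of_pos (by norm_num)]
    norm_num
  rw [h5, ← ENNReal.ofReal_mul (by positivity)]

/-! ### choice of the constants -/

theorem const_Q {s : ℝ} (h0 : 0 < s) (h1 : s ≤ 1 / 64) :
    s ^ 2 * Real.exp (1 + 8 * s) * (2 * AA (1 / (64 * s)) (8 * s) ^ 2) ≤ 1 / 2 ∧
    (s ^ 2 * Real.exp (1 + 8 * s)) * 2 ≤ 1 := by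
  have he : Real.exp (1 + 8 * s) ≤ 4 := by
    have h2 : Real.exp (1 + 8 * s) ≤ Real.exp (1 + 1/8) := Real.exp_le_exp.2 (by linarith)
    have h3 : Real.exp (1 + 1/8) = Real.exp 1 * Real.exp (1/8) := Real.exp_add _ _
    have h4 : Real.exp 1 < 2.7182818286 := Real.exp_one_lt_d9
    have h5 : Real.exp (1/8) ≤ 1.2 := by
      have h6 : Real.exp (1/8) ^ 8 = Real.exp 1 := by
        rw [← Real.exp_nat_mul]; norm_num
      have h7 : Real.exp (1/8) ^ 8 ≤ 1.2 ^ 8 := by
        rw [h6]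
        refine h4.le.trans ?_
        norm_num
      exact le_of_pow_le_pow_left₀ (by norm_num) (by norm_num) h7
    have h8 : 0 < Real.exp (1/8) := Real.exp_pos _
    rw [h3] at h2
    nlinarith
  have hA : AA (1 / (64 * s)) (8 * s) ≤ 3 / (16 * s) := by
    unfold AA
    rw [le_div_iff₀ (by positivity)]
    have : (3 * (1 / (64 * s)) + 1 / (8 * s) + 1) * (16 * s) = 11 / 4 + 16 * s := by
      field_simp
      ring
    rw [this]
    linarith
  have hA0 : 0 ≤ AA (1 / (64 * s)) (8 * s) := by unfold AA; positivity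
  have hA2 : AA (1 / (64 * s)) (8 * s) ^ 2 ≤ 9 / (256 * s ^ 2) := by
    calc AA (1 / (64 * s)) (8 * s) ^ 2 ≤ (3 / (16 * s)) ^ 2 := pow_le_pow_left₀ hA0 hA 2
      _ = 9 / (256 * s ^ 2) := by field_simp; ring
  have hpos : 0 < Real.exp (1 + 8 * s) := Real.exp_pos _
  constructor
  · calc s ^ 2 * Real.exp (1 + 8 * s) * (2 * AA (1 / (64 * s)) (8 * s) ^ 2)
        ≤ s ^ 2 * 4 * (2 * (9 / (256 * s ^ 2))) := by
          apply mul_le_mul _ _ (by positivity) (by positivity)
          · exact mul_le_mul_of_nonneg_left he (by positivity)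
          · linarith
      _ = 9 / 32 := by field_simp; ring
      _ ≤ 1 / 2 := by norm_num
  · have : s ^ 2 ≤ (1/64) ^ 2 := pow_le_pow_left₀ h0.le h1 2
    nlinarith

/-- With high probability no list of present labels (with total backward displacement at most its
length) has many thin steps. -/
theorem few_thin (δ : ℝ) (hδ : 0 < δ) : ∃ s0 : ℝ, 0 < s0 ∧ s0 ≤ 1 / 64 ∧ ∀ s : ℝ, 0 < s → s ≤ s0 →
    ∀ {Ω : Type} [MeasurableSpace Ω] (μ : Measure Ω) {E : Type} [Fintype E]
    (pos : E → ℤ × ℤ) (_ : ∀ c, (univ.filter (fun e => pos e = c)).card ≤ 2)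
    {m : ℕ} {x0 y0 : ℤ}
    (_ : ∀ e, x0 ≤ (pos e).1 ∧ (pos e).1 ≤ x0 + m ∧ y0 ≤ (pos e).2 ∧ (pos e).2 ≤ y0 + m)
    (j : ℕ) (_ : δ * s * m ≤ j)
    (C : List E → Prop) (Ev : List E → Set Ω)
    (_ : ∀ L, C L → μ (Ev L) ≤ ENNReal.ofReal ((s ^ 2) ^ L.length)),
    μ {ω | ∃ (e : E) (L : List E), C (e :: L) ∧ ω ∈ Ev (e :: L) ∧ j ≤ th (pos e) (L.map pos) ∧
      bk (pos e) (L.map pos) ≤ (e :: L).length} ≤
    ENNReal.ofReal (Fintype.card E * Real.exp (-(s * m))) := by
  refine ⟨Real.exp (-(17 / δ)) / 64, by positivity, ?_, ?_⟩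
  · have : Real.exp (-(17 / δ)) ≤ 1 := Real.exp_le_one_iff.2 (by
      have : 0 < 17 / δ := by positivity
      linarith)
    linarith
  intro s h0 hs Ω _ μ E _ pos hfib m x0 y0 hbox j hj C Ev hEv
  have he1 : Real.exp (-(17 / δ)) ≤ 1 := Real.exp_le_one_iff.2 (by
      have : 0 < 17 / δ := by positivity
      linarith)
  have hs1 : s ≤ 1 / 64 := by linarith
  obtain ⟨hQ1, hQ2⟩ := const_Q h0 hs1
  have hθ : 1 ≤ 1 / (64 * s) := by
    rw [le_div_iff₀ (by positivity)]; linarith
  have h := first_moment μ pos hfib hbox (s ^ 2) (1 / (64 * s)) (8 * s) (by positivity) hθ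
    (by positivity) hQ1 j C Ev hEv
  refine h.trans ?_
  apply ENNReal.ofReal_le_ofReal
  have h1 : ((1 / (64 * s)) ^ j)⁻¹ ≤ Real.exp (-(17 * (s * m))) := by
    have h2 : ((1 / (64 * s)) ^ j)⁻¹ = (64 * s) ^ j := by
      rw [one_div, inv_pow, inv_inv]
    rw [h2]
    have h3 : 64 * s ≤ Real.exp (-(17 / δ)) := by linarith
    calc (64 * s) ^ j ≤ Real.exp (-(17 / δ)) ^ j := pow_le_pow_left₀ (by positivity) h3 j
      _ = Real.exp (-(17 / δ * j)) := by rw [← Real.exp_nat_mul]; congr 1; ring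
      _ ≤ Real.exp (-(17 * (s * m))) := by
          apply Real.exp_le_exp.2
          have : 17 * (s * m) ≤ 17 / δ * j := by
            rw [div_mul_eq_mul_div, le_div_iff₀ hδ]
            nlinarith
          linarith
  have hcard : (0:ℝ) ≤ Fintype.card E := Nat.cast_nonneg _
  calc Real.exp (2 * (8 * s) * m) * ((1 / (64 * s)) ^ j)⁻¹ * Fintype.card E *
      (s ^ 2 * Real.exp (1 + 8 * s)) * 2
      = (Real.exp (2 * (8 * s) * m) * ((1 / (64 * s)) ^ j)⁻¹) * Fintype.card E *
      ((s ^ 2 * Real.exp (1 + 8 * s)) * 2) := by ring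
    _ ≤ (Real.exp (2 * (8 * s) * m) * Real.exp (-(17 * (s * m)))) * Fintype.card E * 1 := by
        apply mul_le_mul _ hQ2 (by positivity) (by positivity)
        apply mul_le_mul_of_nonneg_right _ hcard
        exact mul_le_mul_of_nonneg_left h1 (by positivity)
    _ = Fintype.card E * Real.exp (-(s * m)) := by
        rw [← Real.exp_add, mul_one, mul_comm]
        congr 2
        ring

end Pool.Agent.R962.FN
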