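import Pool.Agent.R962.FN.Asym

/-!
# Asymptotics of the maximal gain for small density
-/

set_option autoImplicit false

namespace Pool.Agent.R962.FN

open Finset MeasureTheory ProbabilityTheory Filter Topology
open Pool.Agent.W533.LP

/-- Embedding of the edges of the box. -/
def emE (m : ℕ) (e : (Fin (m + 1) × Fin (m + 1)) × Bool) : Edge := ((e.1.1, e.1.2), e.2)

theorem emE_inj (m : ℕ) : Function.Injective (emE m) := by
  rintro ⟨⟨a, b⟩, t⟩ ⟨⟨c, d⟩, u⟩ h
  simp only [emE, Prod.mk.injEq] at h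
  obtain ⟨⟨h1, h2⟩, h3⟩ := h
  rw [Fin.ext h1, Fin.ext h2, h3]

theorem lift_list (m : ℕ) (L : List Edge) (h : ∀ e ∈ L, Inner m e) :
    ∃ L' : List ((Fin (m + 1) × Fin (m + 1)) × Bool), L'.map (emE m) = L := by
  induction L with
  | nil => exact ⟨[], rfl⟩
  | cons c L ih =>
    obtain ⟨L', hL'⟩ := ih (fun d hd => h d (by simp [hd]))
    have h1 := mem_boxF.1 (Inner_mem (h c (by simp)))
    exact ⟨((⟨c.1.1, h1.1⟩, ⟨c.1.2, h1.2⟩), c.2) :: L', by rw [List.map_cons, hL']; rfl⟩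

theorem fib_card (m : ℕ) (c : ℤ × ℤ) :
    (univ.filter (fun e : (Fin (m + 1) × Fin (m + 1)) × Bool => pos (emE m e) = c)).card ≤ 2 := by
  have : (univ.filter (fun e : (Fin (m + 1) × Fin (m + 1)) × Bool => pos (emE m e) = c)).card ≤
      (univ : Finset Bool).card := by
    apply Finset.card_le_card_of_injOn (fun e => e.2) (fun _ _ => by simp)
    intro a ha b hb hab
    simp only [Finset.coe_filter, Finset.mem_univ, true_and, Set.mem_ofPred_eq] at ha hb
    have h := ha.trans hb.symm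
    simp only [pos, emE, Prod.mk.injEq, Nat.cast_inj, neg_inj] at h
    exact Prod.ext (Prod.ext (Fin.ext h.1) (Fin.ext h.2)) hab
  simpa using this

theorem card_edges (m : ℕ) :
    (Fintype.card ((Fin (m + 1) × Fin (m + 1)) × Bool) : ℝ) = 2 * ((m : ℝ) + 1) ^ 2 := by
  simp only [Fintype.card_prod, Fintype.card_fin, Fintype.card_bool]
  push_cast
  ring

/-- The gain is at most the longest chain plus `j`, up to an event of small probability. -/
theorem KK_upper_prob (δ : ℝ) (hδ : 0 < δ) : ∃ s0 : ℝ, 0 < s0 ∧ s0 ≤ 1 / 64 ∧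
    ∀ p : unitInterval, ∀ t : ℝ, 0 < t → t ≤ s0 → t ^ 2 = 1 - (p : ℝ) →
    ∀ (m j : ℕ), δ * t * m ≤ j → (law p).real {ω | ((LS (m + 1) (MU m ω) + j : ℕ) : ℤ) < KK m ω} ≤
      (2 * ((m : ℝ) + 1) ^ 2) * Real.exp (-(t * m)) := by
  obtain ⟨s0, h0, h1, hft⟩ := few_thin δ hδ
  refine ⟨s0, h0, h1, fun p t ht ht0 htp m j hj => ?_⟩
  have hb := hft t ht ht0 (law p) (E := (Fin (m + 1) × Fin (m + 1)) × Bool) (fun e => pos (emE m e))
    (fib_card m) (m := m) (x0 := 0) (y0 := -(m : ℤ)) (by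
      intro e
      simp only [emE, pos]
      have := e.1.1.2
      have := e.1.2.2
      omega) j hj (fun L => L.Nodup)
      (fun L => {ω : Conf | ∀ e ∈ L, ω (emE m e) = false})
      (fun L hL => by
        have h2 := closed_prob p (L.map (emE m)) (hL.map (emE_inj m))
        rw [List.length_map] at h2
        rw [htp, ← h2]
        apply measure_mono
        intro ω hω e he
        rw [List.mem_map] at he
        obtain ⟨f, hf, rfl⟩ := he
        exact hω f hf)
  rw [card_edges] at hb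
  refine le_trans ?_ ((ENNReal.toReal_mono ENNReal.ofReal_ne_top hb).trans_eq
    (ENNReal.toReal_ofReal (by positivity)))
  refine measureReal_mono ?_ (measure_ne_top _ _)
  intro ω hω
  simp only [Set.mem_ofPred_eq] at hω
  rcases KK_upper m ω j with h | ⟨e, L, g1, g2, g3, g4⟩
  · omega
  · obtain ⟨L', hL'⟩ := lift_list m (e :: L) (fun f hf => (g2 f hf).1)
    cases L' with
    | nil => simp at hL'
    | cons e' L' =>
      rw [List.map_cons, List.cons.injEq] at hL'
      obtain ⟨rfl, rfl⟩ := hL'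
      rw [List.map_map] at g3 g4
      refine ⟨e', L', ?_, ?_, g3, ?_⟩
      · rw [← List.map_cons] at g1
        exact List.Nodup.of_map _ g1
      · intro f hf
        apply (g2 (emE m f) _).2
        rw [← List.map_cons]
        exact List.mem_map_of_mem hf
      · simp only [List.length_cons, List.length_map] at g4 ⊢
        exact g4

/-- Law of large numbers for the gain, up to a small multiple of `t = √(1-p)`. -/
theorem KK_lln (δ : ℝ) (hδ : 0 < δ) : ∃ t0 : ℝ, 0 < t0 ∧ t0 ≤ 1 / 128 ∧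
    ∀ p : unitInterval, ∀ t s : ℝ, 0 < t → t ≤ t0 → t ^ 2 = 1 - (p : ℝ) → 0 < s →
      s ^ 2 = 1 - (p : ℝ) ^ 2 → Tendsto (fun m : ℕ => (law p).real {ω | 7 * δ * t * m ≤
        |(KK m ω : ℝ) - 2 * mean s * m|}) atTop (𝓝 0) := by
  obtain ⟨s1, h1, h1', hA⟩ := LS_lln δ hδ
  obtain ⟨s2, h2, h2', hB⟩ := KK_upper_prob δ hδ
  refine ⟨min (s1 / 2) (s2 / 2), by positivity, ?_, ?_⟩
  · exact (min_le_left _ _).trans (by linarith)
  intro p t s ht ht0 htp hs hsp
  have ht1 : t ≤ s1 / 2 := ht0.trans (min_le_left _ _)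
  have ht2 : t ≤ s2 / 2 := ht0.trans (min_le_right _ _)
  have hst : s ≤ 2 * t := by
    have hp1 := p.2.1
    have hp2 := p.2.2
    refine (abs_le_of_sq_le_sq' ?_ (by positivity)).2
    nlinarith
  obtain ⟨Ω, mΩ, μ, W, hBk, hW⟩ := hA s hs (by linarith)
  have hq : 1 - s ^ 2 = (p : ℝ) ^ 2 := by linarith
  set a : ℝ := 2 * mean s with ha
  -- the two transferred laws of large numbers
  have hL : Tendsto (fun m : ℕ => (law p).real {ω | 2 * δ * s * m ≤
      |(LS m (ML m ω) : ℝ) - a * m|}) atTop (𝓝 0) := by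
    refine hW.congr (fun n => ?_)
    have h3 := transfer p hq hBk n (fun v => (v.1 + 1, n - v.2)) (by
      intro a b a' b' ha hb ha' hb' h
      simp only [Prod.mk.injEq] at h
      omega) {k : ℕ | 2 * δ * s * n ≤ |(k : ℝ) - a * n|}
    unfold Measure.real
    congr 1
    exact h3.symm
  have hU : Tendsto (fun m : ℕ => (law p).real {ω | 2 * δ * s * ((m + 1 : ℕ) : ℝ) ≤
      |(LS (m + 1) (MU m ω) : ℝ) - a * ((m + 1 : ℕ) : ℝ)|}) atTop (𝓝 0) := by
    refine (hW.comp (tendsto_add_atTop_nat 1)).congr (fun n => ?_)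
    have h3 := transfer p hq hBk (n + 1) (fun v => (v.1, n - v.2)) (by
      intro a b a' b' ha hb ha' hb' h
      simp only [Prod.mk.injEq] at h
      omega) {k : ℕ | 2 * δ * s * ((n + 1 : ℕ) : ℝ) ≤ |(k : ℝ) - a * ((n + 1 : ℕ) : ℝ)|}
    simp only [Function.comp]
    unfold Measure.real
    congr 1
    exact h3.symm
  have hsum := (hL.add hU).add (exp_tend t ht 2 1)
  rw [add_zero, add_zero] at hsum
  have hlarge : ∀ᶠ m : ℕ in atTop, (|a| + 2 * δ * s + 1) / (δ * t) ≤ (m : ℝ) :=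
    tendsto_natCast_atTop_atTop.eventually_ge_atTop _
  refine squeeze_zero' (Eventually.of_forall fun _ => measureReal_nonneg) ?_ hsum
  filter_upwards [hlarge] with m hm
  rw [div_le_iff₀ (by positivity)] at hm
  set j : ℕ := ⌈δ * t * m⌉₊ with hj
  have hj1 : δ * t * m ≤ j := Nat.le_ceil _
  have hj2 : (j : ℝ) < δ * t * m + 1 := Nat.ceil_lt_add_one (by positivity)
  have hb := hB p t ht (by linarith) htp m j hj1
  have hincl : {ω | 7 * δ * t * m ≤ |(KK m ω : ℝ) - a * m|} ⊆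
      ({ω | 2 * δ * s * m ≤ |(LS m (ML m ω) : ℝ) - a * m|} ∪
        {ω | 2 * δ * s * ((m + 1 : ℕ) : ℝ) ≤
          |(LS (m + 1) (MU m ω) : ℝ) - a * ((m + 1 : ℕ) : ℝ)|}) ∪
      {ω | ((LS (m + 1) (MU m ω) + j : ℕ) : ℤ) < KK m ω} := by
    intro ω hω
    by_contra hcon
    rw [Set.mem_union, Set.mem_union, not_or, not_or] at hcon
    obtain ⟨⟨hc1, hc2⟩, hc3⟩ := hcon
    simp only [Set.mem_ofPred_eq, not_le, not_lt] at hc1 hc2 hc3 hω
    rw [abs_lt] at hc1 hc2
    have hlow : (LS m (ML m ω) : ℝ) ≤ KK m ω := by exact_mod_cast KK_lower m ω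
    have hupp : (KK m ω : ℝ) ≤ LS (m + 1) (MU m ω) + j := by exact_mod_cast hc3
    have hδs : δ * s ≤ 2 * (δ * t) := by nlinarith
    have hm0 : (0 : ℝ) ≤ m := Nat.cast_nonneg m
    have hδsm : δ * s * m ≤ 2 * (δ * t) * m := mul_le_mul_of_nonneg_right hδs hm0
    have hpos : 0 < δ * t * m := by
      have : 0 < |a| + 2 * δ * s + 1 := by positivity
      nlinarith
    have haa : a ≤ |a| := le_abs_self a
    push_cast at hc2
    have : |(KK m ω : ℝ) - a * m| < 7 * δ * t * m := by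
      rw [abs_lt]
      constructor
      · nlinarith [hc1.1]
      · nlinarith [hc2.2]
    linarith
  calc (law p).real {ω | 7 * δ * t * m ≤ |(KK m ω : ℝ) - a * m|} ≤ _ := measureReal_mono hincl
    _ ≤ _ := measureReal_union_le _ _
    _ ≤ _ := add_le_add (measureReal_union_le _ _) hb

end Pool.Agent.R962.FN
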