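import Pool.Agent.R962.FN.Lists
import Pool.Agent.W533.LP.Defs

/-!
# Longest strict chains of marked points; comparison with last passage times (deterministic)
-/

set_option autoImplicit false

namespace Pool.Agent.R962.FN

open Finset
open Pool.Agent.W533.LP

/-- Strictly increasing marked lists in the box `[0,n)²`. -/
def Ch (n : ℕ) (M : ℕ → ℕ → Bool) (l : List (ℤ × ℤ)) : Prop :=
  l.Pairwise lt2 ∧ ∀ c ∈ l, (0 ≤ c.1 ∧ c.1 < n ∧ 0 ≤ c.2 ∧ c.2 < n) ∧
    M c.1.toNat c.2.toNat = true

/-- Largest length of a strictly increasing marked list. -/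
noncomputable def LS (n : ℕ) (M : ℕ → ℕ → Bool) : ℕ := sSup {k | ∃ l, Ch n M l ∧ k = l.length}

theorem Ch_len {n : ℕ} {M : ℕ → ℕ → Bool} {l : List (ℤ × ℤ)} (h : Ch n M l) : l.length ≤ n := by
  classical
  have h1 : (l.map Prod.fst).Nodup := by
    unfold List.Nodup
    rw [List.pairwise_map]
    exact h.1.imp (fun {a b} hab => ne_of_lt hab.1)
  have h2 : (l.map Prod.fst).toFinset ⊆ Finset.Ico (0 : ℤ) n := by
    intro x hx
    rw [List.mem_toFinset, List.mem_map] at hx
    obtain ⟨c, hc, rfl⟩ := hx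
    obtain ⟨⟨h3, h4, _⟩, _⟩ := h.2 c hc
    rw [Finset.mem_Ico]
    exact ⟨h3, h4⟩
  have h3 := Finset.card_le_card h2
  rw [List.toFinset_card_of_nodup h1, List.length_map, Int.card_Ico] at h3
  omega

theorem Ch_nil (n : ℕ) (M : ℕ → ℕ → Bool) : Ch n M [] := ⟨List.Pairwise.nil, by simp⟩

theorem LS_bdd (n : ℕ) (M : ℕ → ℕ → Bool) : BddAbove {k | ∃ l, Ch n M l ∧ k = l.length} := by
  refine ⟨n, ?_⟩
  rintro k ⟨l, h, rfl⟩
  exact Ch_len h

theorem LS_ge {n : ℕ} {M : ℕ → ℕ → Bool} {l : List (ℤ × ℤ)} (h : Ch n M l) :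
    l.length ≤ LS n M := le_csSup (LS_bdd n M) ⟨l, h, rfl⟩

theorem LS_mem (n : ℕ) (M : ℕ → ℕ → Bool) : ∃ l, Ch n M l ∧ LS n M = l.length := by
  have h : sSup {k | ∃ l, Ch n M l ∧ k = l.length} ∈ {k | ∃ l, Ch n M l ∧ k = l.length} :=
    Nat.sSup_mem ⟨0, [], Ch_nil n M, rfl⟩ (LS_bdd n M)
  exact h

theorem LS_le (n : ℕ) (M : ℕ → ℕ → Bool) : LS n M ≤ n := by
  obtain ⟨l, h, h2⟩ := LS_mem n M
  rw [h2]; exact Ch_len h

theorem Ch_congr {n : ℕ} {M M' : ℕ → ℕ → Bool} (h : ∀ i < n, ∀ j < n, M i j = M' i j)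
    {l : List (ℤ × ℤ)} (hl : Ch n M l) : Ch n M' l := by
  refine ⟨hl.1, fun c hc => ?_⟩
  obtain ⟨h1, h2⟩ := hl.2 c hc
  refine ⟨h1, ?_⟩
  rw [← h _ (by omega) _ (by omega)]
  exact h2

theorem LS_congr {n : ℕ} {M M' : ℕ → ℕ → Bool} (h : ∀ i < n, ∀ j < n, M i j = M' i j) :
    LS n M = LS n M' := by
  apply le_antisymm
  · obtain ⟨l, h1, h2⟩ := LS_mem n M
    rw [h2]
    exact LS_ge (Ch_congr h h1)
  · obtain ⟨l, h1, h2⟩ := LS_mem n M'
    rw [h2]
    exact LS_ge (Ch_congr (fun i hi j hj => (h i hi j hj).symm) h1)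

/-! ### comparison with `T` -/

theorem G_mono_x (W : ℕ → ℕ → ℕ) (i j : ℕ) : G zero zero W i j ≤ G zero zero W (i + 1) j := by
  cases j with
  | zero => simp [G]
  | succ j =>
    rw [G]
    exact (le_max_left _ _).trans (Nat.le_add_right _ _)

theorem G_mono_y (W : ℕ → ℕ → ℕ) (i j : ℕ) : G zero zero W i j ≤ G zero zero W i (j + 1) := by
  cases i with
  | zero => simp [G]
  | succ i =>
    rw [G]
    exact (le_max_right _ _).trans (Nat.le_add_right _ _)

theorem T_mono (W : ℕ → ℕ → ℕ) {i i' j j' : ℕ} (hi : i ≤ i') (hj : j ≤ j') : T W i j ≤ T W i' j' := by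
  unfold T
  calc G zero zero W i j ≤ G zero zero W i' j :=
        monotone_nat_of_le_succ (fun k => G_mono_x W k j) hi
    _ ≤ G zero zero W i' j' := monotone_nat_of_le_succ (fun k => G_mono_y W i' k) hj

theorem T_step (W : ℕ → ℕ → ℕ) (i j : ℕ) : T W i j + W i j ≤ T W (i + 1) (j + 1) := by
  have h1 : T W i j ≤ T W i (j + 1) := T_mono W le_rfl (Nat.le_succ j)
  unfold T at *
  rw [G]
  exact Nat.add_le_add_right (h1.trans (le_max_left _ _)) _

theorem chain_le_T (W : ℕ → ℕ → ℕ) (l : List (ℤ × ℤ)) : ∀ (m n : ℕ), l.Pairwise lt2 →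
    (∀ c ∈ l, (0 ≤ c.1 ∧ c.1 < m ∧ 0 ≤ c.2 ∧ c.2 < n) ∧ 1 ≤ W c.1.toNat c.2.toNat) →
    l.length ≤ T W m n := by
  induction l using List.reverseRecOn with
  | nil => intro m n _ _; simp
  | append_singleton l c ih =>
    intro m n h1 h2
    obtain ⟨⟨a1, a2, a3, a4⟩, a5⟩ := h2 c (by simp)
    rw [List.pairwise_append] at h1
    obtain ⟨h3, _, h4⟩ := h1
    have h5 := ih c.1.toNat c.2.toNat h3 (by
      intro d hd
      obtain ⟨⟨b1, b2, b3, b4⟩, b5⟩ := h2 d (by simp [hd])
      obtain ⟨b6, b7⟩ := h4 d hd c (by simp)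
      exact ⟨⟨b1, by omega, b3, by omega⟩, b5⟩)
    have h6 := T_step W c.1.toNat c.2.toNat
    have h7 : T W (c.1.toNat + 1) (c.2.toNat + 1) ≤ T W m n := T_mono W (by omega) (by omega)
    simp only [List.length_append, List.length_singleton]
    omega

theorem LS_le_T {n : ℕ} {M : ℕ → ℕ → Bool} {W : ℕ → ℕ → ℕ}
    (h : ∀ i j, M i j = true → 1 ≤ W i j) : LS n M ≤ T W n n := by
  obtain ⟨l, h1, h2⟩ := LS_mem n M
  rw [h2]
  exact chain_le_T W l n n h1.1 (fun c hc => ⟨(h1.2 c hc).1, h _ _ (h1.2 c hc).2⟩)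

/-- Weak order. -/
def le2 (c d : ℕ × ℕ) : Prop := c.1 ≤ d.1 ∧ c.2 ≤ d.2

theorem T_list (W : ℕ → ℕ → ℕ) (m : ℕ) : ∀ n, ∃ L : List (ℕ × ℕ), L.Pairwise le2 ∧
    (∀ c ∈ L, c.1 < m ∧ c.2 < n) ∧ (∀ c, L.count c ≤ W c.1 c.2) ∧ L.length = T W m n := by
  induction m with
  | zero =>
    intro n
    refine ⟨[], List.Pairwise.nil, by simp, by simp, ?_⟩
    have : T W 0 n = 0 := by
      induction n with
      | zero => simp [T, G]
      | succ n ih =>
        unfold T at *
        rw [G, ih]; rfl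
    rw [this]; rfl
  | succ m ihm =>
    intro n
    induction n with
    | zero =>
      refine ⟨[], List.Pairwise.nil, by simp, by simp, ?_⟩
      have : ∀ m, T W m 0 = 0 := by
        intro m
        induction m with
        | zero => simp [T, G]
        | succ n ih =>
          unfold T at *
          rw [G, ih]; rfl
      rw [this]; rfl
    | succ n ihn =>
      -- the best of the two predecessors
      have hpre : ∃ L : List (ℕ × ℕ), L.Pairwise le2 ∧ (∀ c ∈ L, c.1 ≤ m ∧ c.2 ≤ n) ∧
          (m, n) ∉ L ∧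
          (∀ c, L.count c ≤ W c.1 c.2) ∧ L.length = max (T W m (n + 1)) (T W (m + 1) n) := by
        rcases le_total (T W m (n + 1)) (T W (m + 1) n) with h | h
        · obtain ⟨L, h1, h2, h3, h4⟩ := ihn
          refine ⟨L, h1, fun c hc => ?_, ?_, h3, ?_⟩
          · have := h2 c hc; omega
          · intro hc; have := h2 _ hc; simp at this
          · rw [max_eq_right h]; exact h4
        · obtain ⟨L, h1, h2, h3, h4⟩ := ihm (n + 1)
          refine ⟨L, h1, fun c hc => ?_, ?_, h3, ?_⟩
          · have := h2 c hc; omega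
          · intro hc; have := h2 _ hc; simp at this
          · rw [max_eq_left h]; exact h4
      obtain ⟨L, h1, h2, h3, h4, h5⟩ := hpre
      refine ⟨L ++ List.replicate (W m n) (m, n), ?_, ?_, ?_, ?_⟩
      · rw [List.pairwise_append]
        refine ⟨h1, ?_, ?_⟩
        · rw [List.pairwise_replicate]
          right
          exact ⟨le_rfl, le_rfl⟩
        · intro a ha b hb
          have := List.eq_of_mem_replicate hb
          subst this
          exact h2 a ha
      · intro c hc
        rw [List.mem_append] at hc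
        rcases hc with hc | hc
        · have := h2 c hc; omega
        · have := List.eq_of_mem_replicate hc
          subst this
          simp
      · intro c
        rw [List.count_append]
        by_cases hc : c = (m, n)
        · subst hc
          rw [List.count_eq_zero_of_not_mem h3, List.count_replicate_self]
          simp
        · have : List.count c (List.replicate (W m n) (m, n)) = 0 := by
            rw [List.count_eq_zero]
            intro hc2
            exact hc (List.eq_of_mem_replicate hc2)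
          rw [this]
          exact h4 c
      · rw [List.length_append, List.length_replicate, h5]
        unfold T
        conv_rhs => rw [G]

theorem bk_zero {c : ℤ × ℤ} {l : List (ℤ × ℤ)}
    (h : (c :: l).Pairwise (fun a b => a.1 ≤ b.1 ∧ a.2 ≤ b.2)) : bk c l = 0 := by
  induction l generalizing c with
  | nil => rfl
  | cons d l ih =>
    rw [List.pairwise_cons] at h
    obtain ⟨h1, h2⟩ := h
    have h3 := h1 d (by simp)
    simp only [bk]
    rw [ih h2]
    unfold back
    omega

/-- Embedding of the vertices. -/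
def emb (n : ℕ) (v : Fin n × Fin n) : ℤ × ℤ := ((v.1 : ℤ), (v.2 : ℤ))

/-- `T` is at most `LS` plus the number of thin steps of a list of the field. -/
theorem T_le (W : ℕ → ℕ → ℕ) (n j : ℕ) (M : ℕ → ℕ → Bool) (hM : ∀ i j, 1 ≤ W i j → M i j = true) :
    T W n n ≤ LS n M + j ∨ ∃ (e : Fin n × Fin n) (L : List (Fin n × Fin n)),
      (∀ v : Fin n × Fin n, (e :: L).count v ≤ W v.1 v.2) ∧ j ≤ th (emb n e) (L.map (emb n)) ∧
      bk (emb n e) (L.map (emb n)) ≤ (e :: L).length := by
  obtain ⟨L, h1, h2, h3, h4⟩ := T_list W n n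
  -- lift to `Fin`
  have hlift : ∃ L' : List (Fin n × Fin n), L'.map (fun v => ((v.1 : ℕ), (v.2 : ℕ))) = L := by
    clear h1 h3 h4
    induction L with
    | nil => exact ⟨[], rfl⟩
    | cons c L ih =>
      obtain ⟨L', hL'⟩ := ih (fun d hd => h2 d (by simp [hd]))
      obtain ⟨ha, hb⟩ := h2 c (by simp)
      exact ⟨(⟨c.1, ha⟩, ⟨c.2, hb⟩) :: L', by simp [hL']⟩
  obtain ⟨L', rfl⟩ := hlift
  rw [List.length_map] at h4
  cases L' with
  | nil =>
    left
    rw [← h4]
    simp
  | cons e L =>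
    have hinj : Function.Injective (fun v : Fin n × Fin n => ((v.1 : ℕ), (v.2 : ℕ))) := by
      intro a b hab
      simp only [Prod.mk.injEq] at hab
      exact Prod.ext (Fin.ext hab.1) (Fin.ext hab.2)
    have hcount : ∀ v : Fin n × Fin n, (e :: L).count v ≤ W v.1 v.2 := by
      intro v
      have := h3 ((v.1 : ℕ), (v.2 : ℕ))
      rw [List.count_map_of_injective _ _ hinj] at this
      exact this
    have hbk : bk (emb n e) (L.map (emb n)) = 0 := by
      apply bk_zero
      have e1 : emb n e :: L.map (emb n) = ((e :: L).map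
        (fun v : Fin n × Fin n => ((v.1 : ℕ), (v.2 : ℕ)))).map (fun c => ((c.1 : ℤ), (c.2 : ℤ))) := by
        simp [emb]
      rw [e1, List.pairwise_map]
      refine h1.imp ?_
      intro a b hab
      obtain ⟨hab1, hab2⟩ := hab
      constructor
      · show (a.1 : ℤ) ≤ (b.1 : ℤ)
        exact_mod_cast hab1
      · show (a.2 : ℤ) ≤ (b.2 : ℤ)
        exact_mod_cast hab2
    by_cases hth : j ≤ th (emb n e) (L.map (emb n))
    · right
      exact ⟨e, L, hcount, hth, by rw [hbk]; omega⟩
    · left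
      obtain ⟨l', g1, g2, g3⟩ := extract_cons (emb n e) (L.map (emb n))
      have hch : Ch n M l' := by
        refine ⟨g2, ?_⟩
        intro c hc
        have hc2 := g1.subset hc
        rw [← List.map_cons, List.mem_map] at hc2
        obtain ⟨v, hv, rfl⟩ := hc2
        refine ⟨⟨by simp [emb], by simp [emb], by simp [emb], by simp [emb]⟩, ?_⟩
        apply hM
        have h5 : 1 ≤ (e :: L).count v := List.one_le_count_iff.2 hv
        have := hcount v
        simp only [emb, Int.toNat_natCast]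
        omega
      have := LS_ge hch
      rw [hbk] at g3
      simp only [List.length_cons, List.length_map] at g3 h4
      omega

end Pool.Agent.R962.FN
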