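import Pool.Agent.R962.FN.Strong
import Pool.Agent.R962.FN.LS

/-!
# Maximal gain versus longest strict chain of marked vertices
-/

set_option autoImplicit false

namespace Pool.Agent.R962.FN

open Finset

/-- A vertex is marked if one of the two edges starting there is closed. -/
def mark (ω : Conf) (i j : ℕ) : Bool := !(ω ((i, j), false) && ω ((i, j), true))

/-- The field of marks for the upper bound. -/
def MU (m : ℕ) (ω : Conf) (a b : ℕ) : Bool := mark ω a (m - b)

/-- The field of marks for the lower bound. -/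
def ML (m : ℕ) (ω : Conf) (a b : ℕ) : Bool := mark ω (a + 1) (m - b)

/-- Maximal gain. -/
noncomputable def KK (m : ℕ) (ω : Conf) : ℤ := hh m ω (0, -(m : ℤ))

theorem KK_nonneg (m : ℕ) (ω : Conf) : 0 ≤ KK m ω := by
  have h := hh_ge (m := m) (ω := ω) (c := (0, -(m : ℤ))) (L := []) (by simp)
  have e1 : cost ((m : ℤ), 0) (0, -(m : ℤ)) [] = 0 := by unfold cost back; simp
  rw [e1] at h
  unfold KK
  simpa using h

theorem KK_le (m : ℕ) (ω : Conf) : KK m ω ≤ 2 * m := by
  obtain ⟨L, _, h⟩ := hh_mem m ω (0, -(m : ℤ))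
  have := gain_le ((m : ℤ), 0) L (0, -(m : ℤ))
  unfold KK
  rw [h]
  refine this.trans ?_
  unfold ph
  simp only
  linarith

theorem KK_list (m : ℕ) (ω : Conf) : ∃ L : List Edge, L.Nodup ∧
    (∀ e ∈ L, Inner m e ∧ ω e = false) ∧
    KK m ω = (L.length : ℤ) - cost ((m : ℤ), 0) (0, -(m : ℤ)) L := by
  obtain ⟨L0, hL0, h0⟩ := hh_mem m ω (0, -(m : ℤ))
  obtain ⟨L, hL1, hL2, hL3⟩ := nodup_gain ((m : ℤ), 0) L0.length L0 (0, -(m : ℤ)) le_rfl
  have hL4 : ∀ e ∈ L, Inner m e ∧ ω e = false := fun e he => hL0 e (hL2 he)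
  refine ⟨L, hL1, hL4, ?_⟩
  apply le_antisymm
  · unfold KK
    rw [h0]; exact hL3
  · exact hh_ge hL4

theorem V_KK (m : ℕ) (ω : Conf) : 2 * (m : ℤ) - KK m ω ≤ V (m + 2) ω ∧
    (V (m + 2) ω : ℤ) ≤ 2 * m + 2 - KK m ω := by
  obtain ⟨h1, L, h2, h3, h4⟩ := V_bounds m ω
  constructor
  · have h5 : (L.length : ℤ) - cost ((m : ℤ), 0) (0, -(m : ℤ)) L ≤ KK m ω := hh_ge h3
    linarith
  · obtain ⟨L', g1, g2, g3⟩ := KK_list m ω
    have := h1 L' g2
    rw [g3]
    linarith

theorem back_pos (e f : Edge) : back (pos e) (pos f) ≤ back (tc e) (sc f) := by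
  unfold back pos tc sc
  split_ifs <;> simp only <;> omega

theorem bk_cost (Z : ℤ × ℤ) (L : List Edge) : ∀ e, bk (pos e) (L.map pos) ≤ cost Z (tc e) L := by
  induction L with
  | nil => intro e; simp [bk]
  | cons f L ih =>
    intro e
    simp only [List.map_cons, bk, cost]
    exact Nat.add_le_add (back_pos e f) (ih f)

theorem mark_of {ω : Conf} {e : Edge} (h : ω e = false) : mark ω e.1.1 e.1.2 = true := by
  obtain ⟨⟨a, b⟩, t⟩ := e
  unfold mark
  cases t
  · simp only [h]; rfl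
  · simp only [h, Bool.and_false]; rfl

theorem pairwise_shift (y : ℤ) {l : List (ℤ × ℤ)} (h : l.Pairwise lt2) :
    (l.map (fun c => (c.1, c.2 + y))).Pairwise lt2 := by
  rw [List.pairwise_map]
  refine h.imp ?_
  rintro ⟨a, b⟩ ⟨c, d⟩ ⟨h1, h2⟩
  refine ⟨h1, ?_⟩
  show b + y < d + y
  simp only at h2
  omega

/-- Upper bound for the gain. -/
theorem KK_upper (m : ℕ) (ω : Conf) (j : ℕ) : KK m ω ≤ (LS (m + 1) (MU m ω) + j : ℕ) ∨
    ∃ (e : Edge) (L : List Edge), (e :: L).Nodup ∧ (∀ f ∈ e :: L, Inner m f ∧ ω f = false) ∧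
      j ≤ th (pos e) (L.map pos) ∧ bk (pos e) (L.map pos) ≤ (e :: L).length := by
  obtain ⟨L, h1, h2, h3⟩ := KK_list m ω
  have h0 := KK_nonneg m ω
  cases L with
  | nil =>
    left
    rw [h3]
    simp only [List.length_nil]
    push_cast
    have : (0 : ℤ) ≤ cost ((m : ℤ), 0) (0, -(m : ℤ)) [] := Int.natCast_nonneg _
    have h5 : (0 : ℤ) ≤ (LS (m + 1) (MU m ω) : ℤ) := Int.natCast_nonneg _
    linarith
  | cons e L =>
    have hb := bk_cost ((m : ℤ), 0) L e
    have hc : cost ((m : ℤ), 0) (0, -(m : ℤ)) (e :: L) =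
      back (0, -(m : ℤ)) (sc e) + cost ((m : ℤ), 0) (tc e) L := rfl
    by_cases hj : j ≤ th (pos e) (L.map pos)
    · right
      refine ⟨e, L, h1, h2, hj, ?_⟩
      omega
    · left
      obtain ⟨l', g1, g2, g3⟩ := extract_cons (pos e) (L.map pos)
      have hch : Ch (m + 1) (MU m ω) (l'.map (fun c => (c.1, c.2 + m))) := by
        refine ⟨pairwise_shift m g2, ?_⟩
        intro c hc
        rw [List.mem_map] at hc
        obtain ⟨d, hd, rfl⟩ := hc
        have hd2 := g1.subset hd
        rw [← List.map_cons, List.mem_map] at hd2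
        obtain ⟨f, hf, rfl⟩ := hd2
        obtain ⟨hf1, hf2⟩ := h2 f hf
        have hf3 : f.1.1 ≤ m ∧ f.1.2 ≤ m := by
          rcases hf1 with ⟨_, _, a, b⟩ | ⟨_, a, _, b⟩
          · exact ⟨a, b⟩
          · exact ⟨a, b⟩
        have hp : pos f = ((f.1.1 : ℤ), -(f.1.2 : ℤ)) := rfl
        rw [hp]
        refine ⟨?_, ?_⟩
        · simp only
          push_cast
          omega
        · simp only [Int.toNat_natCast]
          unfold MU
          have : m - (-(f.1.2 : ℤ) + m).toNat = f.1.2 := by omega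
          rw [this]
          exact mark_of hf2
      have h4 := LS_ge hch
      rw [List.length_map] at h4
      simp only [List.length_cons, List.length_map] at g3 h3
      omega

/-- A closed edge at a marked vertex. -/
def pick (m : ℕ) (ω : Conf) (c : ℤ × ℤ) : Edge :=
  if ω ((c.1.toNat + 1, m - c.2.toNat), true) = false then ((c.1.toNat + 1, m - c.2.toNat), true)
  else ((c.1.toNat + 1, m - c.2.toNat), false)

theorem cost_zero (m : ℕ) (ω : Conf) (l : List (ℤ × ℤ)) : ∀ c : ℤ × ℤ, c.1 ≤ m → c.2 ≤ 0 →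
    l.Pairwise lt2 → (∀ d ∈ l, 0 ≤ d.1 ∧ d.1 < m ∧ 0 ≤ d.2 ∧ d.2 < m) →
    (∀ d ∈ l, c.1 ≤ d.1 ∧ c.2 ≤ d.2 - m) → cost ((m : ℤ), 0) c (l.map (pick m ω)) = 0 := by
  induction l with
  | nil =>
    intro c h1 h2 _ _ _
    simp only [List.map_nil, cost]
    unfold back
    simp only
    omega
  | cons d l ih =>
    intro c h1 h2 h3 h4 h5
    rw [List.pairwise_cons] at h3
    obtain ⟨h6, h7⟩ := h3
    obtain ⟨a1, a2, a3, a4⟩ := h4 d (by simp)
    obtain ⟨b1, b2⟩ := h5 d (by simp)
    simp only [List.map_cons, cost]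
    have e1 : back c (sc (pick m ω d)) = 0 := by
      unfold pick
      split_ifs
      · simp only [sc, back, if_true]
        push_cast
        omega
      · simp only [sc, back, Bool.false_eq_true, if_false]
        push_cast
        omega
    have e2 : (tc (pick m ω d)).1 = d.1 + 1 ∧ (tc (pick m ω d)).2 ≤ d.2 - m + 1 := by
      unfold pick
      split_ifs
      · simp only [tc, if_true]
        push_cast
        omega
      · simp only [tc, Bool.false_eq_true, if_false]
        push_cast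
        omega
    rw [e1, ih (tc (pick m ω d)) (by omega) (by omega) h7 (fun x hx => h4 x (by simp [hx]))]
    intro x hx
    obtain ⟨c1, c2⟩ := h6 x hx
    omega

/-- Lower bound for the gain. -/
theorem KK_lower (m : ℕ) (ω : Conf) : (LS m (ML m ω) : ℤ) ≤ KK m ω := by
  obtain ⟨l, ⟨h1, h2⟩, h3⟩ := LS_mem m (ML m ω)
  have hc : cost ((m : ℤ), 0) (0, -(m : ℤ)) (l.map (pick m ω)) = 0 := by
    apply cost_zero m ω l _ _ _ h1 (fun d hd => (h2 d hd).1)
    · intro d hd
      obtain ⟨⟨a1, a2, a3, a4⟩, _⟩ := h2 d hd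
      simp only
      omega
    · simp only
      omega
    · simp only
      omega
  have h4 : ∀ e ∈ l.map (pick m ω), Inner m e ∧ ω e = false := by
    intro e he
    rw [List.mem_map] at he
    obtain ⟨d, hd, rfl⟩ := he
    obtain ⟨⟨a1, a2, a3, a4⟩, hm⟩ := h2 d hd
    unfold ML mark at hm
    unfold pick
    split_ifs with h
    · refine ⟨Or.inl ⟨rfl, ?_, ?_, ?_⟩, h⟩
      · simp
      · simp only; omega
      · simp only; omega
    · refine ⟨Or.inr ⟨rfl, ?_, ?_, ?_⟩, ?_⟩
      · simp only; omega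
      · simp only; omega
      · simp only; omega
      · rw [Bool.not_eq_false] at h
        rw [h, Bool.and_true] at hm
        simpa using hm
  have h5 := hh_ge (c := (0, -(m : ℤ))) h4
  rw [hc, List.length_map] at h5
  rw [h3]
  unfold KK
  simpa using h5

end Pool.Agent.R962.FN
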