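import Mathlib

/-!
# Lists of lattice points: backward displacement, thin steps, extraction of strict chains,
weights of lists
-/

set_option autoImplicit false

namespace Pool.Agent.R962.FN

open Finset

/-- Backward displacement needed to go from `c` to `d`. -/
def back (c d : ℤ × ℤ) : ℕ := (c.1 - d.1).toNat + (c.2 - d.2).toNat

/-- Forward displacement needed to go from `c` to `d`. -/
def fwd (c d : ℤ × ℤ) : ℕ := (d.1 - c.1).toNat + (d.2 - c.2).toNat

/-- Indicator of a thin step. -/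
def thin (a : ℤ) : ℕ := if -1 ≤ a ∧ a ≤ 1 then 1 else 0

/-- Total backward displacement. -/
def bk : ℤ × ℤ → List (ℤ × ℤ) → ℕ
  | _, [] => 0
  | p, c :: l => back p c + bk c l

/-- Total forward displacement. -/
def fw : ℤ × ℤ → List (ℤ × ℤ) → ℕ
  | _, [] => 0
  | p, c :: l => fwd p c + fw c l

/-- Number of thin steps (horizontal and vertical counted separately). -/
def th : ℤ × ℤ → List (ℤ × ℤ) → ℕ
  | _, [] => 0
  | p, c :: l => thin (c.1 - p.1) + thin (c.2 - p.2) + th c l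

/-- Strict order in both coordinates. -/
def lt2 (c d : ℤ × ℤ) : Prop := c.1 < d.1 ∧ c.2 < d.2

theorem coord_step {X p c : ℤ} (h : p ≤ X) :
    (max X c - c) ≤ 2 * (thin (c - p) : ℤ) + 2 * ((p - c).toNat : ℤ) + (X - p) ∧
    (c ≤ X → 2 + (max X c - c) ≤ 2 * (thin (c - p) : ℤ) + 2 * ((p - c).toNat : ℤ) + (X - p)) := by
  unfold thin
  constructor
  · split_ifs <;> omega
  · intro h2
    split_ifs <;> omega

theorem extract (l : List (ℤ × ℤ)) : ∀ (p : ℤ × ℤ) (X Y : ℤ), p.1 ≤ X → p.2 ≤ Y →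
    ∃ l' : List (ℤ × ℤ), l'.Sublist l ∧ l'.Pairwise lt2 ∧ (∀ c ∈ l', X < c.1 ∧ Y < c.2) ∧
      2 * (l.length : ℤ) ≤ 2 * l'.length + 2 * th p l + 2 * bk p l + (X - p.1) + (Y - p.2) := by
  induction l with
  | nil =>
    intro p X Y hX hY
    refine ⟨[], List.Sublist.slnil, List.Pairwise.nil, by simp, ?_⟩
    simp only [List.length_nil, th, bk]
    push_cast
    omega
  | cons c l1 ih =>
    intro p X Y hX hY
    obtain ⟨l', h1, h2, h3, h4⟩ := ih c (max X c.1) (max Y c.2) (le_max_right _ _) (le_max_right _ _)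
    have hx := coord_step (c := c.1) hX
    have hy := coord_step (c := c.2) hY
    by_cases hrec : X < c.1 ∧ Y < c.2
    · refine ⟨c :: l', h1.cons_cons c, ?_, ?_, ?_⟩
      · rw [List.pairwise_cons]
        refine ⟨?_, h2⟩
        intro d hd
        obtain ⟨h5, h6⟩ := h3 d hd
        exact ⟨lt_of_le_of_lt (le_max_right _ _) h5, lt_of_le_of_lt (le_max_right _ _) h6⟩
      · intro d hd
        rcases List.mem_cons.1 hd with rfl | hd
        · exact hrec
        · obtain ⟨h5, h6⟩ := h3 d hd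
          exact ⟨lt_of_le_of_lt (le_max_left _ _) h5, lt_of_le_of_lt (le_max_left _ _) h6⟩
      · simp only [List.length_cons, th, bk, back]
        have e1 := hx.1
        have e2 := hy.1
        push_cast at h4 ⊢
        omega
    · refine ⟨l', h1.cons c, h2, ?_, ?_⟩
      · intro d hd
        obtain ⟨h5, h6⟩ := h3 d hd
        exact ⟨lt_of_le_of_lt (le_max_left _ _) h5, lt_of_le_of_lt (le_max_left _ _) h6⟩
      · simp only [List.length_cons, th, bk, back]
        have e1 := hx.1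
        have e2 := hy.1
        rw [not_and_or, not_lt, not_lt] at hrec
        push_cast at h4 ⊢
        rcases hrec with hr | hr
        · have e3 := hx.2 hr
          omega
        · have e3 := hy.2 hr
          omega

/-- Extraction of a strict chain. -/
theorem extract_cons (c : ℤ × ℤ) (l : List (ℤ × ℤ)) :
    ∃ l' : List (ℤ × ℤ), l'.Sublist (c :: l) ∧ l'.Pairwise lt2 ∧
      (c :: l).length ≤ l'.length + th c l + bk c l := by
  obtain ⟨l', h1, h2, h3, h4⟩ := extract l c c.1 c.2 le_rfl le_rfl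
  refine ⟨c :: l', h1.cons_cons c, ?_, ?_⟩
  · rw [List.pairwise_cons]
    exact ⟨fun d hd => h3 d hd, h2⟩
  · simp only [List.length_cons]
    omega

/-! ### weights -/

/-- Weight of a one dimensional step. -/
noncomputable def k1 (θ lam : ℝ) (a : ℤ) : ℝ :=
  θ ^ (thin a) * Real.exp (-(lam * a.toNat)) * Real.exp (-((-a).toNat : ℝ))

/-- Weight of a list. -/
noncomputable def wt (θ lam : ℝ) : ℤ × ℤ → List (ℤ × ℤ) → ℝ
  | _, [] => 1
  | p, c :: l => k1 θ lam (c.1 - p.1) * k1 θ lam (c.2 - p.2) * wt θ lam c l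

theorem k1_nonneg {θ lam : ℝ} (hθ : 0 ≤ θ) (a : ℤ) : 0 ≤ k1 θ lam a := by
  unfold k1; positivity

theorem wt_nonneg {θ lam : ℝ} (hθ : 0 ≤ θ) (l : List (ℤ × ℤ)) : ∀ p, 0 ≤ wt θ lam p l := by
  induction l with
  | nil => intro p; simp [wt]
  | cons c l ih =>
    intro p
    unfold wt
    exact mul_nonneg (mul_nonneg (k1_nonneg hθ _) (k1_nonneg hθ _)) (ih c)

theorem wt_eq (θ lam : ℝ) (l : List (ℤ × ℤ)) : ∀ p, wt θ lam p l =
    θ ^ (th p l) * Real.exp (-(lam * fw p l)) * Real.exp (-(bk p l : ℝ)) := by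
  induction l with
  | nil => intro p; simp [wt, th, fw, bk]
  | cons c l ih =>
    intro p
    have e1 : (-(c.1 - p.1)).toNat = (p.1 - c.1).toNat := by congr 1; ring
    have e2 : (-(c.2 - p.2)).toNat = (p.2 - c.2).toNat := by congr 1; ring
    simp only [wt, th, fw, bk, ih c, k1, back, fwd, e1, e2]
    push_cast
    rw [pow_add, pow_add]
    have x1 : Real.exp (-(lam * (((c.1 - p.1).toNat : ℝ) + ((c.2 - p.2).toNat : ℝ) + (fw c l : ℝ)))) =
        Real.exp (-(lam * ((c.1 - p.1).toNat : ℝ))) * Real.exp (-(lam * ((c.2 - p.2).toNat : ℝ))) *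
          Real.exp (-(lam * (fw c l : ℝ))) := by
      rw [← Real.exp_add, ← Real.exp_add]; congr 1; ring
    have x2 : Real.exp (-(((p.1 - c.1).toNat : ℝ) + ((p.2 - c.2).toNat : ℝ) + (bk c l : ℝ))) =
        Real.exp (-((p.1 - c.1).toNat : ℝ)) * Real.exp (-((p.2 - c.2).toNat : ℝ)) *
          Real.exp (-(bk c l : ℝ)) := by
      rw [← Real.exp_add, ← Real.exp_add]; congr 1; ring
    rw [x1, x2]
    ring

theorem fw_bk (l : List (ℤ × ℤ)) : ∀ p, (fw p l : ℤ) - bk p l =
    ((l.getLastD p).1 + (l.getLastD p).2) - (p.1 + p.2) := by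
  induction l with
  | nil => intro p; simp [fw, bk]
  | cons c l ih =>
    intro p
    have h := ih c
    simp only [fw, bk, fwd, back, List.getLastD_cons]
    push_cast
    omega

theorem getLastD_mem (l : List (ℤ × ℤ)) (p : ℤ × ℤ) : l.getLastD p ∈ p :: l := by
  cases l with
  | nil => simp
  | cons c l =>
    have : (c :: l).getLastD p = (c :: l).getLast (by simp) := by
      simp [List.getLastD_eq_getLast?, List.getLast?_eq_getLast_of_ne_nil]
    rw [this]
    exact List.mem_cons_of_mem _ (List.getLast_mem _)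

/-- Lower bound for the weight of a list in a box of side `m`. -/
theorem wt_ge {θ lam : ℝ} (hθ : 1 ≤ θ) (hlam : 0 ≤ lam) {m : ℕ} {x0 y0 : ℤ} (c : ℤ × ℤ)
    (l : List (ℤ × ℤ))
    (hbox : ∀ d ∈ c :: l, x0 ≤ d.1 ∧ d.1 ≤ x0 + m ∧ y0 ≤ d.2 ∧ d.2 ≤ y0 + m) {j k : ℕ}
    (hj : j ≤ th c l) (hb : bk c l ≤ k) :
    1 ≤ Real.exp (2 * lam * m) * Real.exp ((1 + lam) * k) * (θ ^ j)⁻¹ * wt θ lam c l := by
  have h1 := fw_bk l c
  have h2 := hbox _ (getLastD_mem l c)
  have h3 := hbox c (by simp)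
  have h4 : (fw c l : ℤ) ≤ 2 * m + bk c l := by omega
  have h5 : (fw c l : ℝ) ≤ 2 * m + bk c l := by exact_mod_cast h4
  have h6 : (bk c l : ℝ) ≤ k := by exact_mod_cast hb
  rw [wt_eq]
  have hθj : θ ^ j ≤ θ ^ (th c l) := pow_le_pow_right₀ hθ hj
  have hθ0 : 0 < θ ^ j := by positivity
  have h7 : 1 ≤ (θ ^ j)⁻¹ * θ ^ (th c l) := by
    rw [inv_mul_eq_div, le_div_iff₀ hθ0, one_mul]; exact hθj
  have h8 : 1 ≤ Real.exp (2 * lam * m) * Real.exp ((1 + lam) * k) * Real.exp (-(lam * fw c l)) *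
      Real.exp (-(bk c l : ℝ)) := by
    rw [← Real.exp_add, ← Real.exp_add, ← Real.exp_add]
    apply Real.one_le_exp
    nlinarith
  calc (1 : ℝ) = 1 * 1 := by ring
    _ ≤ ((θ ^ j)⁻¹ * θ ^ (th c l)) * (Real.exp (2 * lam * m) * Real.exp ((1 + lam) * k) *
        Real.exp (-(lam * fw c l)) * Real.exp (-(bk c l : ℝ))) :=
        mul_le_mul h7 h8 (by norm_num) (by linarith)
    _ = _ := by ring

/-! ### sums of weights -/

theorem geo_sum {r : ℝ} (h0 : 0 ≤ r) (h1 : r < 1) (s : Finset ℤ) :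
    ∑ a ∈ s, (if 1 ≤ a then r ^ a.toNat else 0) ≤ r / (1 - r) := by
  rw [← Finset.sum_filter]
  have hinj : ∀ a ∈ s.filter (fun a => 1 ≤ a), ∀ b ∈ s.filter (fun a => 1 ≤ a),
      a.toNat - 1 = b.toNat - 1 → a = b := by
    intro a ha b hb hab
    rw [Finset.mem_filter] at ha hb
    omega
  have hsum : ∑ a ∈ s.filter (fun a => 1 ≤ a), r ^ a.toNat =
      ∑ k ∈ (s.filter (fun a => 1 ≤ a)).image (fun a => a.toNat - 1), r * r ^ k := by
    rw [Finset.sum_image hinj]
    apply Finset.sum_congr rfl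
    intro a ha
    rw [Finset.mem_filter] at ha
    rw [← pow_succ']
    congr 1
    omega
  rw [hsum, ← Finset.mul_sum, div_eq_mul_inv]
  apply mul_le_mul_of_nonneg_left _ h0
  rw [← tsum_geometric_of_lt_one h0 h1]
  exact (summable_geometric_of_lt_one h0 h1).sum_le_tsum _ (fun i _ => by positivity)

theorem k1_le {θ lam : ℝ} (hθ : 0 ≤ θ) (hlam : 0 < lam) (a : ℤ) :
    k1 θ lam a ≤ (if a ∈ ({-1, 0, 1} : Finset ℤ) then θ else 0) +
      (if 1 ≤ a then (Real.exp (-lam)) ^ a.toNat else 0) +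
      (if 1 ≤ -a then (Real.exp (-1)) ^ (-a).toNat else 0) := by
  have e1 : Real.exp (-(lam * a.toNat)) = (Real.exp (-lam)) ^ a.toNat := by
    rw [← Real.exp_nat_mul]; congr 1; ring
  have e2 : Real.exp (-((-a).toNat : ℝ)) = (Real.exp (-1)) ^ (-a).toNat := by
    rw [← Real.exp_nat_mul]; congr 1; ring
  have f1 : (Real.exp (-lam)) ^ a.toNat ≤ 1 := pow_le_one₀ (Real.exp_pos _).le
    (Real.exp_le_one_iff.2 (by linarith))
  have f2 : (Real.exp (-1)) ^ (-a).toNat ≤ 1 := pow_le_one₀ (Real.exp_pos _).le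
    (Real.exp_le_one_iff.2 (by norm_num))
  have g1 : 0 < (Real.exp (-lam)) ^ a.toNat := by positivity
  have g2 : 0 < (Real.exp (-1)) ^ (-a).toNat := by positivity
  unfold k1
  rw [e1, e2]
  by_cases h : -1 ≤ a ∧ a ≤ 1
  · have hm : a ∈ ({-1, 0, 1} : Finset ℤ) := by
      simp only [Finset.mem_insert, Finset.mem_singleton]; omega
    rw [if_pos hm]
    unfold thin
    rw [if_pos h, pow_one]
    have h3 : θ * Real.exp (-lam) ^ a.toNat * Real.exp (-1) ^ (-a).toNat ≤ θ := by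
      calc θ * Real.exp (-lam) ^ a.toNat * Real.exp (-1) ^ (-a).toNat
          ≤ θ * 1 * 1 := by gcongr
        _ = θ := by ring
    have h4 : 0 ≤ (if 1 ≤ a then (Real.exp (-lam)) ^ a.toNat else 0) := by split_ifs <;> positivity
    have h5 : 0 ≤ (if 1 ≤ -a then (Real.exp (-1)) ^ (-a).toNat else 0) := by
      split_ifs <;> positivity
    linarith
  · have hm : a ∉ ({-1, 0, 1} : Finset ℤ) := by
      simp only [Finset.mem_insert, Finset.mem_singleton]; omega
    rw [if_neg hm]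
    unfold thin
    rw [if_neg h, pow_zero, one_mul]
    by_cases h6 : 1 ≤ a
    · rw [if_pos h6, if_neg (by omega)]
      have : (-a).toNat = 0 := by omega
      rw [this]; simp
    · rw [if_neg h6, if_pos (by omega)]
      have : a.toNat = 0 := by omega
      rw [this]; simp

/-- The constant `A`. -/
noncomputable def AA (θ lam : ℝ) : ℝ := 3 * θ + 1 / lam + 1

theorem sum_k1 {θ lam : ℝ} (hθ : 0 ≤ θ) (hlam : 0 < lam) (s : Finset ℤ) :
    ∑ a ∈ s, k1 θ lam a ≤ AA θ lam := by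
  have h1 : ∑ a ∈ s, k1 θ lam a ≤ ∑ a ∈ s, ((if a ∈ ({-1, 0, 1} : Finset ℤ) then θ else 0) +
      (if 1 ≤ a then (Real.exp (-lam)) ^ a.toNat else 0) +
      (if 1 ≤ -a then (Real.exp (-1)) ^ (-a).toNat else 0)) :=
    Finset.sum_le_sum fun a _ => k1_le hθ hlam a
  rw [Finset.sum_add_distrib, Finset.sum_add_distrib] at h1
  have h2 : ∑ a ∈ s, (if a ∈ ({-1, 0, 1} : Finset ℤ) then θ else 0) ≤ 3 * θ := by
    rw [← Finset.sum_filter, Finset.sum_const, nsmul_eq_mul]
    have hc : (s.filter (fun a => a ∈ ({-1, 0, 1} : Finset ℤ))).card ≤ 3 := by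
      calc (s.filter (fun a => a ∈ ({-1, 0, 1} : Finset ℤ))).card ≤ ({-1, 0, 1} : Finset ℤ).card := by
            apply Finset.card_le_card
            intro a ha
            exact (Finset.mem_filter.1 ha).2
        _ = 3 := by decide
    have : ((s.filter (fun a => a ∈ ({-1, 0, 1} : Finset ℤ))).card : ℝ) ≤ 3 := by exact_mod_cast hc
    exact mul_le_mul_of_nonneg_right this hθ
  have hr1 : Real.exp (-lam) < 1 := Real.exp_lt_one_iff.2 (by linarith)
  have h3 := geo_sum (Real.exp_pos (-lam)).le hr1 s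
  have h4 : Real.exp (-lam) / (1 - Real.exp (-lam)) ≤ 1 / lam := by
    rw [div_le_div_iff₀ (by linarith) hlam, one_mul]
    have h5 : lam + 1 ≤ Real.exp lam := Real.add_one_le_exp lam
    have h6 : Real.exp (-lam) * Real.exp lam = 1 := by rw [← Real.exp_add]; simp
    have h7 : 0 < Real.exp (-lam) := Real.exp_pos _
    nlinarith
  have h8 : ∑ a ∈ s, (if 1 ≤ -a then (Real.exp (-1)) ^ (-a).toNat else 0) ≤ 1 := by
    have h9 : ∑ a ∈ s, (if 1 ≤ -a then (Real.exp (-1)) ^ (-a).toNat else 0) =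
        ∑ a ∈ s.image (fun a => -a), (if 1 ≤ a then (Real.exp (-1)) ^ a.toNat else 0) := by
      rw [Finset.sum_image (fun a _ b _ h => neg_injective h)]
    rw [h9]
    have hr2 : Real.exp (-1) < 1 := Real.exp_lt_one_iff.2 (by norm_num)
    refine (geo_sum (Real.exp_pos (-1)).le hr2 _).trans ?_
    rw [div_le_one (by linarith)]
    have h5 : (1:ℝ) + 1 ≤ Real.exp 1 := Real.add_one_le_exp 1
    have h6 : Real.exp (-1) * Real.exp 1 = 1 := by rw [← Real.exp_add]; simp
    have h7 : 0 < Real.exp (-1) := Real.exp_pos _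
    nlinarith
  unfold AA
  linarith

theorem sum_lab {θ lam : ℝ} (hθ : 0 ≤ θ) (hlam : 0 < lam) {E : Type} [Fintype E]
    (pos : E → ℤ × ℤ) (hfib : ∀ c, (univ.filter (fun e => pos e = c)).card ≤ 2) (p : ℤ × ℤ) :
    ∑ e : E, k1 θ lam ((pos e).1 - p.1) * k1 θ lam ((pos e).2 - p.2) ≤ 2 * AA θ lam ^ 2 := by
  classical
  have hA : 0 ≤ AA θ lam := by unfold AA; positivity
  set f : ℤ × ℤ → ℝ := fun c => k1 θ lam (c.1 - p.1) * k1 θ lam (c.2 - p.2) with hf
  have hf0 : ∀ c, 0 ≤ f c := fun c => mul_nonneg (k1_nonneg hθ _) (k1_nonneg hθ _)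
  have h1 : ∑ e : E, f (pos e) ≤ 2 * ∑ c ∈ univ.image pos, f c := by
    rw [Finset.sum_comp f pos, Finset.mul_sum]
    apply Finset.sum_le_sum
    intro c _
    rw [nsmul_eq_mul]
    apply mul_le_mul_of_nonneg_right _ (hf0 c)
    exact_mod_cast hfib c
  refine h1.trans ?_
  apply mul_le_mul_of_nonneg_left _ (by norm_num)
  set X := (univ.image pos).image Prod.fst
  set Y := (univ.image pos).image Prod.snd
  have h2 : ∑ c ∈ univ.image pos, f c ≤ ∑ c ∈ X ×ˢ Y, f c := by
    apply Finset.sum_le_sum_of_subset_of_nonneg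
    · intro c hc
      rw [Finset.mem_product]
      exact ⟨Finset.mem_image_of_mem _ hc, Finset.mem_image_of_mem _ hc⟩
    · intro c _ _
      exact hf0 c
  refine h2.trans ?_
  rw [Finset.sum_product]
  have h3 : ∀ (s : Finset ℤ) (x : ℤ), ∑ a ∈ s, k1 θ lam (a - x) ≤ AA θ lam := by
    intro s x
    have : ∑ a ∈ s, k1 θ lam (a - x) = ∑ a ∈ s.image (fun a => a - x), k1 θ lam a := by
      rw [Finset.sum_image (fun a _ b _ h => sub_left_injective h)]
    rw [this]
    exact sum_k1 hθ hlam _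
  calc ∑ x ∈ X, ∑ y ∈ Y, k1 θ lam (x - p.1) * k1 θ lam (y - p.2)
      = (∑ x ∈ X, k1 θ lam (x - p.1)) * (∑ y ∈ Y, k1 θ lam (y - p.2)) := by
        rw [Finset.sum_mul_sum]
    _ ≤ AA θ lam * AA θ lam := mul_le_mul (h3 _ _) (h3 _ _)
        (Finset.sum_nonneg fun a _ => k1_nonneg hθ _) hA
    _ = AA θ lam ^ 2 := by ring

theorem sum_wt {θ lam : ℝ} (hθ : 0 ≤ θ) (hlam : 0 < lam) {E : Type} [Fintype E]
    (pos : E → ℤ × ℤ) (hfib : ∀ c, (univ.filter (fun e => pos e = c)).card ≤ 2) (k : ℕ) :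
    ∀ p : ℤ × ℤ, ∑ g : Fin k → E, wt θ lam p ((List.ofFn g).map pos) ≤ (2 * AA θ lam ^ 2) ^ k := by
  have hA : 0 ≤ AA θ lam := by unfold AA; positivity
  induction k with
  | zero => intro p; simp [wt]
  | succ k ih =>
    intro p
    rw [← (Fin.consEquiv (fun _ : Fin (k+1) => E)).sum_comp, Fintype.sum_prod_type]
    have h1 : ∀ (e : E) (g : Fin k → E),
        wt θ lam p ((List.ofFn ((Fin.consEquiv (fun _ : Fin (k+1) => E)) (e, g))).map pos) =
        (k1 θ lam ((pos e).1 - p.1) * k1 θ lam ((pos e).2 - p.2)) *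
          wt θ lam (pos e) ((List.ofFn g).map pos) := by
      intro e g
      have : List.ofFn ((Fin.consEquiv (fun _ : Fin (k+1) => E)) (e, g)) = e :: List.ofFn g := by
        simp [Fin.consEquiv, List.ofFn_succ]
      rw [this, List.map_cons]
      rfl
    simp only [h1]
    calc ∑ e : E, ∑ g : Fin k → E, (k1 θ lam ((pos e).1 - p.1) * k1 θ lam ((pos e).2 - p.2)) *
          wt θ lam (pos e) ((List.ofFn g).map pos)
        = ∑ e : E, (k1 θ lam ((pos e).1 - p.1) * k1 θ lam ((pos e).2 - p.2)) *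
          ∑ g : Fin k → E, wt θ lam (pos e) ((List.ofFn g).map pos) := by
          apply Finset.sum_congr rfl
          intro e _
          rw [Finset.mul_sum]
      _ ≤ ∑ e : E, (k1 θ lam ((pos e).1 - p.1) * k1 θ lam ((pos e).2 - p.2)) *
          (2 * AA θ lam ^ 2) ^ k := by
          apply Finset.sum_le_sum
          intro e _
          exact mul_le_mul_of_nonneg_left (ih _) (mul_nonneg (k1_nonneg hθ _) (k1_nonneg hθ _))
      _ = (∑ e : E, (k1 θ lam ((pos e).1 - p.1) * k1 θ lam ((pos e).2 - p.2))) *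
          (2 * AA θ lam ^ 2) ^ k := by rw [Finset.sum_mul]
      _ ≤ (2 * AA θ lam ^ 2) * (2 * AA θ lam ^ 2) ^ k := by
          apply mul_le_mul_of_nonneg_right (sum_lab hθ hlam pos hfib p) (by positivity)
      _ = _ := by rw [pow_succ]; ring

end Pool.Agent.R962.FN
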