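import Pool.Agent.R962.FN.KLS
import Pool.Agent.R962.FN.First

/-!
# The law of the configuration, measurability, the law of the marks
-/

set_option autoImplicit false

namespace Pool.Agent.R962.FN

open Finset MeasureTheory ProbabilityTheory
open Pool.Agent.W533.LP

instance (p : unitInterval) : IsProbabilityMeasure (law p) := by
  unfold law; infer_instance

/-- A function of finitely many coordinates is measurable. -/
theorem meas_fin {β : Type} [MeasurableSpace β] (f : Conf → β) (S : Finset Edge)
    (h : ∀ ω ω' : Conf, (∀ e ∈ S, ω e = ω' e) → f ω = f ω') : Measurable f := by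
  classical
  let ext' : (S → Bool) → Conf := fun x e => if he : e ∈ S then x ⟨e, he⟩ else false
  have e1 : f = (fun x : S → Bool => f (ext' x)) ∘ (fun ω : Conf => fun e : S => ω e) := by
    funext ω
    simp only [Function.comp]
    apply h
    intro e he
    simp only [ext', he, dif_pos]
  rw [e1]
  apply Measurable.comp
  · exact measurable_of_countable _
  · exact measurable_pi_lambda _ (fun e => measurable_pi_apply _)

/-- All edges with coordinates smaller than `n`. -/
def boxF (n : ℕ) : Finset Edge := (Finset.range n ×ˢ Finset.range n) ×ˢ Finset.univ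

theorem mem_boxF {n : ℕ} {e : Edge} : e ∈ boxF n ↔ e.1.1 < n ∧ e.1.2 < n := by
  unfold boxF
  simp

theorem HasFlow_congr {n : ℕ} {ω ω' : Conf} (h : ∀ e ∈ boxF n, ω e = ω' e) {k : ℕ}
    (hf : HasFlow n ω k) : HasFlow n ω' k := by
  obtain ⟨P, h1, h2⟩ := hf
  refine ⟨P, fun i => ?_, h2⟩
  obtain ⟨g1, g2, g3, g4, g5⟩ := h1 i
  refine ⟨g1, fun e he => ⟨(g2 e he).1, ?_⟩, g3, g4, g5⟩
  rw [← h e (mem_boxF.2 (g2 e he).1.1)]
  exact (g2 e he).2

theorem V_meas (n : ℕ) : Measurable (V n) := by
  apply meas_fin _ (boxF n)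
  intro ω ω' h
  unfold V
  congr 1
  ext k
  exact ⟨fun hk => HasFlow_congr h hk, fun hk => HasFlow_congr (fun e he => (h e he).symm) hk⟩

theorem Inner_mem {m : ℕ} {e : Edge} (h : Inner m e) : e ∈ boxF (m + 1) := by
  rw [mem_boxF]
  rcases h with ⟨_, _, a, b⟩ | ⟨_, a, _, b⟩ <;> omega

theorem KK_congr {m : ℕ} {ω ω' : Conf} (h : ∀ e, Inner m e → ω e = ω' e) :
    KK m ω = KK m ω' := by
  unfold KK hh gains
  congr 1
  ext g
  constructor
  · rintro ⟨L, h1, h2⟩
    exact ⟨L, fun e he => ⟨(h1 e he).1, by rw [← h e (h1 e he).1]; exact (h1 e he).2⟩, h2⟩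
  · rintro ⟨L, h1, h2⟩
    exact ⟨L, fun e he => ⟨(h1 e he).1, by rw [h e (h1 e he).1]; exact (h1 e he).2⟩, h2⟩

theorem KK_meas (m : ℕ) : Measurable (KK m) := by
  apply meas_fin _ (boxF (m + 1))
  intro ω ω' h
  exact KK_congr (fun e he => h e (Inner_mem he))

theorem bool_ext {μ ν : Measure Bool} [IsProbabilityMeasure μ] [IsProbabilityMeasure ν]
    (h : μ {false} = ν {false}) : μ = ν := by
  apply Measure.ext_of_singleton
  intro b
  cases b
  · exact h
  · have h1 := prob_compl_eq_one_sub (μ := μ) (s := {false}) (measurableSet_singleton _)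
    have h2 := prob_compl_eq_one_sub (μ := ν) (s := {false}) (measurableSet_singleton _)
    have e1 : ({false}ᶜ : Set Bool) = {true} := by ext b; cases b <;> simp
    rw [e1] at h1 h2
    rw [h1, h2, h]

/-- The law on `Bool` of a mark. -/
noncomputable def gam (p : unitInterval) : Measure Bool :=
  (Measure.infinitePi (fun _ : Bool => (bernoulliMeasure true false p : Measure Bool))).map
    (fun f => !(f false && f true))

instance (p : unitInterval) : IsProbabilityMeasure (gam p) := by
  unfold gam
  exact Measure.isProbabilityMeasure_map (measurable_of_countable _).aemeasurable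

theorem gam_false (p : unitInterval) : gam p {false} = ENNReal.ofReal ((p : ℝ) ^ 2) := by
  unfold gam
  rw [Measure.map_apply (measurable_of_countable _) (measurableSet_singleton _)]
  have e1 : ((fun f : Bool → Bool => !(f false && f true)) ⁻¹' {false}) =
      Set.pi (Finset.univ : Finset Bool) (fun _ => {true}) := by
    ext f
    simp only [Set.mem_preimage, Set.mem_singleton_iff, Bool.not_eq_false', Bool.and_eq_true,
      Set.mem_pi, Finset.coe_univ, Set.mem_univ, true_implies]
    constructor
    · rintro ⟨h1, h2⟩ i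
      cases i
      · exact h1
      · exact h2
    · intro h
      exact ⟨h false, h true⟩
  rw [e1, Measure.infinitePi_pi _ (fun _ _ => measurableSet_singleton _)]
  simp only [Finset.prod_const, Finset.card_univ, Fintype.card_bool]
  classical
  rw [bernoulliMeasure_apply _ (measurableSet_singleton _)]
  simp only [Set.mem_singleton_iff, if_true, Bool.false_eq_true, if_false]
  rw [ENNReal.ofReal_pow p.2.1]
  congr 1
  rw [ENNReal.ofReal]
  congr 1
  ext
  rw [Real.coe_toNNReal _ p.2.1]
  rfl

theorem mark_law (p : unitInterval) :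
    (law p).map (fun ω (v : ℕ × ℕ) => mark ω v.1 v.2) = Measure.infinitePi (fun _ => gam p) := by
  have h1 := Measure.infinitePi_map_curry (ι := ℕ × ℕ) (κ := Bool)
    (fun _ _ => (bernoulliMeasure true false p : Measure Bool))
  have hphi : ∀ i : ℕ × ℕ, Measurable (fun f : Bool → Bool => !(f false && f true)) :=
    fun _ => measurable_of_countable _
  have h2 := Measure.infinitePi_map_pi (fun _ : ℕ × ℕ =>
    Measure.infinitePi (fun _ : Bool => (bernoulliMeasure true false p : Measure Bool)))
    (f := fun _ => fun f : Bool → Bool => !(f false && f true)) hphi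
  rw [← h1, Measure.map_map] at h2
  · exact h2
  · exact measurable_pi_lambda _ (fun v => (hphi v).comp (measurable_pi_apply v))
  · exact MeasurableEquiv.measurable _

theorem mark_law_inj (p : unitInterval) {ι : Type} (g : ι → ℕ × ℕ) (hg : Function.Injective g) :
    (law p).map (fun ω (v : ι) => mark ω (g v).1 (g v).2) =
      Measure.infinitePi (fun _ : ι => gam p) := by
  have h1 := Measure.map_infinitePi_infinitePi_of_inj (P := fun _ : ℕ × ℕ => gam p) hg
  rw [← mark_law p, Measure.map_map] at h1
  · exact h1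
  · exact measurable_pi_lambda _ (fun v => measurable_pi_apply _)
  · refine measurable_pi_lambda _ (fun v => ?_)
    apply meas_fin _ {(v, false), (v, true)}
    intro ω ω' h
    unfold mark
    rw [h ((v.1, v.2), false) (by simp), h ((v.1, v.2), true) (by simp)]

theorem W_law (p : unitInterval) {q : ℝ} (hq : 1 - q = (p : ℝ) ^ 2) {Ω : Type} [MeasurableSpace Ω]
    {μ : Measure Ω} {W : ℕ → ℕ → Ω → ℕ} (hB : Bulk μ q W) {ι : Type} (g : ι → ℕ × ℕ)
    (hg : Function.Injective g) :
    μ.map (fun ω (v : ι) => decide (1 ≤ W (g v).1 (g v).2 ω)) =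
      Measure.infinitePi (fun _ : ι => gam p) := by
  have hP : IsProbabilityMeasure μ := hB.prob
  have h0 : iIndepFun (fun v : ℕ × ℕ => fun ω => decide (1 ≤ W v.1 v.2 ω)) μ :=
    hB.indep.comp (fun _ => fun k : ℕ => decide (1 ≤ k)) (fun _ => measurable_of_countable _)
  have h1 := h0.precomp hg
  have hm : ∀ v : ι, Measurable (fun ω => decide (1 ≤ W (g v).1 (g v).2 ω)) := fun v =>
    (measurable_of_countable (fun k : ℕ => decide (1 ≤ k))).comp (hB.meas (g v))
  have h2 := h1.map_fun_eq_infinitePi_map hm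
  have h3 : ∀ v : ι, μ.map (fun ω => decide (1 ≤ W (g v).1 (g v).2 ω)) = gam p := by
    intro v
    have : IsProbabilityMeasure (μ.map (fun ω => decide (1 ≤ W (g v).1 (g v).2 ω))) :=
      Measure.isProbabilityMeasure_map (hm v).aemeasurable
    apply bool_ext
    rw [gam_false, Measure.map_apply (hm v) (measurableSet_singleton _)]
    have e1 : (fun ω => decide (1 ≤ W (g v).1 (g v).2 ω)) ⁻¹' {false} =
        {ω | W (g v).1 (g v).2 ω = 0} := by
      ext ω
      simp
    rw [e1]
    have h4 := hB.law (g v) 0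
    rw [pow_zero, mul_one, hq] at h4
    rw [← h4]
    exact (ENNReal.ofReal_toReal (measure_ne_top μ _)).symm
  refine h2.trans ?_
  congr 1
  funext v
  exact h3 v

/-- Extension of a finite field. -/
def extF (n : ℕ) (x : Fin n × Fin n → Bool) (a b : ℕ) : Bool :=
  if h : a < n ∧ b < n then x (⟨a, h.1⟩, ⟨b, h.2⟩) else false

theorem LS_extF (n : ℕ) (M : ℕ → ℕ → Bool) :
    LS n (extF n (fun v => M v.1 v.2)) = LS n M := by
  apply LS_congr
  intro i hi j hj
  unfold extF
  rw [dif_pos ⟨hi, hj⟩]

/-- Transfer of the law of the longest chain. -/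
theorem transfer (p : unitInterval) {q : ℝ} (hq : 1 - q = (p : ℝ) ^ 2) {Ω : Type}
    [MeasurableSpace Ω] {μ : Measure Ω} {W : ℕ → ℕ → Ω → ℕ} (hB : Bulk μ q W) (n : ℕ)
    (g : ℕ × ℕ → ℕ × ℕ)
    (hg : ∀ a b a' b', a < n → b < n → a' < n → b' < n → g (a, b) = g (a', b') → a = a' ∧ b = b')
    (A : Set ℕ) :
    law p {ω | LS n (fun a b => mark ω (g (a, b)).1 (g (a, b)).2) ∈ A} =
      μ {ω | LS n (fun a b => decide (1 ≤ W a b ω)) ∈ A} := by
  have hP : IsProbabilityMeasure μ := hB.prob
  let g' : Fin n × Fin n → ℕ × ℕ := fun v => g (v.1, v.2)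
  have hg' : Function.Injective g' := by
    intro v w h
    obtain ⟨h1, h2⟩ := hg v.1 v.2 w.1 w.2 v.1.2 v.2.2 w.1.2 w.2.2 h
    exact Prod.ext (Fin.ext h1) (Fin.ext h2)
  let g2 : Fin n × Fin n → ℕ × ℕ := fun v => (v.1, v.2)
  have hg2 : Function.Injective g2 := by
    intro v w h
    simp only [g2, Prod.mk.injEq] at h
    exact Prod.ext (Fin.ext h.1) (Fin.ext h.2)
  have h1 := mark_law_inj p g' hg'
  have h2 := W_law p hq hB g2 hg2
  let F : (Fin n × Fin n → Bool) → ℕ := fun x => LS n (extF n x)
  have hF : Measurable F := measurable_of_countable _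
  have hmM : Measurable (fun (ω : Conf) (v : Fin n × Fin n) => mark ω (g' v).1 (g' v).2) := by
    refine measurable_pi_lambda _ (fun v => ?_)
    apply meas_fin _ {(g' v, false), (g' v, true)}
    intro ω ω' h
    unfold mark
    rw [h (((g' v).1, (g' v).2), false) (by simp), h (((g' v).1, (g' v).2), true) (by simp)]
  have hmW : Measurable (fun (ω : Ω) (v : Fin n × Fin n) =>
      decide (1 ≤ W (g2 v).1 (g2 v).2 ω)) := by
    refine measurable_pi_lambda _ (fun v => ?_)
    exact (measurable_of_countable (fun k : ℕ => decide (1 ≤ k))).comp (hB.meas (g2 v))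
  have hA : MeasurableSet (F ⁻¹' A) := hF MeasurableSet.of_discrete
  have h3 := Measure.map_apply (μ := law p) hmM hA
  have h4 := Measure.map_apply (μ := μ) hmW hA
  rw [h1] at h3
  rw [h2] at h4
  rw [h3] at h4
  have e1 : {ω | LS n (fun a b => mark ω (g (a, b)).1 (g (a, b)).2) ∈ A} =
      (fun (ω : Conf) (v : Fin n × Fin n) => mark ω (g' v).1 (g' v).2) ⁻¹' (F ⁻¹' A) := by
    ext ω
    simp only [Set.mem_preimage, Set.mem_ofPred_eq, F]
    rw [LS_extF n (fun a b => mark ω (g (a, b)).1 (g (a, b)).2)]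
  have e2 : {ω | LS n (fun a b => decide (1 ≤ W a b ω)) ∈ A} =
      (fun (ω : Ω) (v : Fin n × Fin n) => decide (1 ≤ W (g2 v).1 (g2 v).2 ω)) ⁻¹' (F ⁻¹' A) := by
    ext ω
    simp only [Set.mem_preimage, Set.mem_ofPred_eq, F]
    rw [LS_extF n (fun a b => decide (1 ≤ W a b ω))]
  rw [e1, e2, h4]

/-- Probability that all edges of a list without repetitions are closed. -/
theorem closed_prob (p : unitInterval) (L : List Edge) (hL : L.Nodup) :
    law p {ω | ∀ e ∈ L, ω e = false} = ENNReal.ofReal ((1 - (p : ℝ)) ^ L.length) := by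
  classical
  have e1 : {ω : Conf | ∀ e ∈ L, ω e = false} = Set.pi (L.toFinset : Set Edge) (fun _ => {false}) := by
    ext ω
    simp [Set.mem_pi]
  rw [e1]
  unfold law
  rw [Measure.infinitePi_pi _ (fun _ _ => measurableSet_singleton _)]
  simp only [Finset.prod_const]
  rw [List.toFinset_card_of_nodup hL, bernoulliMeasure_apply _ (measurableSet_singleton _)]
  simp only [Set.mem_singleton_iff, if_true, Bool.true_eq_false, if_false]
  rw [ENNReal.ofReal_pow (by linarith [p.2.2])]
  congr 1
  rw [ENNReal.ofReal]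
  congr 1
  ext
  rw [Real.coe_toNNReal _ (by linarith [p.2.2])]
  rfl

end Pool.Agent.R962.FN
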