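import Pool.Agent.R962.FN.Weak

/-!
# Duality, the lower bound for the flow
-/

set_option autoImplicit false

namespace Pool.Agent.R962.FN

open Finset

/-- sum of the coordinates -/
def ph (c : ℤ × ℤ) : ℤ := c.1 + c.2

theorem back_ge (c d : ℤ × ℤ) : ph c - ph d ≤ back c d := by
  unfold ph back; push_cast; omega

theorem back_tri (c d z : ℤ × ℤ) : back c z ≤ back c d + back d z := by
  unfold back; omega

theorem back_self (c : ℤ × ℤ) : back c c = 0 := by unfold back; simp

theorem ph_edge (e : Edge) : ph (tc e) = ph (sc e) + 1 := by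
  unfold ph tc sc
  split_ifs
  · simp; ring
  · simp; ring

theorem cost_tri (Z : ℤ × ℤ) (c d : ℤ × ℤ) (L : List Edge) :
    cost Z c L ≤ back c d + cost Z d L := by
  cases L with
  | nil => exact back_tri c d Z
  | cons e L =>
    unfold cost
    have := back_tri c d (sc e)
    omega

theorem cost_append (Z : ℤ × ℤ) (e : Edge) (A2 : List Edge) (A1 : List Edge) : ∀ c,
    (A1.length : ℤ) + (ph c - ph (sc e)) + cost Z (tc e) A2 ≤ cost Z c (A1 ++ e :: A2) := by
  induction A1 with
  | nil =>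
    intro c
    have := back_ge c (sc e)
    simp only [List.nil_append, cost, List.length_nil]
    push_cast
    linarith
  | cons f A1 ih =>
    intro c
    have h1 := ih (tc f)
    have h2 := back_ge c (sc f)
    have h3 := ph_edge f
    simp only [List.cons_append, cost, List.length_cons]
    push_cast
    linarith

theorem gain_le (Z : ℤ × ℤ) (L : List Edge) : ∀ c, (L.length : ℤ) - cost Z c L ≤ ph Z - ph c := by
  induction L with
  | nil =>
    intro c
    have := back_ge c Z
    simp only [cost, List.length_nil]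
    push_cast
    linarith
  | cons e L ih =>
    intro c
    have h1 := ih (tc e)
    have h2 := back_ge c (sc e)
    have h3 := ph_edge e
    simp only [cost, List.length_cons]
    push_cast
    linarith

theorem nodup_gain (Z : ℤ × ℤ) (n : ℕ) : ∀ (L : List Edge) (c : ℤ × ℤ), L.length ≤ n →
    ∃ L' : List Edge, L'.Nodup ∧ L' ⊆ L ∧
      (L.length : ℤ) - cost Z c L ≤ (L'.length : ℤ) - cost Z c L' := by
  induction n with
  | zero =>
    intro L c hL
    have : L = [] := List.length_eq_zero_iff.1 (by omega)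
    subst this
    exact ⟨[], List.nodup_nil, fun _ h => h, le_rfl⟩
  | succ n ih =>
    intro L c hL
    cases L with
    | nil => exact ⟨[], List.nodup_nil, fun _ h => h, le_rfl⟩
    | cons e L1 =>
      by_cases he : e ∈ L1
      · obtain ⟨A1, A2, rfl⟩ := List.append_of_mem he
        simp only [List.length_cons, List.length_append] at hL
        obtain ⟨L', h1, h2, h3⟩ := ih (e :: A2) c (by simp only [List.length_cons]; omega)
        refine ⟨L', h1, ?_, ?_⟩
        · intro x hx
          have := h2 hx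
          simp only [List.mem_cons, List.mem_append] at this ⊢
          tauto
        · have h4 := cost_append Z e A2 A1 (tc e)
          have h5 := ph_edge e
          simp only [List.length_cons, List.length_append, cost] at h3 ⊢
          push_cast at h3 ⊢
          linarith
      · simp only [List.length_cons] at hL
        obtain ⟨L', h1, h2, h3⟩ := ih L1 (tc e) (by omega)
        refine ⟨e :: L', ?_, ?_, ?_⟩
        · rw [List.nodup_cons]
          exact ⟨fun h => he (h2 h), h1⟩
        · intro x hx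
          rcases List.mem_cons.1 hx with rfl | hx
          · exact List.mem_cons_self
          · exact List.mem_cons_of_mem _ (h2 hx)
        · simp only [List.length_cons, cost]
          push_cast
          linarith

/-- set of gains -/
def gains (m : ℕ) (ω : Conf) (c : ℤ × ℤ) : Set ℤ :=
  {g | ∃ L : List Edge, (∀ e ∈ L, Inner m e ∧ ω e = false) ∧
    g = (L.length : ℤ) - cost ((m : ℤ), 0) c L}

/-- maximal gain -/
noncomputable def hh (m : ℕ) (ω : Conf) (c : ℤ × ℤ) : ℤ := sSup (gains m ω c)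

theorem gains_ne (m : ℕ) (ω : Conf) (c : ℤ × ℤ) : (gains m ω c).Nonempty :=
  ⟨_, [], by simp, rfl⟩

theorem gains_bdd (m : ℕ) (ω : Conf) (c : ℤ × ℤ) : BddAbove (gains m ω c) := by
  refine ⟨ph ((m : ℤ), 0) - ph c, ?_⟩
  rintro g ⟨L, _, rfl⟩
  exact gain_le _ L c

theorem hh_mem (m : ℕ) (ω : Conf) (c : ℤ × ℤ) : hh m ω c ∈ gains m ω c :=
  Int.csSup_mem (gains_ne m ω c) (gains_bdd m ω c)

theorem hh_ge {m : ℕ} {ω : Conf} {c : ℤ × ℤ} {L : List Edge}
    (hL : ∀ e ∈ L, Inner m e ∧ ω e = false) : (L.length : ℤ) - cost ((m : ℤ), 0) c L ≤ hh m ω c :=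
  le_csSup (gains_bdd m ω c) ⟨L, hL, rfl⟩

theorem hh_back (m : ℕ) (ω : Conf) (c d : ℤ × ℤ) : hh m ω d - back c d ≤ hh m ω c := by
  obtain ⟨L, hL, h⟩ := hh_mem m ω d
  have h1 := hh_ge (c := c) hL
  have h2 := cost_tri ((m : ℤ), 0) c d L
  rw [h]
  have h3 : (cost ((m : ℤ), 0) c L : ℤ) ≤ back c d + cost ((m : ℤ), 0) d L := by exact_mod_cast h2
  linarith

theorem hh_closed {m : ℕ} {ω : Conf} {e : Edge} (he : Inner m e) (hω : ω e = false) :
    1 + hh m ω (tc e) ≤ hh m ω (sc e) := by
  obtain ⟨L, hL, h⟩ := hh_mem m ω (tc e)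
  have h1 := hh_ge (c := sc e) (L := e :: L) (m := m) (ω := ω) (by
    intro f hf
    rcases List.mem_cons.1 hf with rfl | hf
    · exact ⟨he, hω⟩
    · exact hL f hf)
  rw [h]
  simp only [cost, back_self, List.length_cons] at h1
  push_cast at h1
  linarith

theorem hh_Z (m : ℕ) (ω : Conf) : hh m ω ((m : ℤ), 0) = 0 := by
  apply le_antisymm
  · obtain ⟨L, _, h⟩ := hh_mem m ω ((m : ℤ), 0)
    rw [h]
    have := gain_le ((m : ℤ), 0) L ((m : ℤ), 0)
    linarith
  · have := hh_ge (m := m) (ω := ω) (c := ((m : ℤ), 0)) (L := []) (by simp)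
    simpa [cost, back_self] using this

theorem hh_drop (m : ℕ) (ω : Conf) (e : Edge) : 0 ≤ hh m ω (sc e) - hh m ω (tc e) ∧
    hh m ω (sc e) - hh m ω (tc e) ≤ 1 := by
  have h1 := hh_back m ω (sc e) (tc e)
  have h2 := hh_back m ω (tc e) (sc e)
  have e1 : back (sc e) (tc e) = 0 := by
    unfold back sc tc; split_ifs <;> simp
  have e2 : back (tc e) (sc e) = 1 := by
    unfold back sc tc; split_ifs <;> simp
  rw [e1] at h1
  rw [e2] at h2
  push_cast at h1 h2
  constructor <;> linarith

/-- The flow: inner edges across which the height does not drop. -/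
def Fl (m : ℕ) (ω : Conf) (e : Edge) : Prop := Inner m e ∧ hh m ω (sc e) = hh m ω (tc e)

theorem Fl_open {m : ℕ} {ω : Conf} {e : Edge} (h : Fl m ω e) : ω e = true := by
  by_contra hcon
  have h1 := hh_closed h.1 (by simpa using hcon)
  have := h.2
  linarith

open Classical in
theorem Fl_ind {m : ℕ} {ω : Conf} {e : Edge} (he : Inner m e) :
    (if Fl m ω e then (1 : ℤ) else 0) = 1 - (hh m ω (sc e) - hh m ω (tc e)) := by
  obtain ⟨h1, h2⟩ := hh_drop m ω e
  by_cases h : Fl m ω e
  · rw [if_pos h, h.2]; ring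
  · rw [if_neg h]
    have : hh m ω (sc e) ≠ hh m ω (tc e) := fun h3 => h ⟨he, h3⟩
    omega

open Classical in
theorem Fl_cons {m : ℕ} (ω : Conf) {i j : ℕ} (hi : i + 1 ≤ m) (hj : j + 1 ≤ m) :
    (if Fl m ω ((i, j + 1), false) then (1 : ℤ) else 0) +
      (if Fl m ω ((i + 1, j), true) then (1 : ℤ) else 0) =
    (if Fl m ω ((i + 1, j + 1), false) then (1 : ℤ) else 0) +
      (if Fl m ω ((i + 1, j + 1), true) then (1 : ℤ) else 0) := by
  rw [Fl_ind (by right; exact ⟨rfl, by simp; omega, by simp, by simpa using hj⟩),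
    Fl_ind (by left; exact ⟨rfl, by simp, by simpa using hi, by simp; omega⟩),
    Fl_ind (by right; exact ⟨rfl, by simpa using hi, by simp, by simpa using hj⟩),
    Fl_ind (by left; exact ⟨rfl, by simp, by simpa using hi, by simpa using hj⟩)]
  simp only [sc, tc, Bool.false_eq_true, if_false, if_true]
  push_cast
  have e1 : ((i : ℤ) + 1 - 1) = i := by ring
  have e2 : (-((j : ℤ) + 1) + 1) = -j := by ring
  rw [e1, e2]
  ring

open Classical in
/-- The next edge of the flow. -/
noncomputable def nxt (m : ℕ) (ω : Conf) (e : Edge) : Edge :=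
  if e.2 = true then
    (if Fl m ω (tip e, true) then (tip e, true) else (tip e, false))
  else
    (if Fl m ω (tip e, false) then (tip e, false) else (tip e, true))

/-- The end point of the edge is an interior vertex. -/
def Int' (m : ℕ) (e : Edge) : Prop := (tip e).1 ≤ m ∧ (tip e).2 ≤ m

theorem nxt_tail (m : ℕ) (ω : Conf) (e : Edge) : (nxt m ω e).1 = tip e := by
  unfold nxt; split_ifs <;> rfl

theorem nxt_Fl {m : ℕ} {ω : Conf} {e : Edge} (h : Fl m ω e) (hi : Int' m e) :
    Fl m ω (nxt m ω e) := by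
  classical
  obtain ⟨⟨a, b⟩, t⟩ := e
  have hin := h.1
  unfold Inner at hin
  simp only at hin
  unfold Int' at hi
  cases t
  · simp only [tip, Bool.false_eq_true, if_false] at hi
    have hin' : 1 ≤ b := by
      rcases hin with ⟨h0, _⟩ | ⟨_, _, h0, _⟩
      · cases h0
      · exact h0
    obtain ⟨b', rfl⟩ : ∃ b', b = b' + 1 := ⟨b - 1, by omega⟩
    have hc := Fl_cons ω (i := a) (j := b') hi.1 hi.2
    rw [if_pos h] at hc
    unfold nxt
    simp only [tip, Bool.false_eq_true, if_false]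
    by_cases h1 : Fl m ω ((a + 1, b' + 1), false)
    · rw [if_pos h1]; exact h1
    · rw [if_neg h1]
      rw [if_neg h1] at hc
      by_contra h2
      rw [if_neg h2] at hc
      split_ifs at hc <;> omega
  · simp only [tip, if_true] at hi
    have hin' : 1 ≤ a := by
      rcases hin with ⟨_, h0, _⟩ | ⟨h0, _⟩
      · exact h0
      · cases h0
    obtain ⟨a', rfl⟩ : ∃ a', a = a' + 1 := ⟨a - 1, by omega⟩
    have hc := Fl_cons ω (i := a') (j := b) hi.1 hi.2
    rw [if_pos h] at hc
    unfold nxt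
    simp only [tip, if_true]
    by_cases h1 : Fl m ω ((a' + 1, b + 1), true)
    · rw [if_pos h1]; exact h1
    · rw [if_neg h1]
      rw [if_neg h1] at hc
      by_contra h2
      rw [if_neg h2] at hc
      split_ifs at hc <;> omega

theorem tip_eq {e f : Edge} (h : tip e = tip f) (hne : e ≠ f) :
    ∃ i j : ℕ, (e = ((i, j + 1), false) ∧ f = ((i + 1, j), true)) ∨
      (f = ((i, j + 1), false) ∧ e = ((i + 1, j), true)) := by
  obtain ⟨⟨a, b⟩, t⟩ := e
  obtain ⟨⟨c, d⟩, u⟩ := f
  cases t <;> cases u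
  · exfalso
    simp only [tip, Bool.false_eq_true, if_false, Prod.mk.injEq] at h
    apply hne
    obtain ⟨h1, h2⟩ := h
    have : a = c := by omega
    subst this; subst h2; rfl
  · simp only [tip, Bool.false_eq_true, if_false, if_true, Prod.mk.injEq] at h
    refine ⟨a, d, Or.inl ⟨?_, ?_⟩⟩
    · rw [h.2]
    · rw [← h.1]
  · simp only [tip, Bool.false_eq_true, if_false, if_true, Prod.mk.injEq] at h
    refine ⟨c, b, Or.inr ⟨?_, ?_⟩⟩
    · rw [← h.2]
    · rw [h.1]
  · exfalso
    simp only [tip, if_true, Prod.mk.injEq] at h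
    apply hne
    obtain ⟨h1, h2⟩ := h
    have : b = d := by omega
    subst this; subst h1; rfl

theorem nxt_inj_aux {m : ℕ} {ω : Conf} {i j : ℕ} (h1 : Fl m ω ((i, j + 1), false))
    (h2 : Fl m ω ((i + 1, j), true)) (hi : i + 1 ≤ m) (hj : j + 1 ≤ m) :
    nxt m ω ((i, j + 1), false) ≠ nxt m ω ((i + 1, j), true) := by
  classical
  have hc := Fl_cons ω (i := i) (j := j) hi hj
  rw [if_pos h1, if_pos h2] at hc
  have h3 : Fl m ω ((i + 1, j + 1), false) := by
    by_contra h; rw [if_neg h] at hc; split_ifs at hc <;> omega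
  have h4 : Fl m ω ((i + 1, j + 1), true) := by
    by_contra h; rw [if_neg h] at hc; split_ifs at hc <;> omega
  unfold nxt
  simp only [tip, Bool.false_eq_true, if_false, if_true]
  rw [if_pos h3, if_pos h4]
  simp

theorem nxt_inj {m : ℕ} {ω : Conf} {e f : Edge} (he : Fl m ω e) (hf : Fl m ω f) (hi : Int' m e)
    (h : nxt m ω e = nxt m ω f) : e = f := by
  by_contra hne
  have ht : tip e = tip f := by rw [← nxt_tail m ω e, ← nxt_tail m ω f, h]
  obtain ⟨i, j, ⟨rfl, rfl⟩ | ⟨rfl, rfl⟩⟩ := tip_eq ht hne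
  · unfold Int' at hi
    simp only [tip, Bool.false_eq_true, if_false] at hi
    exact nxt_inj_aux he hf hi.1 hi.2 h
  · unfold Int' at hi
    simp only [tip, if_true] at hi
    exact nxt_inj_aux hf he hi.1 hi.2 h.symm

open Classical in
/-- Trace of the flow started with the edge `e`. -/
noncomputable def trace (m : ℕ) (ω : Conf) : ℕ → Edge → List Edge
  | 0, e => [e]
  | k + 1, e => if Int' m e then e :: trace m ω k (nxt m ω e) else [e]

theorem trace_ne (m : ℕ) (ω : Conf) (k : ℕ) (e : Edge) : trace m ω k e ≠ [] := by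
  cases k with
  | zero => simp [trace]
  | succ k => unfold trace; split_ifs <;> simp

theorem trace_cons (m : ℕ) (ω : Conf) (k : ℕ) (e : Edge) : ∃ L, trace m ω k e = e :: L := by
  cases k with
  | zero => exact ⟨[], rfl⟩
  | succ k =>
    unfold trace
    split_ifs
    · exact ⟨_, rfl⟩
    · exact ⟨[], rfl⟩

/-- one step -/
def Stp (m : ℕ) (ω : Conf) (x y : Edge) : Prop := Fl m ω x ∧ Int' m x ∧ y = nxt m ω x

theorem trace_mem {m : ℕ} {ω : Conf} (k : ℕ) : ∀ e, Fl m ω e → ∀ x ∈ trace m ω k e,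
    Fl m ω x ∧ Relation.ReflTransGen (Stp m ω) e x := by
  induction k with
  | zero =>
    intro e he x hx
    simp only [trace, List.mem_singleton] at hx
    subst hx
    exact ⟨he, Relation.ReflTransGen.refl⟩
  | succ k ih =>
    intro e he x hx
    unfold trace at hx
    split_ifs at hx with hi
    · rcases List.mem_cons.1 hx with rfl | hx
      · exact ⟨he, Relation.ReflTransGen.refl⟩
      · obtain ⟨h1, h2⟩ := ih _ (nxt_Fl he hi) x hx
        exact ⟨h1, Relation.ReflTransGen.head ⟨he, hi, rfl⟩ h2⟩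
    · simp only [List.mem_singleton] at hx
      subst hx
      exact ⟨he, Relation.ReflTransGen.refl⟩

theorem trace_chain (m : ℕ) (ω : Conf) (k : ℕ) : ∀ e,
    (trace m ω k e).IsChain (fun e f => tip e = f.1) := by
  induction k with
  | zero => intro e; simp [trace]
  | succ k ih =>
    intro e
    unfold trace
    split_ifs
    · obtain ⟨L, hL⟩ := trace_cons m ω k (nxt m ω e)
      have h1 := ih (nxt m ω e)
      rw [hL] at h1 ⊢
      rw [List.isChain_cons_cons]
      exact ⟨(nxt_tail m ω e).symm, h1⟩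
    · simp

theorem not_int {m : ℕ} {e : Edge} (he : Inner m e) (hi : ¬ Int' m e) : tip e ∈ TT (m + 2) := by
  obtain ⟨⟨a, b⟩, t⟩ := e
  unfold Inner at he
  unfold Int' at hi
  cases t
  · rcases he with ⟨h0, _⟩ | ⟨_, h1, h2, h3⟩
    · cases h0
    · simp only [tip, Bool.false_eq_true, if_false] at hi h1 h2 h3 ⊢
      right
      show a + 1 + 1 = m + 2 ∧ b + 1 ≤ m + 2
      omega
  · rcases he with ⟨_, h1, h2, h3⟩ | ⟨h0, _⟩
    · simp only [tip, if_true] at hi h1 h2 h3 ⊢
      left
      show b + 1 + 1 = m + 2 ∧ a + 1 ≤ m + 2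
      omega
    · cases h0

theorem trace_last {m : ℕ} {ω : Conf} (k : ℕ) : ∀ e, Fl m ω e → 2 * m ≤ k + lev e →
    ∀ h : trace m ω k e ≠ [], tip ((trace m ω k e).getLast h) ∈ TT (m + 2) := by
  induction k with
  | zero =>
    intro e he hk h
    simp only [trace, List.getLast_singleton]
    apply not_int he.1
    intro hi
    have := lev_tip e
    unfold Int' at hi
    omega
  | succ k ih =>
    intro e he hk h
    by_cases hi : Int' m e
    · have e1 : trace m ω (k + 1) e = e :: trace m ω k (nxt m ω e) := by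
        rw [trace, if_pos hi]
      simp only [e1]
      rw [List.getLast_cons (trace_ne m ω k _)]
      apply ih _ (nxt_Fl he hi)
      have := lev_tip e
      have h2 : lev (nxt m ω e) = (tip e).1 + (tip e).2 := by
        unfold lev; rw [nxt_tail]
      omega
    · have e1 : trace m ω (k + 1) e = [e] := by
        rw [trace, if_neg hi]
      simp only [e1, List.getLast_singleton]
      exact not_int he.1 hi

theorem Inner_box {m : ℕ} {e : Edge} (he : Inner m e) : InBox (m + 2) e := by
  obtain ⟨⟨a, b⟩, t⟩ := e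
  unfold InBox
  cases t
  · rcases he with ⟨h0, _⟩ | ⟨_, h1, h2, h3⟩
    · cases h0
    · simp only [tip, Bool.false_eq_true, if_false] at h1 h2 h3 ⊢
      omega
  · rcases he with ⟨_, h1, h2, h3⟩ | ⟨h0, _⟩
    · simp only [tip, if_true] at h1 h2 h3 ⊢
      omega
    · cases h0

/-- Exit edges: those starting in `S`. -/
def inEx (m : ℕ) : Finset Edge :=
  (Finset.Ico 1 (m + 1)).image (fun a => (((a, 0), true) : Edge)) ∪
    (Finset.Ico 1 (m + 1)).image (fun b => (((0, b), false) : Edge))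

theorem inEx_inner {m : ℕ} {e : Edge} (h : e ∈ inEx m) : Inner m e ∧ e.1 ∈ SS (m + 2) ∧
    (e.1.1 = 0 ∨ e.1.2 = 0) := by
  unfold inEx at h
  simp only [Finset.mem_union, Finset.mem_image, Finset.mem_Ico] at h
  rcases h with ⟨a, ha, rfl⟩ | ⟨b, hb, rfl⟩
  · refine ⟨Or.inl ⟨rfl, ?_, ?_, ?_⟩, Or.inr ⟨rfl, ?_⟩, Or.inr rfl⟩
    · show 1 ≤ a; omega
    · show a ≤ m; omega
    · show 0 ≤ m; omega
    · show a + 2 ≤ m + 2; omega
  · refine ⟨Or.inr ⟨rfl, ?_, ?_, ?_⟩, Or.inl ⟨rfl, ?_⟩, Or.inl rfl⟩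
    · show 0 ≤ m; omega
    · show 1 ≤ b; omega
    · show b ≤ m; omega
    · show b + 2 ≤ m + 2; omega

theorem no_pred {m : ℕ} {e x : Edge} (h : e.1.1 = 0 ∨ e.1.2 = 0) (hx : Inner m x)
    (he : e.1 = tip x) : False := by
  obtain ⟨⟨a, b⟩, t⟩ := x
  unfold Inner at hx
  rw [he] at h
  cases t
  · rcases hx with ⟨h0, _⟩ | ⟨_, h1, h2, h3⟩
    · cases h0
    · simp only [tip, Bool.false_eq_true, if_false] at h h1 h2 h3
      omega
  · rcases hx with ⟨_, h1, h2, h3⟩ | ⟨h0, _⟩
    · simp only [tip, if_true] at h h1 h2 h3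
      omega
    · cases h0

theorem reach_disj {m : ℕ} {ω : Conf} {e f : Edge} (he : e.1.1 = 0 ∨ e.1.2 = 0)
    (hf : f.1.1 = 0 ∨ f.1.2 = 0) {x : Edge} (h1 : Relation.ReflTransGen (Stp m ω) e x) :
    Relation.ReflTransGen (Stp m ω) f x → e = f := by
  induction h1 with
  | refl =>
    intro h2
    rcases Relation.ReflTransGen.cases_tail h2 with h3 | ⟨y, _, hy⟩
    · exact h3
    · exfalso
      apply no_pred he hy.1.1
      rw [hy.2.2, nxt_tail]
  | tail h3 h4 ih =>
    intro h2
    rcases Relation.ReflTransGen.cases_tail h2 with h5 | ⟨y, hy1, hy⟩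
    · exfalso
      apply no_pred hf h4.1.1
      rw [← h5, h4.2.2, nxt_tail]
    · apply ih
      rename_i b c
      have : b = y := nxt_inj h4.1 hy.1 h4.2.1 (by rw [← h4.2.2, ← hy.2.2])
      rw [this]
      exact hy1

theorem tele_a (m : ℕ) (ω : Conf) (n : ℕ) :
    ∑ a ∈ Finset.Ico 1 (n + 1), (hh m ω (sc ((a, 0), true)) - hh m ω (tc ((a, 0), true))) =
      hh m ω (0, 0) - hh m ω ((n : ℤ), 0) := by
  induction n with
  | zero => simp
  | succ n ih =>
    rw [Finset.sum_Ico_succ_top (by omega : 1 ≤ n + 1), ih]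
    simp only [sc, tc, if_true]
    push_cast
    have : ((n : ℤ) + 1 - 1) = n := by ring
    rw [this]
    simp

theorem tele_b (m : ℕ) (ω : Conf) (n : ℕ) :
    ∑ b ∈ Finset.Ico 1 (n + 1), (hh m ω (sc ((0, b), false)) - hh m ω (tc ((0, b), false))) =
      hh m ω (0, -(n : ℤ)) - hh m ω (0, 0) := by
  induction n with
  | zero => simp
  | succ n ih =>
    rw [Finset.sum_Ico_succ_top (by omega : 1 ≤ n + 1), ih]
    simp only [sc, tc, Bool.false_eq_true, if_false]
    push_cast
    have : (-((n : ℤ) + 1) + 1) = -n := by ring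
    rw [this]
    ring

/-- **Strong duality.** -/
theorem strong (m : ℕ) (ω : Conf) : ∃ (k : ℕ) (L : List Edge), HasFlow (m + 2) ω k ∧ L.Nodup ∧
    (∀ e ∈ L, Inner m e ∧ ω e = false) ∧
    (k : ℤ) = 2 * m - ((L.length : ℤ) - cost ((m : ℤ), 0) (0, -(m : ℤ)) L) := by
  classical
  obtain ⟨L0, hL0, h0⟩ := hh_mem m ω (0, -(m : ℤ))
  obtain ⟨L, hL1, hL2, hL3⟩ := nodup_gain ((m : ℤ), 0) L0.length L0 (0, -(m : ℤ)) le_rfl
  have hL4 : ∀ e ∈ L, Inner m e ∧ ω e = false := fun e he => hL0 e (hL2 he)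
  have hL5 : (L.length : ℤ) - cost ((m : ℤ), 0) (0, -(m : ℤ)) L = hh m ω (0, -(m : ℤ)) := by
    apply le_antisymm (hh_ge hL4)
    rw [h0]; exact hL3
  set X : Finset Edge := (inEx m).filter (fun e => Fl m ω e) with hX
  refine ⟨X.card, L, ?_, hL1, hL4, ?_⟩
  · -- the paths
    let eq : Fin X.card ≃ {e // e ∈ X} := X.equivFin.symm
    refine ⟨fun i => trace m ω (2 * m) (eq i).1, ?_, ?_⟩
    · intro i
      obtain ⟨hm1, hm2⟩ := Finset.mem_filter.1 (eq i).2
      have hm3 := inEx_inner hm1
      refine ⟨trace_ne m ω _ _, ?_, trace_chain m ω _ _, ?_, ?_⟩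
      · intro e he
        obtain ⟨h1, _⟩ := trace_mem _ _ hm2 e he
        exact ⟨Inner_box h1.1, Fl_open h1⟩
      · obtain ⟨L', hL'⟩ := trace_cons m ω (2 * m) (eq i).1
        have : (trace m ω (2 * m) (eq i).1).head (trace_ne m ω _ _) = (eq i).1 := by
          simp only [hL', List.head_cons]
        rw [this]
        exact hm3.2.1
      · exact trace_last _ _ hm2 (by omega) _
    · intro i j hij e he hej
      have hi := Finset.mem_filter.1 (eq i).2
      have hj := Finset.mem_filter.1 (eq j).2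
      obtain ⟨_, h1⟩ := trace_mem _ _ hi.2 e he
      obtain ⟨_, h2⟩ := trace_mem _ _ hj.2 e hej
      have h3 := reach_disj (inEx_inner hi.1).2.2 (inEx_inner hj.1).2.2 h1 h2
      exact hij (eq.injective (Subtype.ext h3))
  · rw [hL5]
    have h1 : (X.card : ℤ) = ∑ e ∈ inEx m, (if Fl m ω e then (1 : ℤ) else 0) := by
      rw [hX, Finset.card_filter]
      push_cast
      rfl
    have h2 : ∑ e ∈ inEx m, (if Fl m ω e then (1 : ℤ) else 0) =
        ∑ e ∈ inEx m, (1 - (hh m ω (sc e) - hh m ω (tc e))) :=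
      Finset.sum_congr rfl fun e he => Fl_ind (inEx_inner he).1
    rw [h1, h2]
    unfold inEx
    have s1 : ∑ a ∈ Finset.Ico 1 (m + 1), (1 - (hh m ω (sc ((a, 0), true)) -
        hh m ω (tc ((a, 0), true)))) = (m : ℤ) - (hh m ω (0, 0) - hh m ω ((m : ℤ), 0)) := by
      rw [← tele_a m ω m, Finset.sum_sub_distrib]
      simp
    have s2 : ∑ b ∈ Finset.Ico 1 (m + 1), (1 - (hh m ω (sc ((0, b), false)) -
        hh m ω (tc ((0, b), false)))) = (m : ℤ) - (hh m ω (0, -(m : ℤ)) - hh m ω (0, 0)) := by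
      rw [← tele_b m ω m, Finset.sum_sub_distrib]
      simp
    rw [Finset.sum_union, Finset.sum_image, Finset.sum_image, s1, s2, hh_Z]
    · ring
    · intro a _ b _ hab
      simpa using hab
    · intro a _ b _ hab
      simpa using hab
    · rw [Finset.disjoint_left]
      intro e h3 h4
      simp only [Finset.mem_image] at h3 h4
      obtain ⟨a, _, rfl⟩ := h3
      obtain ⟨b, _, h5⟩ := h4
      simp at h5

/-- `V` lies between the bounds given by the gains. -/
theorem V_bounds (m : ℕ) (ω : Conf) :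
    (∀ L : List Edge, (∀ e ∈ L, Inner m e ∧ ω e = false) →
      (V (m + 2) ω : ℤ) + L.length ≤ 2 * m + 2 + cost ((m : ℤ), 0) (0, -(m : ℤ)) L) ∧
    ∃ L : List Edge, L.Nodup ∧ (∀ e ∈ L, Inner m e ∧ ω e = false) ∧
      2 * (m : ℤ) - ((L.length : ℤ) - cost ((m : ℤ), 0) (0, -(m : ℤ)) L) ≤ V (m + 2) ω := by
  have hbdd : BddAbove {k | HasFlow (m + 2) ω k} := by
    refine ⟨2 * m + 2, ?_⟩
    intro k hk
    have h := weak hk [] (by simp)
    have e1 : cost ((m : ℤ), 0) (0, -(m : ℤ)) [] = 0 := by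
      unfold cost back; simp
    rw [e1] at h
    simp only [List.length_nil] at h
    push_cast at h
    omega
  obtain ⟨k, L, h1, h2, h3, h4⟩ := strong m ω
  constructor
  · intro L' hL'
    have hmem : V (m + 2) ω ∈ {k | HasFlow (m + 2) ω k} := Nat.sSup_mem ⟨k, h1⟩ hbdd
    exact weak hmem L' hL'
  · refine ⟨L, h2, h3, ?_⟩
    rw [← h4]
    exact_mod_cast le_csSup hbdd h1

end Pool.Agent.R962.FN
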