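import Pool.Agent.R962.FN.Defs
import Pool.Agent.R962.FN.Lists

/-!
# Duality, the upper bound for the flow
-/

set_option autoImplicit false

namespace Pool.Agent.R962.FN

open Finset

/-- Inner edges: edges of the square of side `m + 2` which are neither inside `S` nor inside `T`,
except the two edges next to the corners. -/
def Inner (m : ℕ) (e : Edge) : Prop :=
  (e.2 = true ∧ 1 ≤ e.1.1 ∧ e.1.1 ≤ m ∧ e.1.2 ≤ m) ∨
  (e.2 = false ∧ e.1.1 ≤ m ∧ 1 ≤ e.1.2 ∧ e.1.2 ≤ m)

/-- Cell before the edge (in the order: to the right and downwards). -/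
def sc (e : Edge) : ℤ × ℤ := if e.2 = true then ((e.1.1 : ℤ) - 1, -(e.1.2 : ℤ)) else (e.1.1, -(e.1.2 : ℤ))

/-- Cell after the edge. -/
def tc (e : Edge) : ℤ × ℤ := if e.2 = true then ((e.1.1 : ℤ), -(e.1.2 : ℤ)) else (e.1.1, -(e.1.2 : ℤ) + 1)

/-- Position of an edge. -/
def pos (e : Edge) : ℤ × ℤ := ((e.1.1 : ℤ), -(e.1.2 : ℤ))

/-- Backward displacement of a dual path through the edges of the list. -/
def cost (Z : ℤ × ℤ) : ℤ × ℤ → List Edge → ℕ
  | c, [] => back c Z
  | c, e :: L => back c (sc e) + cost Z (tc e) L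

/-- A gradient: potential of a conserved function. -/
def HH (m : ℕ) (f : Edge → ℤ) (i j : ℕ) : ℤ :=
  ∑ a ∈ Finset.Ico (i + 1) (m + 1), f ((a, j), true) + ∑ b ∈ Finset.Ico 1 (j + 1), f ((m, b), false)

/-- conservation -/
def Cons (m : ℕ) (f : Edge → ℤ) : Prop := ∀ i j : ℕ, i + 1 ≤ m → j + 1 ≤ m →
  f ((i, j + 1), false) + f ((i + 1, j), true) =
    f ((i + 1, j + 1), false) + f ((i + 1, j + 1), true)

theorem HH_right {m : ℕ} {f : Edge → ℤ} {i j : ℕ} (hi : i + 1 ≤ m) :
    HH m f i j - HH m f (i + 1) j = f ((i + 1, j), true) := by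
  unfold HH
  rw [Finset.sum_eq_sum_Ico_succ_bot (by omega : i + 1 < m + 1)]
  ring

theorem HH_down {m : ℕ} {f : Edge → ℤ} (hc : Cons m f) {j : ℕ} (hj : j + 1 ≤ m) :
    ∀ k i : ℕ, i + k = m → HH m f i (j + 1) - HH m f i j = f ((i, j + 1), false) := by
  intro k
  induction k with
  | zero =>
    intro i hi
    have : i = m := by omega
    subst this
    unfold HH
    rw [Finset.Ico_self, Finset.sum_empty, Finset.sum_empty,
      Finset.sum_Ico_succ_top (by omega : 1 ≤ j + 1)]
    ring
  | succ k ih =>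
    intro i hi
    have h1 := ih (i + 1) (by omega)
    have h2 := HH_right (m := m) (f := f) (i := i) (j := j + 1) (by omega)
    have h3 := HH_right (m := m) (f := f) (i := i) (j := j) (by omega)
    have h4 := hc i j (by omega) hj
    linarith

theorem HH_zero (m : ℕ) (f : Edge → ℤ) : HH m f m 0 = 0 := by
  unfold HH
  simp

theorem HH_start {m : ℕ} {f : Edge → ℤ} (hc : Cons m f) : HH m f 0 m =
    ∑ a ∈ Finset.Ico 1 (m + 1), f ((a, 0), true) + ∑ b ∈ Finset.Ico 1 (m + 1), f ((0, b), false) := by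
  have h : ∀ j, j ≤ m → HH m f 0 j = ∑ a ∈ Finset.Ico 1 (m + 1), f ((a, 0), true) +
      ∑ b ∈ Finset.Ico 1 (j + 1), f ((0, b), false) := by
    intro j
    induction j with
    | zero => intro _; unfold HH; simp
    | succ j ih =>
      intro hj
      have h1 := HH_down hc hj m 0 (by omega)
      rw [Finset.sum_Ico_succ_top (by omega : 1 ≤ j + 1)]
      have h2 := ih (by omega)
      linarith
  exact h m le_rfl

theorem HH_lip_x {m : ℕ} {f : Edge → ℤ} (hf0 : ∀ e, 0 ≤ f e) (hf1 : ∀ e, f e ≤ 1) (j : ℕ) :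
    ∀ k i : ℕ, i + k ≤ m → 0 ≤ HH m f i j - HH m f (i + k) j ∧
      HH m f i j - HH m f (i + k) j ≤ k := by
  intro k
  induction k with
  | zero => intro i _; simp
  | succ k ih =>
    intro i hi
    obtain ⟨h1, h2⟩ := ih i (by omega)
    have h3 := HH_right (m := m) (f := f) (i := i + k) (j := j) (by omega)
    have h4 := hf0 ((i + k + 1, j), true)
    have h5 := hf1 ((i + k + 1, j), true)
    push_cast
    rw [← add_assoc]
    constructor <;> linarith

theorem HH_lip_y {m : ℕ} {f : Edge → ℤ} (hc : Cons m f) (hf0 : ∀ e, 0 ≤ f e) (hf1 : ∀ e, f e ≤ 1)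
    {i : ℕ} (hi : i ≤ m) :
    ∀ k j : ℕ, j + k ≤ m → 0 ≤ HH m f i (j + k) - HH m f i j ∧
      HH m f i (j + k) - HH m f i j ≤ k := by
  intro k
  induction k with
  | zero => intro j _; simp
  | succ k ih =>
    intro j hj
    obtain ⟨h1, h2⟩ := ih j (by omega)
    have h3 := HH_down hc (j := j + k) (by omega) (m - i) i (by omega)
    have h4 := hf0 ((i, j + k + 1), false)
    have h5 := hf1 ((i, j + k + 1), false)
    push_cast
    rw [← add_assoc]
    constructor <;> linarith

/-- Cells of the box. -/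
def Cell (m : ℕ) (c : ℤ × ℤ) : Prop := 0 ≤ c.1 ∧ c.1 ≤ m ∧ -(m : ℤ) ≤ c.2 ∧ c.2 ≤ 0

/-- Potential on cells. -/
def Hc (m : ℕ) (f : Edge → ℤ) (c : ℤ × ℤ) : ℤ := HH m f c.1.toNat (-c.2).toNat

theorem Hc_lip {m : ℕ} {f : Edge → ℤ} (hc : Cons m f) (hf0 : ∀ e, 0 ≤ f e) (hf1 : ∀ e, f e ≤ 1)
    {c d : ℤ × ℤ} (h1 : Cell m c) (h2 : Cell m d) :
    Hc m f c - Hc m f d ≤ (d.1 + d.2) - (c.1 + c.2) + back c d := by
  obtain ⟨a1, a2, a3, a4⟩ := h1
  obtain ⟨b1, b2, b3, b4⟩ := h2
  have hx : HH m f c.1.toNat (-c.2).toNat - HH m f d.1.toNat (-c.2).toNat ≤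
      d.1 - c.1 + (c.1 - d.1).toNat := by
    rcases le_total c.1 d.1 with h | h
    · have e := (HH_lip_x (m := m) hf0 hf1 (-c.2).toNat (d.1.toNat - c.1.toNat) c.1.toNat (by omega)).2
      have e2 : c.1.toNat + (d.1.toNat - c.1.toNat) = d.1.toNat := by omega
      rw [e2] at e
      omega
    · have e := (HH_lip_x (m := m) hf0 hf1 (-c.2).toNat (c.1.toNat - d.1.toNat) d.1.toNat (by omega)).1
      have e2 : d.1.toNat + (c.1.toNat - d.1.toNat) = c.1.toNat := by omega
      rw [e2] at e
      omega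
  have hy : HH m f d.1.toNat (-c.2).toNat - HH m f d.1.toNat (-d.2).toNat ≤
      d.2 - c.2 + (c.2 - d.2).toNat := by
    rcases le_total c.2 d.2 with h | h
    · have e := (HH_lip_y hc hf0 hf1 (i := d.1.toNat) (by omega) ((-c.2).toNat - (-d.2).toNat)
        (-d.2).toNat (by omega)).2
      have e2 : (-d.2).toNat + ((-c.2).toNat - (-d.2).toNat) = (-c.2).toNat := by omega
      rw [e2] at e
      omega
    · have e := (HH_lip_y hc hf0 hf1 (i := d.1.toNat) (by omega) ((-d.2).toNat - (-c.2).toNat)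
        (-c.2).toNat (by omega)).1
      have e2 : (-c.2).toNat + ((-d.2).toNat - (-c.2).toNat) = (-d.2).toNat := by omega
      rw [e2] at e
      omega
  unfold Hc back
  push_cast
  linarith

theorem Hc_edge {m : ℕ} {f : Edge → ℤ} (hc : Cons m f) {e : Edge} (he : Inner m e) :
    Cell m (sc e) ∧ Cell m (tc e) ∧ Hc m f (sc e) - Hc m f (tc e) = f e ∧
      (tc e).1 + (tc e).2 = (sc e).1 + (sc e).2 + 1 := by
  obtain ⟨⟨i, j⟩, b⟩ := e
  unfold Inner at he
  simp only at he
  rcases he with ⟨rfl, h1, h2, h3⟩ | ⟨rfl, h1, h2, h3⟩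
  · unfold Cell sc tc Hc
    simp only [if_true]
    refine ⟨⟨by omega, by omega, by omega, by omega⟩, ⟨by omega, by omega, by omega, by omega⟩, ?_,
      by ring⟩
    obtain ⟨i', rfl⟩ : ∃ i', i = i' + 1 := ⟨i - 1, by omega⟩
    have e1 : (((i' + 1 : ℕ) : ℤ) - 1).toNat = i' := by omega
    have e2 : (((i' + 1 : ℕ) : ℤ)).toNat = i' + 1 := by omega
    have e3 : (-(-(j : ℤ))).toNat = j := by omega
    rw [e1, e2, e3]
    exact HH_right h2
  · unfold Cell sc tc Hc
    simp only [Bool.false_eq_true, if_false]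
    refine ⟨⟨by omega, by omega, by omega, by omega⟩, ⟨by omega, by omega, by omega, by omega⟩, ?_,
      by ring⟩
    obtain ⟨j', rfl⟩ : ∃ j', j = j' + 1 := ⟨j - 1, by omega⟩
    have e1 : (-(-((j' + 1 : ℕ) : ℤ))).toNat = j' + 1 := by omega
    have e2 : (-(-((j' + 1 : ℕ) : ℤ) + 1)).toNat = j' := by omega
    have e3 : ((i : ℤ)).toNat = i := by omega
    rw [e1, e2, e3]
    exact HH_down hc h3 (m - i) i (by omega)

theorem weak_list {m : ℕ} {f : Edge → ℤ} (hc : Cons m f) (hf0 : ∀ e, 0 ≤ f e) (hf1 : ∀ e, f e ≤ 1)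
    (L : List Edge) : ∀ c, Cell m c → (∀ e ∈ L, Inner m e ∧ f e = 0) →
    Hc m f c - Hc m f ((m : ℤ), 0) ≤ (m : ℤ) - (c.1 + c.2) - L.length + cost ((m : ℤ), 0) c L := by
  induction L with
  | nil =>
    intro c hcell _
    have h := Hc_lip hc hf0 hf1 hcell (d := ((m : ℤ), 0)) ⟨by simp, by simp, by simp, by simp⟩
    simp only [cost, List.length_nil]
    push_cast
    simp only at h
    linarith
  | cons e L ih =>
    intro c hcell hL
    have he := hL e (by simp)
    obtain ⟨h1, h2, h3, h4⟩ := Hc_edge hc he.1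
    have h5 := Hc_lip hc hf0 hf1 hcell h1
    have h6 := ih (tc e) h2 (fun e' he' => hL e' (List.mem_cons_of_mem _ he'))
    rw [he.2] at h3
    simp only [cost, List.length_cons]
    push_cast
    linarith

/-! ### paths -/

/-- in- and out-counts along a chain -/
theorem chain_count (i j : ℕ) (L : List Edge) : ∀ e : Edge,
    (e :: L).IsChain (fun e f => tip e = f.1) →
    (e :: L).count ((i, j + 1), false) + (e :: L).count ((i + 1, j), true) +
      (if e.1 = (i + 1, j + 1) then 1 else 0) =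
    (e :: L).count ((i + 1, j + 1), false) + (e :: L).count ((i + 1, j + 1), true) +
      (if tip ((e :: L).getLast (by simp)) = (i + 1, j + 1) then 1 else 0) := by
  have base : ∀ e : Edge, [e].count ((i, j + 1), false) + [e].count ((i + 1, j), true) +
      (if e.1 = (i + 1, j + 1) then 1 else 0) =
    [e].count ((i + 1, j + 1), false) + [e].count ((i + 1, j + 1), true) +
      (if tip e = (i + 1, j + 1) then 1 else 0) := by
    rintro ⟨⟨a, b⟩, t⟩
    simp only [List.count_singleton, beq_iff_eq]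
    cases t
    · simp [tip]
      by_cases h1 : a = i ∧ b = j + 1
      · obtain ⟨rfl, rfl⟩ := h1; simp
      · by_cases h2 : a = i + 1 ∧ b = j + 1
        · obtain ⟨rfl, rfl⟩ := h2; simp
        · simp [h1, h2]
    · simp [tip]
      by_cases h1 : a = i + 1 ∧ b = j
      · obtain ⟨rfl, rfl⟩ := h1; simp
      · by_cases h2 : a = i + 1 ∧ b = j + 1
        · obtain ⟨rfl, rfl⟩ := h2; simp
        · simp [h1, h2]
  induction L with
  | nil => intro e _; exact base e
  | cons e' L ih =>
    intro e hch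
    rw [List.isChain_cons_cons] at hch
    have h1 := ih e' hch.2
    have h2 := base e
    have h3 : ∀ x : Edge, (e :: e' :: L).count x = [e].count x + (e' :: L).count x := by
      intro x
      rw [← List.count_append]; rfl
    rw [h3, h3, h3, h3]
    have h4 : (e :: e' :: L).getLast (by simp) = (e' :: L).getLast (by simp) :=
      List.getLast_cons _
    rw [h4]
    rw [hch.1] at h2
    omega

theorem path_cons {m : ℕ} {ω : Conf} {P : List Edge} (hP : IsPath (m + 2) ω P) {i j : ℕ}
    (hi : i + 1 ≤ m) (hj : j + 1 ≤ m) :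
    P.count ((i, j + 1), false) + P.count ((i + 1, j), true) =
    P.count ((i + 1, j + 1), false) + P.count ((i + 1, j + 1), true) := by
  obtain ⟨h, h1, h2, h3, h4⟩ := hP
  obtain ⟨e, L, rfl⟩ := List.exists_cons_of_ne_nil h
  have h5 := chain_count i j L e h2
  have h6 : ¬ e.1 = (i + 1, j + 1) := by
    intro he
    simp only [List.head_cons] at h3
    rw [he] at h3
    unfold SS at h3
    simp at h3
  have h7 : ¬ tip ((e :: L).getLast h) = (i + 1, j + 1) := by
    intro he
    rw [he] at h4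
    unfold TT at h4
    simp only [Set.mem_ofPred_eq] at h4
    omega
  rw [if_neg h6, if_neg h7] at h5
  omega

/-- level of an edge -/
def lev (e : Edge) : ℕ := e.1.1 + e.1.2

theorem lev_tip (e : Edge) : (tip e).1 + (tip e).2 = lev e + 1 := by
  unfold tip lev
  split_ifs <;> simp <;> omega

theorem chain_nodup {P : List Edge} (h : P.IsChain (fun e f => tip e = f.1)) : P.Nodup := by
  have h1 : P.IsChain (fun e f => lev e < lev f) := by
    apply h.imp
    intro e f hef
    have := lev_tip e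
    unfold lev at this ⊢
    rw [hef] at this
    omega
  have h2 : P.Pairwise (fun e f => lev e < lev f) := by
    have : IsTrans Edge (fun e f => lev e < lev f) := ⟨fun a b c h1 h2 => lt_trans h1 h2⟩
    exact List.isChain_iff_pairwise.1 h1
  exact h2.imp (fun h => by rintro rfl; exact lt_irrefl _ h)

theorem exists_exit {m : ℕ} (L : List Edge) : ∀ e : Edge,
    (e :: L).IsChain (fun e f => tip e = f.1) → e.1 ∈ SS (m + 2) →
    tip ((e :: L).getLast (by simp)) ∉ SS (m + 2) → ∃ e' ∈ e :: L, e'.1 ∈ SS (m + 2) ∧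
      tip e' ∉ SS (m + 2) := by
  induction L with
  | nil => intro e _ h1 h2; exact ⟨e, by simp, h1, h2⟩
  | cons f L ih =>
    intro e h h1 h2
    rw [List.isChain_cons_cons] at h
    by_cases h3 : tip e ∈ SS (m + 2)
    · rw [h.1] at h3
      obtain ⟨e', h4, h5, h6⟩ := ih f h.2 h3 (by rw [List.getLast_cons (by simp)] at h2; exact h2)
      exact ⟨e', List.mem_cons_of_mem _ h4, h5, h6⟩
    · exact ⟨e, by simp, h1, h3⟩

/-- The exit edges. -/
def exits (m : ℕ) : Finset Edge :=
  ((Finset.Ico 1 (m + 1)).image (fun a => (((a, 0), true) : Edge)) ∪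
    (Finset.Ico 1 (m + 1)).image (fun b => (((0, b), false) : Edge))) ∪
    {((0, m), true), ((m, 0), false)}

theorem mem_exits {m : ℕ} {e : Edge} (hb : InBox (m + 2) e) (h1 : e.1 ∈ SS (m + 2))
    (h2 : tip e ∉ SS (m + 2)) : e ∈ exits m := by
  obtain ⟨⟨a, b⟩, t⟩ := e
  unfold exits
  simp only [Finset.mem_union, Finset.mem_image, Finset.mem_Ico, Finset.mem_insert,
    Finset.mem_singleton, Prod.mk.injEq]
  unfold InBox at hb
  unfold SS at h1 h2
  simp only [Set.mem_ofPred_eq] at h1 h2 hb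
  cases t
  · simp only [tip, Bool.false_eq_true, if_false] at h2 hb
    simp only [Bool.false_eq_true, and_false, exists_false, and_true, false_or, false_and]
    rcases h1 with ⟨ha, hb'⟩ | ⟨ha, hb'⟩
    · by_cases hb0 : b = 0
      · right; omega
      · left
        exact Or.inr ⟨b, ⟨by omega, by omega⟩, by omega, rfl⟩
    · right; omega
  · simp only [tip, if_true] at h2 hb
    simp only [Bool.true_eq_false, and_false, exists_false, and_true, or_false]
    rcases h1 with ⟨ha, hb'⟩ | ⟨ha, hb'⟩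
    · right; omega
    · by_cases hb0 : a = 0
      · right; omega
      · left
        exact Or.inl ⟨a, ⟨by omega, by omega⟩, rfl, by omega⟩

/-- **Weak duality.** -/
theorem weak {m : ℕ} {ω : Conf} {k : ℕ} (hk : HasFlow (m + 2) ω k) (L : List Edge)
    (hL : ∀ e ∈ L, Inner m e ∧ ω e = false) :
    (k : ℤ) + L.length ≤ 2 * m + 2 + cost ((m : ℤ), 0) (0, -(m : ℤ)) L := by
  obtain ⟨P, hP, hdis⟩ := hk
  set f : Edge → ℤ := fun e => ∑ i, ((P i).count e : ℤ) with hf
  have hf0 : ∀ e, 0 ≤ f e := fun e => Finset.sum_nonneg fun i _ => by positivity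
  have hf1 : ∀ e, f e ≤ 1 := by
    intro e
    by_cases hex : ∃ i, e ∈ P i
    · obtain ⟨i, hi⟩ := hex
      have h1 : ∀ j ∈ (Finset.univ : Finset (Fin k)), j ≠ i → ((P j).count e : ℤ) = 0 := by
        intro j _ hj
        have := hdis i j (Ne.symm hj) e hi
        rw [List.count_eq_zero.2 this]; rfl
      simp only [hf]
      rw [Finset.sum_eq_single i h1 (fun h => absurd (Finset.mem_univ i) h)]
      have h2 : (P i).Nodup := by
        obtain ⟨_, _, h3, _⟩ := hP i
        exact chain_nodup h3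
      have := List.nodup_iff_count_le_one.1 h2 e
      exact_mod_cast this
    · push Not at hex
      have : f e = 0 := by
        simp only [hf]
        apply Finset.sum_eq_zero
        intro i _
        rw [List.count_eq_zero.2 (hex i)]; rfl
      rw [this]; norm_num
  have hcons : Cons m f := by
    intro i j hi hj
    simp only [hf]
    rw [← Finset.sum_add_distrib, ← Finset.sum_add_distrib]
    apply Finset.sum_congr rfl
    intro a _
    exact_mod_cast path_cons (hP a) hi hj
  have hL' : ∀ e ∈ L, Inner m e ∧ f e = 0 := by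
    intro e he
    refine ⟨(hL e he).1, ?_⟩
    simp only [hf]
    apply Finset.sum_eq_zero
    intro i _
    have : e ∉ P i := by
      intro h
      obtain ⟨_, h2, _⟩ := hP i
      have h3 := (h2 e h).2
      rw [(hL e he).2] at h3
      exact absurd h3 (by simp)
    rw [List.count_eq_zero.2 this]; rfl
  have h1 := weak_list hcons hf0 hf1 L (0, -(m : ℤ)) ⟨by simp, by simp, by simp, by simp⟩ hL'
  have h2 : Hc m f (0, -(m : ℤ)) = HH m f 0 m := by unfold Hc; simp
  have h3 : Hc m f ((m : ℤ), 0) = 0 := by unfold Hc; simp [HH_zero]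
  rw [h2, h3, HH_start hcons] at h1
  -- number of paths
  have h4 : (k : ℤ) ≤ ∑ e ∈ exits m, f e := by
    have h5 : ∀ i : Fin k, (1 : ℤ) ≤ ∑ e ∈ exits m, ((P i).count e : ℤ) := by
      intro i
      obtain ⟨h, g1, g2, g3, g4⟩ := hP i
      obtain ⟨e, L', hPi⟩ := List.exists_cons_of_ne_nil h
      have hnS : tip ((P i).getLast h) ∉ SS (m + 2) := by
        intro h6
        unfold TT at g4
        unfold SS at h6
        simp only [Set.mem_ofPred_eq] at g4 h6
        omega
      obtain ⟨e', he', g5, g6⟩ := exists_exit (m := m) L' e (by rw [← hPi]; exact g2)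
        (by simp only [hPi, List.head_cons] at g3; exact g3)
        (by simp only [hPi] at hnS; exact hnS)
      rw [← hPi] at he'
      have h7 := mem_exits (g1 e' he').1 g5 g6
      have h8 : (1 : ℤ) ≤ ((P i).count e' : ℤ) := by
        exact_mod_cast List.one_le_count_iff.2 he'
      exact h8.trans (Finset.single_le_sum (f := fun e => ((P i).count e : ℤ))
        (fun e _ => by positivity) h7)
    calc (k : ℤ) = ∑ i : Fin k, (1 : ℤ) := by simp
      _ ≤ ∑ i : Fin k, ∑ e ∈ exits m, ((P i).count e : ℤ) := Finset.sum_le_sum fun i _ => h5 i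
      _ = ∑ e ∈ exits m, f e := by rw [Finset.sum_comm]
  have h9 : ∑ e ∈ exits m, f e ≤ (∑ a ∈ Finset.Ico 1 (m + 1), f ((a, 0), true) +
      ∑ b ∈ Finset.Ico 1 (m + 1), f ((0, b), false)) + 2 := by
    unfold exits
    have u : ∀ A B : Finset Edge, ∑ e ∈ A ∪ B, f e ≤ ∑ e ∈ A, f e + ∑ e ∈ B, f e := by
      intro A B
      have := Finset.sum_union_inter (s₁ := A) (s₂ := B) (f := f)
      have h0 : 0 ≤ ∑ e ∈ A ∩ B, f e := Finset.sum_nonneg fun e _ => hf0 e
      linarith
    refine (u _ _).trans ?_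
    apply add_le_add
    · refine (u _ _).trans ?_
      apply le_of_eq
      rw [Finset.sum_image, Finset.sum_image]
      · intro a _ b _ hab
        simpa using hab
      · intro a _ b _ hab
        simpa using hab
    · calc ∑ e ∈ ({((0, m), true), ((m, 0), false)} : Finset Edge), f e
          = f ((0, m), true) + f ((m, 0), false) := by
            rw [Finset.sum_pair]; simp
        _ ≤ 1 + 1 := add_le_add (hf1 _) (hf1 _)
        _ = 2 := by norm_num
  simp only at h1
  linarith

end Pool.Agent.R962.FN
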